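import Pool.Agent.MOB.Defs

/-!
# MOB/Mat: matrix bookkeeping

`SS T k`, `SI T k`: products of the first involutions and their inverses, `RR T k = S_k T_k S_k⁻¹`.
All by `T k * T k = 1` and associativity (write the four cases `k = 0, 1, 2, 3`;
`Fin.forall_fin_succ` or `fin_cases k`, then `simp only [mul_assoc]` and cancellation).
`uu_vv`, `act_uu`: `act` of the product (`act_act`), `act_one`.
-/

namespace Pool.Agent.MOB

open MvPowerSeries Pool.Agent.RevMaps Pool.Agent.INV5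

variable {n : ℕ}

private theorem mat_c (a b : Mat n) (ha : a * a = 1) : a * (a * b) = b := by
  rw [← mul_assoc, ha, one_mul]

theorem SS_SI (T : Fin 4 → Mat n) (hT : ∀ k, T k * T k = 1) (k : Fin 4) :
    SS T k * SI T k = 1 := by
  have c0 : ∀ b, T 0 * (T 0 * b) = b := fun b => mat_c _ _ (hT 0)
  have c1 : ∀ b, T 1 * (T 1 * b) = b := fun b => mat_c _ _ (hT 1)
  have c2 : ∀ b, T 2 * (T 2 * b) = b := fun b => mat_c _ _ (hT 2)
  fin_cases k
  · show (1 : Mat n) * 1 = 1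
    rw [one_mul]
  · exact hT 0
  · show T 0 * T 1 * (T 1 * T 0) = 1
    rw [mul_assoc, c1, hT]
  · show T 0 * T 1 * T 2 * (T 2 * T 1 * T 0) = 1
    simp only [mul_assoc, c2, c1, hT]

theorem SI_SS (T : Fin 4 → Mat n) (hT : ∀ k, T k * T k = 1) (k : Fin 4) :
    SI T k * SS T k = 1 := mul_eq_one_comm.1 (SS_SI T hT k)

theorem RR_sq (T : Fin 4 → Mat n) (hT : ∀ k, T k * T k = 1) (k : Fin 4) :
    RR T k * RR T k = 1 := by
  have h : SI T k * (SS T k * (T k * SI T k)) = T k * SI T k := by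
    rw [← mul_assoc, SI_SS T hT, one_mul]
  unfold RR
  simp only [mul_assoc]
  rw [h, mat_c _ _ (hT k), SS_SI T hT]

theorem RR_SS (T : Fin 4 → Mat n) (hT : ∀ k, T k * T k = 1) (k : Fin 4) :
    RR T k * SS T k = SS T k * T k := by
  unfold RR
  rw [mul_assoc, SI_SS T hT, mul_one]

theorem SI_RR (T : Fin 4 → Mat n) (hT : ∀ k, T k * T k = 1) (k : Fin 4) :
    SI T k * RR T k = T k * SI T k := by
  unfold RR
  rw [mul_assoc, ← mul_assoc, SI_SS T hT, one_mul]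

/-- `R_1 R_0 = T_0 T_1` -/
theorem RR_one_zero (T : Fin 4 → Mat n) (hT : ∀ k, T k * T k = 1) :
    RR T 1 * RR T 0 = T 0 * T 1 := by
  show T 0 * T 1 * T 0 * (1 * T 0 * 1) = T 0 * T 1
  rw [one_mul, mul_one, mul_assoc, hT, mul_one]

theorem prod_inv (T : Fin 4 → Mat n) (hT : ∀ k, T k * T k = 1) :
    T 0 * T 1 * T 2 * T 3 * (T 3 * T 2 * T 1 * T 0) = 1 ∧
      T 3 * T 2 * T 1 * T 0 * (T 0 * T 1 * T 2 * T 3) = 1 := by
  have c0 : ∀ b, T 0 * (T 0 * b) = b := fun b => mat_c _ _ (hT 0)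
  have c1 : ∀ b, T 1 * (T 1 * b) = b := fun b => mat_c _ _ (hT 1)
  have c2 : ∀ b, T 2 * (T 2 * b) = b := fun b => mat_c _ _ (hT 2)
  have c3 : ∀ b, T 3 * (T 3 * b) = b := fun b => mat_c _ _ (hT 3)
  constructor
  · simp only [mul_assoc, c3, c2, c1, hT]
  · simp only [mul_assoc, c0, c1, c2, hT]

private theorem mat_pow (a b : Mat n) (h : a * b = 1) (j : ℕ) :
    a ^ j * b ^ j = 1 := by
  induction j with
  | zero => rw [pow_zero, pow_zero, one_mul]
  | succ j ih =>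
    rw [pow_succ, pow_succ', mul_assoc, ← mul_assoc a b, h, one_mul, ih]

theorem pow_pow_inv (T : Fin 4 → Mat n) (hT : ∀ k, T k * T k = 1) (j : ℕ) :
    (T 0 * T 1) ^ j * (T 1 * T 0) ^ j = 1 ∧ (T 1 * T 0) ^ j * (T 0 * T 1) ^ j = 1 := by
  have c0 : ∀ b, T 0 * (T 0 * b) = b := fun b => mat_c _ _ (hT 0)
  have c1 : ∀ b, T 1 * (T 1 * b) = b := fun b => mat_c _ _ (hT 1)
  have h1 : T 0 * T 1 * (T 1 * T 0) = 1 := by
    rw [mul_assoc, c1, hT]
  have h2 : T 1 * T 0 * (T 0 * T 1) = 1 := by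
    rw [mul_assoc, c0, hT]
  exact ⟨mat_pow _ _ h1 j, mat_pow _ _ h2 j⟩

theorem act_SS_uu (T : Fin 4 → Mat n) (hT : ∀ k, T k * T k = 1) (v : Fin 4 → V n) (k : Fin 4) :
    act (SS T k) (SI T k) (uu T v k) = v k := by
  unfold uu
  rw [act_act, SS_SI T hT, act_one]

/-- if `R_k v_k = -v_k` then `T_k u_k = -u_k` -/
theorem act_uu (T : Fin 4 → Mat n) (hT : ∀ k, T k * T k = 1) (v : Fin 4 → V n) (k : Fin 4)
    (hv : act (RR T k) (RR T k) (v k) = -v k) :
    act (T k) (T k) (uu T v k) = -uu T v k := by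
  have h1 : act (T k) (T k) (uu T v k) = act (SI T k) (SS T k) (act (RR T k) (RR T k) (v k)) := by
    unfold uu
    rw [act_act, act_act, SI_RR T hT, RR_SS T hT]
  have h2 : act (SI T k) (SS T k) (-v k) = -uu T v k := by
    have h := act_smul (SI T k) (SS T k) (-1) (v k)
    rw [neg_one_smul, neg_one_smul] at h
    exact h
  rw [h1, hv, h2]

end Pool.Agent.MOB
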