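import Pool.Agent.MOB.Bra
import Pool.Agent.MOB.Mat

/-!
# MOB/Bas: the base covectors

With `u_0 = y - y T_0`, `u_1 = y - y T_1`, `u_2 = a2 + y - y T_2`, `u_3 = a3 + y - y T_3`,
`mu k = u_k S_k⁻¹`. `mu_RR`: `u_k T_k = -u_k` and `S_k⁻¹ R_k = T_k S_k⁻¹` (`SI_RR`).
`mu_sum`: the sum is `y + a2 T_1 T_0 + a3 T_2 T_1 T_0 - y A⁻¹` with `A⁻¹ = T_3 T_2 T_1 T_0`
(telescoping), and `rel` times `A⁻¹` reads `-(a2 T_1 T_0) - a3 T_2 T_1 T_0 = y - y A⁻¹`
(use `a2 T_2 = -a2`, `a3 T_3 = -a3`). `mu_zero_one`: `mu 0 + mu 1 = y - y T_1 T_0`.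
All with `Matrix.vecMul_vecMul`, `Matrix.add_vecMul`, `Matrix.sub_vecMul`.
-/

namespace Pool.Agent.MOB

open MvPowerSeries Pool.Agent.RevMaps Pool.Agent.INV5

variable {n : ℕ}

variable {A : Mat n} {T : Fin 4 → Mat n} {N : ℕ} {a2 a3 y : Fin n → ℂ}

theorem bas_anti {v w : Fin n → ℂ} {M : Mat n} (hM : M * M = 1)
    (hv : v = w + y - Matrix.vecMul y M) (hw : Matrix.vecMul w M = -w) :
    Matrix.vecMul v M = -v := by
  rw [hv, Matrix.sub_vecMul, Matrix.add_vecMul, Matrix.vecMul_vecMul, hM, Matrix.vecMul_one, hw]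
  abel

theorem bas_mu (k : Fin 4) : mu T a2 a3 y k = Matrix.vecMul
    ((![y - Matrix.vecMul y (T 0), y - Matrix.vecMul y (T 1), a2 + y - Matrix.vecMul y (T 2),
      a3 + y - Matrix.vecMul y (T 3)] : Fin 4 → (Fin n → ℂ)) k) (SI T k) := by
  fin_cases k
  · change y - Matrix.vecMul y (T 0) = Matrix.vecMul (y - Matrix.vecMul y (T 0)) 1
    rw [Matrix.vecMul_one]
  · rfl
  · rfl
  · rfl

theorem mu_RR (h : IsDat A T N a2 a3 y) (k : Fin 4) :
    Matrix.vecMul (mu T a2 a3 y k) (RR T k) = -mu T a2 a3 y k := by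
  have hu : Matrix.vecMul ((![y - Matrix.vecMul y (T 0), y - Matrix.vecMul y (T 1),
      a2 + y - Matrix.vecMul y (T 2), a3 + y - Matrix.vecMul y (T 3)] :
        Fin 4 → (Fin n → ℂ)) k) (T k) = -((![y - Matrix.vecMul y (T 0),
      y - Matrix.vecMul y (T 1), a2 + y - Matrix.vecMul y (T 2),
      a3 + y - Matrix.vecMul y (T 3)] : Fin 4 → (Fin n → ℂ)) k) := by
    fin_cases k
    · refine bas_anti (y := y) (w := 0) (h.sq 0) ?_ ?_
      · change y - Matrix.vecMul y (T 0) = 0 + y - Matrix.vecMul y (T 0)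
        rw [zero_add]
      · rw [Matrix.zero_vecMul, neg_zero]
    · refine bas_anti (y := y) (w := 0) (h.sq 1) ?_ ?_
      · change y - Matrix.vecMul y (T 1) = 0 + y - Matrix.vecMul y (T 1)
        rw [zero_add]
      · rw [Matrix.zero_vecMul, neg_zero]
    · exact bas_anti (y := y) (w := a2) (h.sq 2) rfl h.anti2
    · exact bas_anti (y := y) (w := a3) (h.sq 3) rfl h.anti3
  rw [bas_mu, Matrix.vecMul_vecMul, SI_RR T h.sq k, ← Matrix.vecMul_vecMul, hu, Matrix.neg_vecMul]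

theorem bas_mu0 : mu T a2 a3 y 0 = y - Matrix.vecMul y (T 0) := rfl

theorem bas_mu1 : mu T a2 a3 y 1 = Matrix.vecMul (y - Matrix.vecMul y (T 1)) (T 0) := rfl

theorem bas_mu2 : mu T a2 a3 y 2 =
    Matrix.vecMul (a2 + y - Matrix.vecMul y (T 2)) (T 1 * T 0) := rfl

theorem bas_mu3 : mu T a2 a3 y 3 =
    Matrix.vecMul (a3 + y - Matrix.vecMul y (T 3)) (T 2 * T 1 * T 0) := rfl

theorem mu_sum (h : IsDat A T N a2 a3 y) :
    mu T a2 a3 y 0 + mu T a2 a3 y 1 + mu T a2 a3 y 2 + mu T a2 a3 y 3 = 0 := by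
  have h1 := congrArg (fun v => Matrix.vecMul v (T 3 * T 2 * T 1 * T 0)) h.rel
  simp only [Matrix.add_vecMul, Matrix.vecMul_vecMul] at h1
  have e1 : T 3 * (T 3 * T 2 * T 1 * T 0) = T 2 * (T 1 * T 0) := by
    rw [← mul_assoc, ← mul_assoc, ← mul_assoc, h.sq 3, one_mul, mul_assoc]
  have e2 : T 3 * T 2 * T 1 * T 0 = T 3 * (T 2 * T 1 * T 0) := by
    simp only [mul_assoc]
  have e3 : (A - 1) * (T 3 * T 2 * T 1 * T 0) = 1 - T 3 * T 2 * T 1 * T 0 := by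
    rw [sub_mul, one_mul, ← h.prod, (prod_inv T h.sq).1]
  rw [e1, e3, ← Matrix.vecMul_vecMul a2, h.anti2, Matrix.neg_vecMul, Matrix.vecMul_sub,
    Matrix.vecMul_one] at h1
  have e4 : Matrix.vecMul a3 (T 3 * T 2 * T 1 * T 0) =
      -Matrix.vecMul a3 (T 2 * T 1 * T 0) := by
    rw [e2, ← Matrix.vecMul_vecMul, h.anti3, Matrix.neg_vecMul]
  rw [e4, e2] at h1
  rw [bas_mu0, bas_mu1, bas_mu2, bas_mu3]
  simp only [Matrix.add_vecMul, Matrix.sub_vecMul, Matrix.vecMul_vecMul]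
  have e5 : T 2 * (T 1 * T 0) = T 2 * T 1 * T 0 := (mul_assoc _ _ _).symm
  rw [e5]
  have h2 : Matrix.vecMul a2 (T 1 * T 0) + Matrix.vecMul a3 (T 2 * T 1 * T 0) + y -
      Matrix.vecMul y (T 3 * (T 2 * T 1 * T 0)) = 0 := by
    have h3 : y - Matrix.vecMul y (T 3 * (T 2 * T 1 * T 0)) =
        -(Matrix.vecMul a2 (T 1 * T 0)) + -(Matrix.vecMul a3 (T 2 * T 1 * T 0)) := h1.symm
    rw [add_sub_assoc, h3]
    abel
  rw [← h2]
  abel

theorem mu_zero_one (h : IsDat A T N a2 a3 y) :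
    mu T a2 a3 y 0 + mu T a2 a3 y 1 = y - Matrix.vecMul y (T 1 * T 0) := by
  rw [bas_mu0, bas_mu1]
  simp only [Matrix.sub_vecMul, Matrix.vecMul_vecMul]
  abel

theorem act_pj_mu (h : IsDat A T N a2 a3 y) (k : Fin 4) :
    act (RR T k) (RR T k) (pj (mu T a2 a3 y k)) = -pj (mu T a2 a3 y k) := by
  rw [act_pj _ _ (RR_sq T h.sq k), mu_RR h, pj_neg]

end Pool.Agent.MOB
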