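import Pool.Agent.MOB.Bra

/-!
# MOB/Bdm: brackets with quadratic tuples, bound on monomials

`tens p v = p ⊗ v`. Let `lam` be a linear functional on `V n` with
`|lam (x^m e_i)| ≤ M` for all monomials of degree `e + 1`. Then for `c : QC n` and a monomial `x^m` of
degree `e`: `|lam (br (qd c) (x^m e_i))| ≤ (e + 2) n^2 ‖c‖ M`.

Proof. `qd c = ∑_{i'} ∑_{q : Fin 2 → Fin n} c (snoc q i') x_{q 0} x_{q 1} e_{i'}`.
`br (qd c) (x^m e_i) = D(qd c)(x^m e_i) - D(x^m e_i)(qd c)`. First term: `∑_{i'} ∑_q c(..)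
∂_i (x_{q 0} x_{q 1}) x^m e_{i'}`, `∂_i (x_{q 0} x_{q 1}) = [q 0 = i] x_{q 1} + [q 1 = i] x_{q 0}`:
at most `2 n^2` monomials, each with coefficient `≤ ‖c‖`. Second term:
`∑_{j'} m_{j'} x^{m - e_{j'}} (qd c)_{j'} e_i`, total `≤ (∑ m_{j'}) n^2 ‖c‖ M = e n^2 ‖c‖ M`.
`br_pj_tens`: `D(l x)(φ u) = l(u) φ x + l φ u`, `D(φ u)(l x) = e l φ u` (Euler, `φ` a monomial of
degree `e`), so `br (pj l) (φ u) = l(u) φ x - (e - 1) l φ u`.
-/

namespace Pool.Agent.MOB

open MvPowerSeries Pool.Agent.RevMaps Pool.Agent.INV5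

variable {n : ℕ}

private theorem bdm_pd (j : Fin n) (m : Fin n →₀ ℕ) :
    pderiv ℂ j (monomial m (1 : ℂ) : PS n) =
      (m j : ℂ) • (monomial (m - Finsupp.single j 1) (1 : ℂ) : PS n) := by
  classical
  ext d
  rw [coeff_pderiv, coeff_smul, coeff_monomial, coeff_monomial]
  by_cases hm : m j = 0
  · have h1 : d + Finsupp.single j 1 ≠ m := by
      intro h
      have := DFunLike.congr_fun h j
      simp [hm] at this
    rw [if_neg h1, hm]
    simp
  · by_cases hd : d = m - Finsupp.single j 1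
    · have h2 : d + Finsupp.single j 1 = m := by
        rw [hd]
        apply tsub_add_cancel_of_le
        rw [Finsupp.single_le_iff]
        omega
      rw [if_pos h2, if_pos hd]
      have h3 : d j + 1 = m j := by
        have := DFunLike.congr_fun h2 j
        simpa using this
      rw [one_mul, mul_one, ← h3]
      push_cast
      ring
    · have h2 : d + Finsupp.single j 1 ≠ m := by
        intro h
        apply hd
        rw [← h, add_tsub_cancel_right]
      rw [if_neg h2, if_neg hd]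
      simp

private theorem bdm_pd_X (j : Fin n) (m : Fin n →₀ ℕ) :
    pderiv ℂ j (monomial m (1 : ℂ) : PS n) * X j = (m j : ℂ) • (monomial m (1 : ℂ) : PS n) := by
  rw [bdm_pd]
  by_cases hm : m j = 0
  · rw [hm]
    simp
  · rw [smul_mul_assoc]
    congr 1
    have h1 : (X j : PS n) = monomial (Finsupp.single j 1) (1 : ℂ) := rfl
    rw [h1, monomial_mul_monomial, one_mul, tsub_add_cancel_of_le]
    rw [Finsupp.single_le_iff]
    omega

private theorem bdm_euler (l : Fin n → ℂ) (m : Fin n →₀ ℕ) :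
    Dd (pj l) (monomial m (1 : ℂ) : PS n) = (m.degree : ℂ) • (ell l * monomial m (1 : ℂ)) := by
  have h1 : Dd (pj l) (monomial m (1 : ℂ) : PS n) =
      ∑ j, (m j : ℂ) • (ell l * monomial m (1 : ℂ) : PS n) := by
    unfold Dd
    refine Finset.sum_congr rfl (fun j _ => ?_)
    have h2 : pderiv ℂ j (monomial m (1 : ℂ) : PS n) * pj l j =
        ell l * (pderiv ℂ j (monomial m (1 : ℂ) : PS n) * X j) := by
      show _ * (ell l * X j) = _
      ring
    rw [h2, bdm_pd_X, mul_smul_comm]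
  rw [h1, ← Finset.sum_smul, Finsupp.degree_eq_sum]
  push_cast
  rfl

private theorem bdm_Dd_ell (q : V n) (l : Fin n → ℂ) : Dd q (ell l) = ∑ j, l j • q j := by
  unfold ell
  rw [Dd_sum]
  exact Finset.sum_congr rfl (fun j _ => by rw [Dd_smul, Dd_X])

theorem br_pj_tens (l u : Fin n → ℂ) (m : Fin n →₀ ℕ) :
    br (pj l) (tens (monomial m (1 : ℂ)) u) =
      (∑ i, l i * u i) • (fun i => (monomial m (1 : ℂ) : PS n) * X i) -
        ((m.degree : ℂ) - 1) • tens (ell l * monomial m (1 : ℂ)) u := by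
  funext i
  have h1 : br (pj l) (tens (monomial m (1 : ℂ)) u) i =
      Dd (tens (monomial m (1 : ℂ)) u) (ell l * X i) -
        Dd (pj l) (u i • (monomial m (1 : ℂ) : PS n)) := rfl
  have h2 : (∑ j, l j • tens (monomial m (1 : ℂ) : PS n) u j) =
      (∑ j, l j * u j) • (monomial m (1 : ℂ) : PS n) := by
    rw [Finset.sum_smul]
    exact Finset.sum_congr rfl (fun j _ => smul_smul _ _ _)
  rw [h1, Dd_mul, Dd_X, bdm_Dd_ell, h2, Dd_smul, bdm_euler]
  show ell l * (u i • (monomial m (1 : ℂ) : PS n)) +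
      X i * ((∑ j, l j * u j) • (monomial m (1 : ℂ) : PS n)) -
      u i • (m.degree : ℂ) • (ell l * (monomial m (1 : ℂ) : PS n)) =
    (∑ j, l j * u j) • ((monomial m (1 : ℂ) : PS n) * X i) -
      ((m.degree : ℂ) - 1) • (u i • (ell l * (monomial m (1 : ℂ) : PS n)))
  rw [mul_smul_comm, mul_smul_comm, mul_comm (X i) (monomial m (1 : ℂ) : PS n), smul_smul,
    smul_smul, sub_mul, one_mul, sub_smul, mul_comm (u i) (m.degree : ℂ)]
  abel

private theorem bdm_qd (c : QC n) : qd c = ∑ j : Fin n, ∑ q : Fin 2 → Fin n,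
    c (Fin.snoc (α := fun _ => Fin n) q j) •
      tens ((X (q 0) : PS n) * X (q 1)) (Pi.single j 1) := by
  classical
  funext i
  have h1 : qd c i = ∑ q : Fin 2 → Fin n, c (Fin.snoc (α := fun _ => Fin n) q i) •
      ((X (q 0) : PS n) * X (q 1)) := by
    show (∑ q : Fin 2 → Fin n, c (Fin.snoc (α := fun _ => Fin n) q i) •
      ∏ m, (X (q m) : PS n)) = _
    exact Finset.sum_congr rfl (fun q _ => by rw [Fin.prod_univ_two])
  have h2 : (∑ j : Fin n, ∑ q : Fin 2 → Fin n, c (Fin.snoc (α := fun _ => Fin n) q j) •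
      tens ((X (q 0) : PS n) * X (q 1)) (Pi.single j 1)) i =
      ∑ j : Fin n, ∑ q : Fin 2 → Fin n, c (Fin.snoc (α := fun _ => Fin n) q j) •
        ((Pi.single j (1 : ℂ) : Fin n → ℂ) i • ((X (q 0) : PS n) * X (q 1))) := by
    rw [Finset.sum_apply]
    refine Finset.sum_congr rfl (fun j _ => ?_)
    rw [Finset.sum_apply]
    rfl
  rw [h1, h2, Finset.sum_eq_single i]
  · refine Finset.sum_congr rfl (fun q _ => ?_)
    rw [Pi.single_eq_same, one_smul]
  · intro j _ hj
    refine Finset.sum_eq_zero (fun q _ => ?_)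
    rw [Pi.single_eq_of_ne (Ne.symm hj), zero_smul, smul_zero]
  · intro h
    exact absurd (Finset.mem_univ i) h

private theorem bdm_Dd_tens (p ψ : PS n) (i : Fin n) :
    Dd (tens ψ (Pi.single i 1)) p = pderiv ℂ i p * ψ := by
  classical
  unfold Dd
  rw [Finset.sum_eq_single i]
  · show _ * ((Pi.single i (1 : ℂ) : Fin n → ℂ) i • ψ) = _
    rw [Pi.single_eq_same, one_smul]
  · intro j _ hj
    show _ * ((Pi.single i (1 : ℂ) : Fin n → ℂ) j • ψ) = 0
    rw [Pi.single_eq_of_ne hj, zero_smul, mul_zero]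
  · intro h
    exact absurd (Finset.mem_univ i) h

private theorem bdm_br_tens (ψ φ : PS n) (i j : Fin n) :
    br (tens ψ (Pi.single j 1)) (tens φ (Pi.single i 1)) =
      tens (pderiv ℂ i ψ * φ) (Pi.single j 1) - tens (pderiv ℂ j φ * ψ) (Pi.single i 1) := by
  funext k
  show Dd (tens φ (Pi.single i 1)) ((Pi.single j (1 : ℂ) : Fin n → ℂ) k • ψ) -
    Dd (tens ψ (Pi.single j 1)) ((Pi.single i (1 : ℂ) : Fin n → ℂ) k • φ) =
    (Pi.single j (1 : ℂ) : Fin n → ℂ) k • (pderiv ℂ i ψ * φ) -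
      (Pi.single i (1 : ℂ) : Fin n → ℂ) k • (pderiv ℂ j φ * ψ)
  rw [Dd_smul, Dd_smul, bdm_Dd_tens, bdm_Dd_tens]

private theorem bdm_pd_XX (i a b : Fin n) :
    pderiv ℂ i ((X a : PS n) * X b) =
      (if a = i then (1 : ℂ) else 0) • (X b : PS n) + (if b = i then (1 : ℂ) else 0) • X a := by
  classical
  have h1 : ∀ a : Fin n, pderiv ℂ i (X a : PS n) = if a = i then 1 else 0 := by
    intro a
    by_cases h : a = i
    · rw [if_pos h, h, pderiv_X_self]
    · rw [if_neg h, pderiv_X_of_ne h]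
  rw [Derivation.leibniz, h1, h1, smul_eq_mul, smul_eq_mul]
  by_cases ha : a = i <;> by_cases hb : b = i <;> simp [ha, hb, add_comm]

private theorem bdm_term {e : ℕ} (lam : V n →ₗ[ℂ] ℂ) (M : ℝ) (hM0 : 0 ≤ M)
    (hM : ∀ m : Fin n →₀ ℕ, m.degree = e + 1 → ∀ i,
      ‖lam (tens (monomial m (1 : ℂ)) (Pi.single i 1))‖ ≤ M)
    (m : Fin n →₀ ℕ) (hm : m.degree = e) (i j a b : Fin n) :
    ‖lam (br (tens ((X a : PS n) * X b) (Pi.single j 1))
      (tens (monomial m (1 : ℂ)) (Pi.single i 1)))‖ ≤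
      (((if a = i then (1 : ℝ) else 0) + (if b = i then (1 : ℝ) else 0)) + (m j : ℝ)) * M := by
  classical
  have hX : ∀ a : Fin n, (X a : PS n) = monomial (Finsupp.single a 1) (1 : ℂ) := fun _ => rfl
  have hb1 : ∀ a j : Fin n, ‖lam (tens ((X a : PS n) * monomial m (1 : ℂ)) (Pi.single j 1))‖ ≤
      M := by
    intro a j
    rw [hX, monomial_mul_monomial, one_mul]
    apply hM
    rw [map_add, Finsupp.degree_single, hm, add_comm]
  have hb2 : ‖lam (tens (pderiv ℂ j (monomial m (1 : ℂ) : PS n) * ((X a : PS n) * X b))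
      (Pi.single i 1))‖ ≤ (m j : ℝ) * M := by
    rw [bdm_pd, smul_mul_assoc, tens_smul, map_smul, norm_smul, Complex.norm_natCast]
    by_cases h0 : m j = 0
    · rw [h0]
      simp
    · apply mul_le_mul_of_nonneg_left _ (Nat.cast_nonneg _)
      rw [hX, hX, monomial_mul_monomial, monomial_mul_monomial, one_mul, one_mul]
      apply hM
      have h1 : m - Finsupp.single j 1 + Finsupp.single j 1 = m := by
        apply tsub_add_cancel_of_le
        rw [Finsupp.single_le_iff]
        omega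
      have h2 : (m - Finsupp.single j 1).degree + 1 = e := by
        rw [← hm]
        conv_rhs => rw [← h1]
        rw [map_add, Finsupp.degree_single]
      rw [map_add, map_add, Finsupp.degree_single, Finsupp.degree_single]
      omega
  have hb3 : ‖lam (tens (pderiv ℂ i ((X a : PS n) * X b) * (monomial m (1 : ℂ) : PS n))
      (Pi.single j 1))‖ ≤
      ((if a = i then (1 : ℝ) else 0) + (if b = i then (1 : ℝ) else 0)) * M := by
    rw [bdm_pd_XX, add_mul, tens_add, map_add, add_mul]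
    refine (norm_add_le _ _).trans (add_le_add ?_ ?_)
    · rw [smul_mul_assoc, tens_smul, map_smul, norm_smul]
      by_cases h : a = i
      · rw [if_pos h, if_pos h, norm_one, one_mul, one_mul]
        exact hb1 b j
      · rw [if_neg h, if_neg h, norm_zero, zero_mul, zero_mul]
    · rw [smul_mul_assoc, tens_smul, map_smul, norm_smul]
      by_cases h : b = i
      · rw [if_pos h, if_pos h, norm_one, one_mul, one_mul]
        exact hb1 a j
      · rw [if_neg h, if_neg h, norm_zero, zero_mul, zero_mul]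
  rw [bdm_br_tens, map_sub, add_mul]
  exact (norm_sub_le _ _).trans (add_le_add hb3 hb2)

theorem br_qd_bound {e : ℕ} (lam : V n →ₗ[ℂ] ℂ) (M : ℝ) (hM0 : 0 ≤ M)
    (hM : ∀ m : Fin n →₀ ℕ, m.degree = e + 1 → ∀ i,
      ‖lam (tens (monomial m (1 : ℂ)) (Pi.single i 1))‖ ≤ M)
    (c : QC n) (m : Fin n →₀ ℕ) (hm : m.degree = e) (i : Fin n) :
    ‖lam (br (qd c) (tens (monomial m (1 : ℂ)) (Pi.single i 1)))‖ ≤
      ((e : ℝ) + 2) * (n : ℝ) ^ 2 * ‖c‖ * M := by
  classical
  set T : V n := tens (monomial m (1 : ℂ)) (Pi.single i 1) with hT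
  -- the bracket as a linear map
  let F : V n →ₗ[ℂ] ℂ :=
    { toFun := fun k => lam (br k T)
      map_add' := fun a b => by rw [br_add_left, map_add]
      map_smul' := fun r a => by rw [br_smul_left, map_smul, RingHom.id_apply] }
  have hF : lam (br (qd c) T) = ∑ j : Fin n, ∑ q : Fin 2 → Fin n,
      c (Fin.snoc (α := fun _ => Fin n) q j) *
        lam (br (tens ((X (q 0) : PS n) * X (q 1)) (Pi.single j 1)) T) := by
    have h1 : lam (br (qd c) T) = F (qd c) := rfl
    rw [h1, bdm_qd, map_sum]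
    refine Finset.sum_congr rfl (fun j _ => ?_)
    rw [map_sum]
    refine Finset.sum_congr rfl (fun q _ => ?_)
    rw [map_smul]
    rfl
  have hc0 : 0 ≤ ‖c‖ := norm_nonneg c
  have hterm : ∀ (j : Fin n) (q : Fin 2 → Fin n),
      ‖c (Fin.snoc (α := fun _ => Fin n) q j) *
        lam (br (tens ((X (q 0) : PS n) * X (q 1)) (Pi.single j 1)) T)‖ ≤
      ‖c‖ * ((((if q 0 = i then (1 : ℝ) else 0) + (if q 1 = i then (1 : ℝ) else 0)) +
        (m j : ℝ)) * M) := by
    intro j q
    rw [norm_mul]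
    exact mul_le_mul (norm_le_pi_norm c _) (bdm_term lam M hM0 hM m hm i j (q 0) (q 1))
      (norm_nonneg _) hc0
  have hsum : ∀ j : Fin n, (∑ q : Fin 2 → Fin n,
      (((if q 0 = i then (1 : ℝ) else 0) + (if q 1 = i then (1 : ℝ) else 0)) + (m j : ℝ))) =
      2 * (n : ℝ) + (n : ℝ) ^ 2 * (m j : ℝ) := by
    intro j
    rw [← (finTwoArrowEquiv (Fin n)).symm.sum_comp
      (fun q : Fin 2 → Fin n => (((if q 0 = i then (1 : ℝ) else 0) +
        (if q 1 = i then (1 : ℝ) else 0)) + (m j : ℝ)))]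
    rw [Fintype.sum_prod_type]
    have h1 : ∀ x y : Fin n, ((finTwoArrowEquiv (Fin n)).symm (x, y)) 0 = x := fun _ _ => rfl
    have h2 : ∀ x y : Fin n, ((finTwoArrowEquiv (Fin n)).symm (x, y)) 1 = y := fun _ _ => rfl
    simp only [h1, h2, Finset.sum_add_distrib, Finset.sum_ite_eq', Finset.mem_univ, if_true,
      Finset.sum_const, Finset.card_univ, Fintype.card_fin, nsmul_eq_mul, mul_one]
    rw [← Finset.mul_sum, Finset.sum_ite_eq']
    simp only [Finset.mem_univ, if_true]
    ring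
  rw [hF]
  calc ‖∑ j : Fin n, ∑ q : Fin 2 → Fin n, c (Fin.snoc (α := fun _ => Fin n) q j) *
        lam (br (tens ((X (q 0) : PS n) * X (q 1)) (Pi.single j 1)) T)‖
      ≤ ∑ j : Fin n, ∑ q : Fin 2 → Fin n, ‖c‖ *
        ((((if q 0 = i then (1 : ℝ) else 0) + (if q 1 = i then (1 : ℝ) else 0)) +
          (m j : ℝ)) * M) := by
        refine norm_sum_le_of_le _ (fun j _ => ?_)
        exact norm_sum_le_of_le _ (fun q _ => hterm j q)
    _ = ∑ j : Fin n, ‖c‖ * M * (2 * (n : ℝ) + (n : ℝ) ^ 2 * (m j : ℝ)) := by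
        refine Finset.sum_congr rfl (fun j _ => ?_)
        rw [← hsum j, Finset.mul_sum]
        exact Finset.sum_congr rfl (fun q _ => by ring)
    _ = ‖c‖ * M * (2 * (n : ℝ) * n + (n : ℝ) ^ 2 * (e : ℝ)) := by
        rw [← Finset.mul_sum, Finset.sum_add_distrib, ← Finset.mul_sum, ← Finset.mul_sum]
        have h3 : (∑ j : Fin n, (m j : ℝ)) = (e : ℝ) := by
          rw [← hm, Finsupp.degree_eq_sum]
          push_cast
          rfl
        rw [h3]
        simp only [Finset.sum_const, Finset.card_univ, Fintype.card_fin, nsmul_eq_mul]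
        ring
    _ = ((e : ℝ) + 2) * (n : ℝ) ^ 2 * ‖c‖ * M := by ring

end Pool.Agent.MOB
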