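import Pool.Agent.MOB.Defs

/-!
# MOB/Bra: brackets and the action of matrices

`br k q i = Dd q (k i) - Dd k (q i)`, `Dd a p = ∑ j, ∂_j p * a j`, `act S S' a = S (a ∘ S')`,
`pj m = m(x) x`, `qd c` quadratic tuple with coefficients `c` (`INV5.pw n 2`).

Proofs. `br_comm` by definition; `br_add_right` etc. from `br_sub_right`, `br_smul_right`.
`act_br`: by `INV5.Dd_subst` (chain rule) applied to `f = linMap S'`:
`Dd (act q) (k_j ∘ S') = ∑_l (∂_l k_j ∘ S') * Dd (act q) (S'_l)`, and
`Dd b (S'_l) = ∑_i S'_{l i} b_i`, which for `b = act S S' q` is `q_l ∘ S'` since `S' S = 1`.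
`act_pj`: `S (m(S' x) S' x) = (m S')(x) x` (use `act_tens`/direct: `subst_mulC`, `subst_X_linMap`).
`br_pj_pj`: `Dd (pj m') (m(x) x_i) = 2 m(x) m'(x) x_i`, symmetric in `m, m'`.
`act_qd` is `INV5.pw_act`; `act_neg_qd`: `act (-1) (-1)` is `- q(-x)`, quadratic: sign `-1`
(from `act_qd`, `gw (-1) = -1`, or directly on monomials); `act_neg_pj` from `act_pj`.
-/

namespace Pool.Agent.MOB

open MvPowerSeries Pool.Agent.RevMaps Pool.Agent.INV5

variable {n : ℕ}

theorem br_comm (k q : V n) : br k q = -br q k := by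
  funext i
  simp only [br, Pi.neg_apply]
  ring

theorem br_add_right (k q q' : V n) : br k (q + q') = br k q + br k q' := by
  funext i
  simp only [br, Pi.add_apply, Dd_add, Dd_add_left]
  ring

theorem br_zero_right (k : V n) : br k 0 = 0 := by
  rw [br_comm, br_zero_left, neg_zero]

theorem br_neg_left (k q : V n) : br (-k) q = -br k q := by
  have h := br_smul_left (-1) k q
  rw [neg_one_smul, neg_one_smul] at h
  exact h

theorem br_neg_right (k q : V n) : br k (-q) = -br k q := by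
  have h := br_smul_right (-1) k q
  rw [neg_one_smul, neg_one_smul] at h
  exact h

private theorem bra_Dd_lin (M : Mat n) (a : V n) (i : Fin n) :
    Dd a ((linMap M).toFun i) = mv M a i := by
  rw [linMap_toFun]
  simp only [mv, Dd_sum, Dd_smul, Dd_X]

private theorem bra_chain (S S' : Mat n) (h : S * S' = 1) (q : V n) (p : PS n) :
    Dd (act S S' q) (p.subst (linMap S').toFun) = (Dd q p).subst (linMap S').toFun := by
  have h' : S' * S = 1 := mul_eq_one_comm.1 h
  have h1 : mv S' (act S S' q) = sb (linMap S') q := by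
    unfold act
    rw [mv_mv, h', mv_one]
  rw [Dd_subst]
  unfold Dd
  rw [subst_sumC]
  refine Finset.sum_congr rfl (fun l _ => ?_)
  rw [subst_mulC]
  congr 1
  have h2 := bra_Dd_lin S' (act S S' q) l
  rw [h1] at h2
  exact h2

private theorem bra_act_DD (S S' : Mat n) (h : S * S' = 1) (a b : V n) :
    act S S' (fun i => Dd b (a i)) = fun i => Dd (act S S' b) (act S S' a i) := by
  funext i
  have h1 : act S S' a i = ∑ j, S i j • (a j).subst (linMap S').toFun := rfl
  have h2 : act S S' (fun i => Dd b (a i)) i =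
      ∑ j, S i j • (Dd b (a j)).subst (linMap S').toFun := rfl
  rw [h1, h2, Dd_sum]
  refine Finset.sum_congr rfl (fun j _ => ?_)
  rw [Dd_smul, bra_chain S S' h]

theorem act_br (S S' : Mat n) (h : S * S' = 1) (k q : V n) :
    act S S' (br k q) = br (act S S' k) (act S S' q) := by
  have h1 : br k q = (fun i => Dd q (k i)) - (fun i => Dd k (q i)) := rfl
  have h2 : br (act S S' k) (act S S' q) = (fun i => Dd (act S S' q) (act S S' k i)) -
      (fun i => Dd (act S S' k) (act S S' q i)) := rfl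
  rw [h1, h2, act_sub, bra_act_DD S S' h, bra_act_DD S S' h]

theorem act_neg (S S' : Mat n) (a : V n) : act S S' (-a) = -act S S' a := by
  have h := act_smul S S' (-1) a
  rw [neg_one_smul, neg_one_smul] at h
  exact h

theorem pj_add (m m' : Fin n → ℂ) : pj (m + m') = pj m + pj m' := by
  funext i
  simp only [pj, Pi.add_apply, ell_add, add_mul]

theorem pj_smul (c : ℂ) (m : Fin n → ℂ) : pj (c • m) = c • pj m := by
  funext i
  simp only [pj, Pi.smul_apply, ell_smul, smul_mul_assoc]

theorem pj_neg (m : Fin n → ℂ) : pj (-m) = -pj m := by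
  have h := pj_smul (-1) m
  rw [neg_one_smul, neg_one_smul] at h
  exact h

theorem pj_sub (m m' : Fin n → ℂ) : pj (m - m') = pj m - pj m' := by
  rw [sub_eq_add_neg, pj_add, pj_neg, ← sub_eq_add_neg]

theorem pj_zero : pj (0 : Fin n → ℂ) = 0 := by
  have h := pj_smul 0 (0 : Fin n → ℂ)
  rw [zero_smul, zero_smul] at h
  exact h

theorem OV_pj (m : Fin n → ℂ) : OV 2 (pj m) := fun i => (O_ell m).mul (O_X i)

theorem OV_qd (c : QC n) : OV 2 (qd c) := pw_OV n 2 c

private theorem bra_ell_subst (m : Fin n → ℂ) (S' : Mat n) :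
    (ell m).subst (linMap S').toFun = ell (Matrix.vecMul m S') := by
  unfold ell
  rw [subst_sumC]
  have h1 : ∀ k, (m k • (X k : PS n)).subst (linMap S').toFun =
      ∑ j, (m k * S' k j) • (X j : PS n) := by
    intro k
    rw [subst_smulC, subst_X_linMap]
    unfold ell
    rw [Finset.smul_sum]
    exact Finset.sum_congr rfl (fun j _ => smul_smul _ _ _)
  rw [Finset.sum_congr rfl (fun k _ => h1 k), Finset.sum_comm]
  refine Finset.sum_congr rfl (fun j _ => ?_)
  rw [← Finset.sum_smul]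
  rfl

theorem act_pj (S S' : Mat n) (h : S * S' = 1) (m : Fin n → ℂ) :
    act S S' (pj m) = pj (Matrix.vecMul m S') := by
  funext i
  have h1 : act S S' (pj m) i = ∑ j, S i j • (ell m * X j : PS n).subst (linMap S').toFun := rfl
  have h2 : mv S (linMap S').toFun = fun i => (X i : PS n) := by
    rw [linMap_toFun, mv_mv, h, mv_one]
  have h3 := congrFun h2 i
  rw [h1]
  unfold pj
  rw [← h3]
  unfold mv
  rw [Finset.mul_sum]
  refine Finset.sum_congr rfl (fun j _ => ?_)
  rw [subst_mulC, bra_ell_subst, mul_smul_comm, subst_X (linMap S').hasSubst]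

private theorem bra_Dd_pj (m m' : Fin n → ℂ) : Dd (pj m') (ell m) = ell m' * ell m := by
  have h : Dd (pj m') (ell m) = ∑ j, m j • Dd (pj m') (X j : PS n) := by
    unfold ell
    rw [Dd_sum]
    exact Finset.sum_congr rfl (fun j _ => Dd_smul _ _ _)
  rw [h]
  have h2 : ell m' * ell m = ∑ j, m j • (ell m' * (X j : PS n)) := by
    conv_lhs => rw [show ell m = ∑ j, m j • (X j : PS n) from rfl]
    rw [Finset.mul_sum]
    exact Finset.sum_congr rfl (fun j _ => mul_smul_comm _ _ _)
  rw [h2]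
  refine Finset.sum_congr rfl (fun j _ => ?_)
  rw [Dd_X]
  rfl

theorem br_pj_pj (m m' : Fin n → ℂ) : br (pj m) (pj m') = 0 := by
  funext i
  have h : ∀ m m' : Fin n → ℂ, Dd (pj m') (pj m i) =
      ell m * (ell m' * X i) + X i * (ell m' * ell m) := by
    intro m m'
    have h1 : pj m i = ell m * X i := rfl
    rw [h1, Dd_mul, Dd_X, bra_Dd_pj]
    rfl
  show Dd (pj m') (pj m i) - Dd (pj m) (pj m' i) = 0
  rw [h, h]
  ring

theorem act_qd (S S' : Mat n) (h : S * S' = 1) (c : QC n) :
    act S S' (qd c) = qd (gw S c) := pw_act n 2 S S' h c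

private theorem bra_GW_neg : GW 2 (-1 : Mat n) = -1 := by
  have h0 : ((-1 : Mat n))⁻¹ = -1 := Matrix.inv_eq_right_inv (by simp)
  have h1 : (fun m : Fin 3 => if m = Fin.last 2 then (-1 : Mat n) else ((-1 : Mat n)⁻¹).transpose) =
      fun _ => -1 := by
    funext m
    split_ifs
    · rfl
    · rw [h0]
      simp
  ext p q
  have h2 : GW 2 (-1 : Mat n) p q = ∏ m : Fin 3, (-1 : Mat n) (p m) (q m) := by
    show ∏ m : Fin 3, (fun m : Fin 3 => if m = Fin.last 2 then (-1 : Mat n) else
      ((-1 : Mat n)⁻¹).transpose) m (p m) (q m) = _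
    rw [h1]
  have h3 : (1 : Matrix (Fin 3 → Fin n) (Fin 3 → Fin n) ℂ) p q =
      ∏ m : Fin 3, (1 : Mat n) (p m) (q m) := by
    rw [← Kr_one]
    rfl
  rw [h2, Matrix.neg_apply, h3]
  simp only [Matrix.neg_apply, Fin.prod_univ_three]
  ring

theorem act_neg_qd (c : QC n) : act (-1) (-1) (qd c) = -qd c := by
  rw [act_qd (-1) (-1) (by simp) c, ← map_neg]
  congr 1
  show (GW 2 (-1 : Mat n)).mulVec c = -c
  rw [bra_GW_neg, Matrix.neg_mulVec, Matrix.one_mulVec]

theorem act_neg_pj (m : Fin n → ℂ) : act (-1) (-1) (pj m) = -pj m := by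
  rw [act_pj (-1) (-1) (by simp) m, ← pj_neg, Matrix.vecMul_neg, Matrix.vecMul_one]

/-- `pj m` is a quadratic tuple -/
theorem exists_qd_pj (m : Fin n → ℂ) : ∃ c : QC n, qd c = pj m := by
  classical
  refine ⟨fun p => if p 1 = p 2 then m (p 0) else 0, ?_⟩
  funext i
  show (∑ q : Fin 2 → Fin n, (if (Fin.snoc (α := fun _ => Fin n) q i : Fin 3 → Fin n) 1 =
    (Fin.snoc (α := fun _ => Fin n) q i : Fin 3 → Fin n) 2 then
      m ((Fin.snoc (α := fun _ => Fin n) q i : Fin 3 → Fin n) 0) else 0) •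
    ∏ m, (X (q m) : PS n)) = ell m * X i
  have h1 : ∀ q : Fin 2 → Fin n, (if (Fin.snoc (α := fun _ => Fin n) q i : Fin 3 → Fin n) 1 =
    (Fin.snoc (α := fun _ => Fin n) q i : Fin 3 → Fin n) 2 then
      m ((Fin.snoc (α := fun _ => Fin n) q i : Fin 3 → Fin n) 0) else 0) •
    ∏ m, (X (q m) : PS n) = (if q 1 = i then m (q 0) else 0) • (X (q 0) * X (q 1) : PS n) := by
    intro q
    rw [Fin.prod_univ_two]
    rfl
  rw [Finset.sum_congr rfl (fun q _ => h1 q)]
  rw [← (finTwoArrowEquiv (Fin n)).symm.sum_comp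
    (fun q : Fin 2 → Fin n => (if q 1 = i then m (q 0) else 0) • (X (q 0) * X (q 1) : PS n))]
  rw [Fintype.sum_prod_type]
  unfold ell
  rw [Finset.sum_mul]
  refine Finset.sum_congr rfl (fun k _ => ?_)
  rw [Finset.sum_eq_single i]
  · simp [finTwoArrowEquiv]
  · intro j _ hj
    simp [finTwoArrowEquiv, hj]
  · intro h
    exact absurd (Finset.mem_univ i) h

end Pool.Agent.MOB
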