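import Pool.Agent.MOB.Defs

/-!
# MOB/Cho: the eigenvalues

`exists_beta`: the `n`-th roots of `-1`: `β_j = exp (iπ (2 j + 1) / n)`, `σ = Fin.rev`,
`β_j^n = -1`, `β_j β_{rev j} = exp (iπ (2 n) / n) = 1` (`(2 j + 1) + (2 (n - 1 - j) + 1) = 2 n`),
product `exp (iπ n^2 / n) = (-1)^n`. If `n` is odd, compose with a transposition so that the value `-1`
stands at the last index.
`exists_gamma`: `d = 1` or `-1` is the required product. Values: pairs `2^i, 2^(-i)`, `i ≥ 1`,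
together with, if `n` is even: nothing (`d = 1`) or `1, -1` (`d = -1`); if `n` is odd: `1`
(`d = 1`) or `-1` (`d = -1`). Put `-1` at the index `0`. No value `γ_j` with `γ_j^n = -1`, except
`γ_0 = -1` when `n` is odd and `d = -1`. One way: for `n` odd, `γ_j = d 2^(..)`-like vectors are
also fine: any injective choice. (`RevMaps.exists_nu` in `Choice.lean` is similar: `ν` with product
`1` or `-1`, closed under inverse; check if it can be used directly, after moving `-1` to the index `0`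
by a permutation.)
-/

namespace Pool.Agent.MOB

open MvPowerSeries Pool.Agent.RevMaps Pool.Agent.INV5

variable {n : ℕ}

theorem sum_fin_odd (m : ℕ) : ∑ i : Fin m, (2 * (i : ℕ) + 1) = m * m := by
  rw [Fin.sum_univ_eq_sum_range (fun i => 2 * i + 1) m]
  induction m with
  | zero => rfl
  | succ k ih =>
    rw [Finset.sum_range_succ, ih]
    ring

theorem sum_fin_succ (m : ℕ) : 2 * ∑ i : Fin m, ((i : ℕ) + 1) = m * (m + 1) := by
  rw [Fin.sum_univ_eq_sum_range (fun i => i + 1) m]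
  induction m with
  | zero => rfl
  | succ k ih =>
    rw [Finset.sum_range_succ, mul_add, ih]
    ring

theorem exists_beta_even (hn : 2 ≤ n) (he : Even n) : ∃ (β : Fin n → ℂ) (σ : Fin n → Fin n),
    Function.Injective β ∧ (∀ i, β i * β (σ i) = 1) ∧ (∀ i, β i ^ n = -1) ∧
      ∏ i, β i = (-1) ^ n ∧ ∀ i, β i = -1 → ∀ j, j ≤ i := by
  obtain ⟨ζ, hζ⟩ : ∃ ζ : ℂ, IsPrimitiveRoot ζ (2 * n) :=
    ⟨_, Complex.isPrimitiveRoot_exp (2 * n) (by omega)⟩
  have hzn : ζ ^ n = -1 := by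
    have h2 : (ζ ^ n) ^ 2 = 1 := by
      rw [← pow_mul, mul_comm n 2]
      exact hζ.pow_eq_one
    have h1 : ζ ^ n ≠ 1 := hζ.pow_ne_one_of_pos_of_lt (by omega) (by omega)
    have h3 : (ζ ^ n - 1) * (ζ ^ n + 1) = 0 := by
      linear_combination h2
    rcases mul_eq_zero.1 h3 with h | h
    · exact absurd (sub_eq_zero.1 h) h1
    · exact eq_neg_of_add_eq_zero_left h
  refine ⟨fun j => ζ ^ (2 * (j : ℕ) + 1), Fin.rev, ?_, ?_, ?_, ?_, ?_⟩
  · intro i j hij
    have hi := i.isLt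
    have hj := j.isLt
    have := hζ.pow_inj (show 2 * (i : ℕ) + 1 < 2 * n by omega)
      (show 2 * (j : ℕ) + 1 < 2 * n by omega) hij
    apply Fin.ext
    omega
  · intro i
    have hi := i.isLt
    change ζ ^ (2 * (i : ℕ) + 1) * ζ ^ (2 * ((Fin.rev i : Fin n) : ℕ) + 1) = 1
    rw [Fin.val_rev, ← pow_add]
    have : 2 * (i : ℕ) + 1 + (2 * (n - ((i : ℕ) + 1)) + 1) = 2 * n := by omega
    rw [this]
    exact hζ.pow_eq_one
  · intro i
    change (ζ ^ (2 * (i : ℕ) + 1)) ^ n = -1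
    rw [← pow_mul, mul_comm, pow_mul, hzn]
    exact Odd.neg_one_pow ⟨i, rfl⟩
  · change ∏ i : Fin n, ζ ^ (2 * (i : ℕ) + 1) = (-1) ^ n
    rw [Finset.prod_pow_eq_pow_sum, sum_fin_odd, pow_mul, hzn]
  · intro i hi
    exfalso
    have h1 : ζ ^ (2 * (i : ℕ) + 1) = ζ ^ n := by
      rw [hzn]
      exact hi
    have hi' := i.isLt
    have := hζ.pow_inj (show 2 * (i : ℕ) + 1 < 2 * n by omega) (show n < 2 * n by omega) h1
    obtain ⟨k, hk⟩ := he
    omega

theorem exists_beta_odd (hn : 2 ≤ n) (ho : Odd n) : ∃ (β : Fin n → ℂ) (σ : Fin n → Fin n),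
    Function.Injective β ∧ (∀ i, β i * β (σ i) = 1) ∧ (∀ i, β i ^ n = -1) ∧
      ∏ i, β i = (-1) ^ n ∧ ∀ i, β i = -1 → ∀ j, j ≤ i := by
  obtain ⟨ω, hω⟩ : ∃ ω : ℂ, IsPrimitiveRoot ω n :=
    ⟨_, Complex.isPrimitiveRoot_exp n (by omega)⟩
  have hω0 : ω ≠ 0 := hω.ne_zero (by omega)
  refine ⟨fun j => -ω ^ ((j : ℕ) + 1),
    fun j => if h : (j : ℕ) = n - 1 then j else ⟨n - 2 - (j : ℕ), by omega⟩,
    ?_, ?_, ?_, ?_, ?_⟩
  · intro i j hij
    have h1 : ω ^ ((i : ℕ) + 1) = ω ^ ((j : ℕ) + 1) := neg_injective hij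
    rw [pow_succ, pow_succ] at h1
    have h2 := mul_right_cancel₀ hω0 h1
    exact Fin.ext (hω.pow_inj i.isLt j.isLt h2)
  · intro i
    have hi := i.isLt
    by_cases h : (i : ℕ) = n - 1
    · simp only [h, dif_pos]
      have h1 : n - 1 + 1 = n := by omega
      rw [h1, hω.pow_eq_one]
      ring
    · simp only [h, dif_neg, not_false_iff]
      rw [neg_mul_neg, ← pow_add]
      have h1 : (i : ℕ) + 1 + (n - 2 - (i : ℕ) + 1) = n := by omega
      rw [h1]
      exact hω.pow_eq_one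
  · intro i
    change (-ω ^ ((i : ℕ) + 1)) ^ n = -1
    rw [neg_pow, ← pow_mul, mul_comm ((i : ℕ) + 1) n, pow_mul, hω.pow_eq_one, one_pow, mul_one]
    exact ho.neg_one_pow
  · change ∏ i : Fin n, -ω ^ ((i : ℕ) + 1) = (-1) ^ n
    have h1 : ∀ i : Fin n, -ω ^ ((i : ℕ) + 1) = (-1) * ω ^ ((i : ℕ) + 1) := fun i => by ring
    simp only [h1]
    rw [Finset.prod_mul_distrib, Finset.prod_pow_eq_pow_sum, Finset.prod_const,
      Finset.card_univ, Fintype.card_fin]
    obtain ⟨m, hm⟩ := ho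
    have h2 : ∑ i : Fin n, ((i : ℕ) + 1) = n * (m + 1) := by
      have h3 := sum_fin_succ n
      have h4 : n * (n + 1) = 2 * (n * (m + 1)) := by
        rw [hm]
        ring
      omega
    rw [h2, pow_mul, hω.pow_eq_one, one_pow, mul_one]
  · intro i hi j
    have h1 : ω ^ ((i : ℕ) + 1) = 1 := neg_injective hi
    have h2 := Nat.le_of_dvd (Nat.succ_pos _) (hω.dvd_of_pow_eq_one _ h1)
    have hj := j.isLt
    rw [Fin.le_def]
    omega

theorem exists_beta (hn : 2 ≤ n) : ∃ (β : Fin n → ℂ) (σ : Fin n → Fin n),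
    Function.Injective β ∧ (∀ i, β i * β (σ i) = 1) ∧ (∀ i, β i ^ n = -1) ∧
      ∏ i, β i = (-1) ^ n ∧ ∀ i, β i = -1 → ∀ j, j ≤ i := by
  rcases Nat.even_or_odd n with he | ho
  · exact exists_beta_even hn he
  · exact exists_beta_odd hn ho

theorem two_zpow_norm (k : ℤ) : ‖(2 : ℂ) ^ k‖ = (2 : ℝ) ^ k := by
  rw [norm_zpow]
  norm_num

theorem two_zpow_real_inj {a b : ℤ} (h : (2 : ℝ) ^ a = (2 : ℝ) ^ b) : a = b :=
  zpow_right_injective₀ (by norm_num) (by norm_num) h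

theorem two_zpow_inj {a b : ℤ} (h : (2 : ℂ) ^ a = (2 : ℂ) ^ b) : a = b := by
  have h' := congrArg norm h
  rw [two_zpow_norm, two_zpow_norm] at h'
  exact two_zpow_real_inj h'

/-- A power of two whose `m`-th power has norm one is trivial. -/
theorem two_zpow_pow_norm {m : ℕ} (hm : m ≠ 0) {k : ℤ} {c : ℂ} (hc : ‖c‖ = 1)
    (h : ((2 : ℂ) ^ k) ^ m = c) : k = 0 := by
  have h' := congrArg norm h
  rw [norm_pow, two_zpow_norm, hc, ← zpow_natCast, ← zpow_mul] at h'
  have h2 : k * (m : ℤ) = 0 := two_zpow_real_inj (by rw [h', zpow_zero])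
  rcases mul_eq_zero.1 h2 with h3 | h3
  · exact h3
  · exact absurd (by exact_mod_cast h3) hm

theorem two_zpow_ne_of_norm {k : ℤ} (hk : k ≠ 0) {c : ℂ} (hc : ‖c‖ = 1) : (2 : ℂ) ^ k ≠ c := by
  intro h
  apply hk
  have h' := congrArg norm h
  rw [two_zpow_norm, hc] at h'
  exact two_zpow_real_inj (by rw [h', zpow_zero])

theorem cexp_ne_zero {m : ℕ} (hm : Even m) (j : Fin m) : cexp j ≠ 0 := by
  intro h
  unfold cexp at h
  obtain ⟨k, hk⟩ := hm
  omega

theorem mul_rev_two {m : ℕ} (j : Fin m) : (2 : ℂ) ^ cexp j * (2 : ℂ) ^ cexp (Fin.rev j) = 1 := by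
  rw [cexp_rev, ← zpow_add₀ (by norm_num), add_neg_cancel, zpow_zero]

theorem exists_gamma_one (hn : 2 ≤ n) :
    ∃ (γ : Fin n → ℂ) (σ : Fin n → Fin n), Function.Injective γ ∧ (∀ i, γ i * γ (σ i) = 1) ∧
      ∏ i, γ i = 1 ∧ ∀ i, γ i ^ n = -1 → γ i = -1 ∧ (i : ℕ) = 0 := by
  refine ⟨fun j => (2 : ℂ) ^ cexp j, Fin.rev, ?_, ?_, ?_, ?_⟩
  · intro i j hij
    exact cexp_inj (two_zpow_inj hij)
  · intro i
    exact mul_rev_two i
  · exact prod_cexp 2 (by norm_num)
  · intro i hi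
    exfalso
    have hi' : ((2 : ℂ) ^ cexp i) ^ n = -1 := hi
    have h0 := two_zpow_pow_norm (by omega) (by simp) hi'
    rw [h0, zpow_zero, one_pow] at hi'
    norm_num at hi'

theorem exists_gamma_odd {m : ℕ} (hm : Even m) :
    ∃ (γ : Fin (m + 1) → ℂ) (σ : Fin (m + 1) → Fin (m + 1)), Function.Injective γ ∧
      (∀ i, γ i * γ (σ i) = 1) ∧
      ∏ i, γ i = -1 ∧ ∀ i, γ i ^ (m + 1) = -1 → γ i = -1 ∧ (i : ℕ) = 0 := by
  refine ⟨Fin.cons (-1) (fun j : Fin m => (2 : ℂ) ^ cexp j),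
    Fin.cons 0 (fun j : Fin m => (Fin.rev j).succ), ?_, ?_, ?_, ?_⟩
  · rw [Fin.cons_injective_iff]
    refine ⟨?_, fun i j hij => cexp_inj (two_zpow_inj hij)⟩
    rintro ⟨j, hj⟩
    exact two_zpow_ne_of_norm (cexp_ne_zero hm j) (by simp) hj
  · intro i
    refine Fin.cases ?_ (fun j => ?_) i
    · simp
    · simp only [Fin.cons_succ]
      exact mul_rev_two j
  · rw [Fin.prod_univ_succ]
    simp only [Fin.cons_zero, Fin.cons_succ]
    rw [prod_cexp 2 (by norm_num)]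
    norm_num
  · intro i
    refine Fin.cases ?_ (fun j => ?_) i
    · intro _
      simp
    · simp only [Fin.cons_succ]
      intro h
      exact absurd (two_zpow_pow_norm (by omega) (by simp) h) (cexp_ne_zero hm j)

theorem exists_gamma_even {m : ℕ} (hm : Even m) :
    ∃ (γ : Fin (m + 2) → ℂ) (σ : Fin (m + 2) → Fin (m + 2)), Function.Injective γ ∧
      (∀ i, γ i * γ (σ i) = 1) ∧
      ∏ i, γ i = -1 ∧ ∀ i, γ i ^ (m + 2) = -1 → γ i = -1 ∧ (i : ℕ) = 0 := by
  have he : Even (m + 2) := hm.add (by decide)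
  refine ⟨Fin.cons (-1) (Fin.cons 1 (fun j : Fin m => (2 : ℂ) ^ cexp j)),
    Fin.cons 0 (Fin.cons 1 (fun j : Fin m => (Fin.rev j).succ.succ)), ?_, ?_, ?_, ?_⟩
  · rw [Fin.cons_injective_iff, Fin.cons_injective_iff]
    refine ⟨?_, ?_, fun i j hij => cexp_inj (two_zpow_inj hij)⟩
    · rintro ⟨i, hi⟩
      revert hi
      refine Fin.cases ?_ (fun j => ?_) i
      · intro h
        simp only [Fin.cons_zero] at h
        norm_num at h
      · simp only [Fin.cons_succ]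
        exact two_zpow_ne_of_norm (cexp_ne_zero hm j) (by simp)
    · rintro ⟨j, hj⟩
      exact two_zpow_ne_of_norm (cexp_ne_zero hm j) (by simp) hj
  · intro i
    refine Fin.cases ?_ (fun k => ?_) i
    · simp
    · refine Fin.cases ?_ (fun j => ?_) k
      · simp only [Fin.cons_succ, Fin.cons_zero]
        have : (1 : Fin (m + 2)) = Fin.succ 0 := rfl
        rw [this, Fin.cons_succ, Fin.cons_zero]
        norm_num
      · simp only [Fin.cons_succ]
        exact mul_rev_two j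
  · rw [Fin.prod_univ_succ, Fin.prod_univ_succ]
    simp only [Fin.cons_zero, Fin.cons_succ]
    rw [prod_cexp 2 (by norm_num)]
    norm_num
  · intro i
    refine Fin.cases ?_ (fun k => ?_) i
    · intro _
      simp
    · refine Fin.cases ?_ (fun j => ?_) k
      · simp only [Fin.cons_succ, Fin.cons_zero]
        intro h
        rw [one_pow] at h
        norm_num at h
      · simp only [Fin.cons_succ]
        intro h
        exact absurd (two_zpow_pow_norm (by omega) (by simp) h) (cexp_ne_zero hm j)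

theorem exists_gamma (hn : 2 ≤ n) (d : ℂ) (hd : d ^ 2 = 1) :
    ∃ (γ : Fin n → ℂ) (σ : Fin n → Fin n), Function.Injective γ ∧ (∀ i, γ i * γ (σ i) = 1) ∧
      ∏ i, γ i = d ∧ ∀ i, γ i ^ n = -1 → γ i = -1 ∧ (i : ℕ) = 0 := by
  have hd' : (d - 1) * (d + 1) = 0 := by linear_combination hd
  rcases mul_eq_zero.1 hd' with h | h
  · have hd1 : d = 1 := sub_eq_zero.1 h
    subst hd1
    exact exists_gamma_one hn
  · have hd1 : d = -1 := eq_neg_of_add_eq_zero_left h
    subst hd1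
    rcases Nat.even_or_odd n with he | ho
    · obtain ⟨m, rfl⟩ : ∃ m, n = m + 2 := ⟨n - 2, by omega⟩
      refine exists_gamma_even ?_
      obtain ⟨k, hk⟩ := he
      exact ⟨k - 1, by omega⟩
    · obtain ⟨m, rfl⟩ : ∃ m, n = m + 1 := ⟨n - 1, by omega⟩
      refine exists_gamma_odd ?_
      obtain ⟨k, hk⟩ := ho
      exact ⟨k, by omega⟩

end Pool.Agent.MOB
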