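import Pool.Agent.MOB.Ddl

/-!
# MOB/Prd: products of maps tangent to the identity, modulo high order

`oneAdd c h` is the formal map `x + c(x)`; `EqM d f g`: equality modulo order `d`.

Proofs. `(1 + a)(1 + b) = 1 + b + a ∘ (1 + b)` (`oneAdd_mul`), and
`a ∘ (1 + b) = a + Da b + O(2 m + e - 2)` for `a ∈ OV e`, `b ∈ OV m` (`RevMaps.taylor`).
`oneAdd_mul_high`: `Da b ∈ OV (2 e - 1)` and `2 e - 1 ≥ e + 2`. `oneAdd_inv`: from
`(1 + a)(1 - a) ≡ 1` modulo order `e + 2`. `exists_one_add`: `g = f P⁻¹`, where the unit `P` has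
`f ≡ P` modulo order `e`, so `f P⁻¹ ≡ 1`; take `r = nl (f P⁻¹)` (`nl`, `eq_oneAdd_nl` are in
`RevMaps/LiftConj.lean`).
-/

namespace Pool.Agent.MOB

open MvPowerSeries Pool.Agent.RevMaps Pool.Agent.INV5

variable {n : ℕ}

theorem oneAdd_mul_high {e : ℕ} (he : 3 ≤ e) (a b : V n) (ha1 : OV 1 a) (hb1 : OV 1 b)
    (ha : OV e a) (hb : OV e b) (h : OV 1 (a + b)) :
    EqM (e + 2) (oneAdd a ha1 * oneAdd b hb1) (oneAdd (a + b) h) := by
  intro i
  rw [oneAdd_mul]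
  have h1 : O (e + 2) ((a i).subst (oneAdd b hb1).toFun - a i - Dd b (a i)) :=
    taylor (m := e) (by omega) b hb1 hb (ha i) (by omega)
  have h2 : O (e + 2) (Dd b (a i)) := O_Dd (ha i) hb (by omega)
  have h3 := h1.add h2
  have e1 : (oneAdd b hb1).toFun i = X i + b i := rfl
  have e2 : (oneAdd (a + b) h).toFun i = X i + (a i + b i) := rfl
  have e3 : sb (oneAdd b hb1) a i = (a i).subst (oneAdd b hb1).toFun := rfl
  rw [e1, e2, e3]
  convert h3 using 1
  ring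

theorem oneAdd_mul_quad (a b : V n) (ha1 : OV 1 a) (hb1 : OV 1 b) (ha : OV 2 a) (hb : OV 2 b)
    (h : OV 1 (a + b + DD a b)) :
    EqM 4 (oneAdd a ha1 * oneAdd b hb1) (oneAdd (a + b + DD a b) h) := by
  intro i
  rw [oneAdd_mul]
  have h1 : O 4 ((a i).subst (oneAdd b hb1).toFun - a i - Dd b (a i)) :=
    taylor (m := 2) (by omega) b hb1 hb (ha i) (by omega)
  have e1 : (oneAdd b hb1).toFun i = X i + b i := rfl
  have e2 : (oneAdd (a + b + DD a b) h).toFun i = X i + (a i + b i + Dd b (a i)) := rfl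
  have e3 : sb (oneAdd b hb1) a i = (a i).subst (oneAdd b hb1).toFun := rfl
  rw [e1, e2, e3]
  convert h1 using 1
  ring

theorem oneAdd_congr {k : ℕ} {a b : V n} (ha1 : OV 1 a) (hb1 : OV 1 b) (h : OV k (a - b)) :
    EqM k (oneAdd a ha1) (oneAdd b hb1) := by
  intro i
  have e1 : (oneAdd a ha1).toFun i - (oneAdd b hb1).toFun i = (a - b) i := by
    show X i + a i - (X i + b i) = a i - b i
    ring
  rw [e1]
  exact h i

theorem of_oneAdd_congr {k : ℕ} {a b : V n} (ha1 : OV 1 a) (hb1 : OV 1 b)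
    (h : EqM k (oneAdd a ha1) (oneAdd b hb1)) : OV k (a - b) := by
  intro i
  have e1 : (oneAdd a ha1).toFun i - (oneAdd b hb1).toFun i = (a - b) i := by
    show X i + a i - (X i + b i) = a i - b i
    ring
  rw [← e1]
  exact h i

private theorem oneAdd_zeroP (h : OV 1 (0 : V n)) : oneAdd (0 : V n) h = 1 := by
  apply FMap.ext
  intro i
  show X i + (0 : V n) i = X i
  simp

theorem oneAdd_inv {e : ℕ} (he : 3 ≤ e) (u : (FMap n)ˣ) (a : V n) (ha1 : OV 1 a) (ha : OV e a)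
    (hu : (u : FMap n) = oneAdd a ha1) (h : OV 1 (-a)) :
    EqM (e + 2) ((u⁻¹ : (FMap n)ˣ) : FMap n) (oneAdd (-a) h) := by
  have hna : OV e (-a) := fun i => (ha i).neg
  have h0 : OV 1 (a + -a) := by rw [add_neg_cancel]; exact fun i => O_of_zero _
  have h1 := oneAdd_mul_high he a (-a) ha1 h ha hna h0
  have h2 : oneAdd (a + -a) h0 = 1 := by
    have h3 : ∀ (c : V n) (hc : OV 1 c), c = 0 → oneAdd c hc = 1 := by
      rintro c hc rfl
      exact oneAdd_zeroP hc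
    exact h3 _ _ (add_neg_cancel a)
  rw [h2, ← hu] at h1
  have h3 := (EqM.refl (e + 2) ((u⁻¹ : (FMap n)ˣ) : FMap n)).mul h1
  rw [← mul_assoc, u.inv_mul, one_mul, mul_one] at h3
  exact h3.symm

theorem exists_one_add {e : ℕ} (he : 2 ≤ e) (f : FMap n) (P : (FMap n)ˣ)
    (h : EqM e (P : FMap n) f) :
    ∃ (r : V n) (hr1 : OV 1 r), OV e r ∧ f = oneAdd r hr1 * (P : FMap n) := by
  have h1 := h.symm.mul (EqM.refl e ((P⁻¹ : (FMap n)ˣ) : FMap n))
  rw [P.mul_inv] at h1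
  refine ⟨nl (f * ((P⁻¹ : (FMap n)ˣ) : FMap n)), OV_nl_one _, fun i => h1 i, ?_⟩
  rw [← eq_oneAdd_nl, mul_assoc, P.inv_mul, mul_one]

end Pool.Agent.MOB
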