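import Pool.Agent.MOB.Jet
import Pool.Agent.MOB.Prd

/-!
# MOB/Cnj: conjugation by a map with given 2-jet

If `g ≡ (1 + u) S` modulo order `3` and `a ∈ OV e`, `e ≥ 2`, then
`g (1 + a) g⁻¹ ≡ 1 + rho u S S' a` modulo order `e + 2`.

Proof. `S` and `1 + u` are units (`isUnit_iff_det`). Let `h = ((1 + u) S)⁻¹ g`; then `h ≡ 1` modulo
order `3`, so `h = 1 + k`, `k ∈ OV 3`. By `conj_oneAdd` (orders `3`, `e`):
`h (1 + a) h⁻¹ ≡ 1 + a + br k a ≡ 1 + a` modulo order `e + 2` (`br k a ∈ OV (e + 2)`). Exactly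
`S (1 + a) S⁻¹ = 1 + S.a`. By `conj_oneAdd` (orders `2`, `e`):
`(1 + u)(1 + S.a)(1 + u)⁻¹ ≡ 1 + S.a + br u (S.a)` modulo order `e + 2`.
-/

namespace Pool.Agent.MOB

open MvPowerSeries Pool.Agent.RevMaps Pool.Agent.INV5

variable {n : ℕ}

/-- exactly `S (1 + c) = (1 + S.c) S` -/
theorem cnj_mul_oneAdd (S S' : Mat n) (h : S' * S = 1) (c : V n) (hc1 : OV 1 c)
    (h1 : OV 1 (act S S' c)) :
    linMap S * oneAdd c hc1 = oneAdd (act S S' c) h1 * linMap S := by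
  apply FMap.ext
  intro i
  rw [oneAdd_mul, linMap_mul_toFun]
  have e1 : (oneAdd c hc1).toFun = (fun i => X i) + c := rfl
  rw [e1, mv_add, ← linMap_toFun]
  have e2 : sb (linMap S) (act S S' c) = mv S c := by
    rw [act, sb_mv, sb_sb, ← linMap_mul, h, linMap_one, sb_one]
  rw [e2]
  rfl

theorem conj_jet {e : ℕ} (he : 2 ≤ e) (g : (FMap n)ˣ) (u : V n) (hu : OV 2 u) (S S' : Mat n)
    (hS : S * S' = 1) (hg : Jet2 (g : FMap n) u S) (a : V n) (ha1 : OV 1 a) (ha : OV e a)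
    (h1 : OV 1 (rho u S S' a)) :
    EqM (e + 2) ((g : FMap n) * oneAdd a ha1 * ((g⁻¹ : (FMap n)ˣ) : FMap n))
      (oneAdd (rho u S S' a) h1) := by
  have hS' : S' * S = 1 := mul_eq_one_comm.mp hS
  have hu1 : OV 1 u := hu.mono (by omega)
  obtain ⟨U, hU⟩ := isUnit_oneAdd (le_refl 2) u hu1 hu
  let L : (FMap n)ˣ := ⟨linMap S, linMap S', by rw [← linMap_mul, hS, linMap_one],
    by rw [← linMap_mul, hS', linMap_one]⟩
  have hL : (L : FMap n) = linMap S := rfl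
  have hL' : ((L⁻¹ : (FMap n)ˣ) : FMap n) = linMap S' := rfl
  have hP : EqM 3 ((U * L : (FMap n)ˣ) : FMap n) (g : FMap n) := by
    apply EqM.symm
    intro i
    rw [Units.val_mul, hU, hL, oneAdd_mul]
    exact hg i
  obtain ⟨h, hh⟩ : ∃ h : (FMap n)ˣ, h = (U * L)⁻¹ * g := ⟨_, rfl⟩
  have hgh : g = U * L * h := by rw [hh, mul_inv_cancel_left]
  have hh1 : EqM 3 (h : FMap n) 1 := by
    have h2 := (EqM.refl 3 (((U * L)⁻¹ : (FMap n)ˣ) : FMap n)).mul hP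
    rw [Units.inv_mul] at h2
    rw [hh, Units.val_mul]
    exact h2.symm
  have hk : OV 3 (nl (h : FMap n)) := fun i => hh1 i
  have hbr : OV (e + 2) (br (nl (h : FMap n)) a) := OV_br hk ha (by omega)
  have c1 := conj_oneAdd (show 2 ≤ 3 by omega) he h (nl (h : FMap n)) a (OV_nl_one _) ha1 hk ha
    (eq_oneAdd_nl _) (ha1.add (hbr.mono (by omega)))
  have c2 : EqM (e + 2) ((h : FMap n) * oneAdd a ha1 * ((h⁻¹ : (FMap n)ˣ) : FMap n))
      (oneAdd a ha1) := by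
    refine (c1.mono (by omega)).trans ?_
    intro i
    have h3 : (oneAdd (a + br (nl (h : FMap n)) a) (ha1.add (hbr.mono (by omega)))).toFun i -
        (oneAdd a ha1).toFun i = br (nl (h : FMap n)) a i := by
      show (X i + (a i + br (nl (h : FMap n)) a i)) - (X i + a i) = _
      ring
    rw [h3]
    exact hbr i
  have hA1 : OV 1 (act S S' a) := ha1.act S S'
  have c3 : (L : FMap n) * oneAdd a ha1 * ((L⁻¹ : (FMap n)ˣ) : FMap n) =
      oneAdd (act S S' a) hA1 := by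
    rw [hL, hL', cnj_mul_oneAdd S S' hS' a ha1 hA1, mul_assoc, ← linMap_mul, hS, linMap_one,
      mul_one]
  have c4 := conj_oneAdd (le_refl 2) he U u (act S S' a) hu1 hA1 hu (ha.act S S') hU h1
  have e0 : (g : FMap n) * oneAdd a ha1 * ((g⁻¹ : (FMap n)ˣ) : FMap n) =
      (U : FMap n) * ((L : FMap n) * ((h : FMap n) * oneAdd a ha1 *
        ((h⁻¹ : (FMap n)ˣ) : FMap n)) * ((L⁻¹ : (FMap n)ˣ) : FMap n)) *
        ((U⁻¹ : (FMap n)ˣ) : FMap n) := by
    rw [hgh, mul_inv_rev, mul_inv_rev]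
    simp only [Units.val_mul, mul_assoc]
  rw [e0]
  have c5 := ((EqM.refl (e + 2) (U : FMap n)).mul (((EqM.refl (e + 2) (L : FMap n)).mul c2).mul
    (EqM.refl (e + 2) ((L⁻¹ : (FMap n)ˣ) : FMap n)))).mul
    (EqM.refl (e + 2) ((U⁻¹ : (FMap n)ˣ) : FMap n))
  rw [c3] at c5
  exact c5.trans (c4.mono (by omega))

end Pool.Agent.MOB
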