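import Pool.Agent.MOB.Bra

/-!
# MOB/Ddl: the derivative `DD a b = Da b` of tuples

`DD a b i = Dd b (a i)`. Bilinearity from `Dd_add`, `Dd_add_left`, `Dd_smul`, `Dd_smul_left`;
`OV_DD` from `O_Dd`; `act_DD` is proved as `act_br` in `Bra` (chain rule `INV5.Dd_subst`);
`br_eq_DD` by definition. `DD_qd`: the derivative of two quadratic tuples is a cubic tuple:
only used through `OV_DD`.
-/

namespace Pool.Agent.MOB

open MvPowerSeries Pool.Agent.RevMaps Pool.Agent.INV5

variable {n : ℕ}

theorem DD_add_left (a a' b : V n) : DD (a + a') b = DD a b + DD a' b := by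
  funext i
  exact Dd_add b (a i) (a' i)

theorem DD_add_right (a b b' : V n) : DD a (b + b') = DD a b + DD a b' := by
  funext i
  exact Dd_add_left b b' (a i)

theorem DD_smul_left (c : ℂ) (a b : V n) : DD (c • a) b = c • DD a b := by
  funext i
  exact Dd_smul b c (a i)

theorem DD_smul_right (c : ℂ) (a b : V n) : DD a (c • b) = c • DD a b := by
  funext i
  exact Dd_smul_left c b (a i)

theorem DD_neg_left (a b : V n) : DD (-a) b = -DD a b := by
  have h := DD_smul_left (-1) a b
  rw [neg_one_smul, neg_one_smul] at h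
  exact h

theorem DD_neg_right (a b : V n) : DD a (-b) = -DD a b := by
  have h := DD_smul_right (-1) a b
  rw [neg_one_smul, neg_one_smul] at h
  exact h

theorem OV_DD {e m k : ℕ} {a b : V n} (ha : OV e a) (hb : OV m b) (h : k + 1 ≤ e + m) :
    OV k (DD a b) := fun i => O_Dd (ha i) hb h

private theorem ddl_lin (M : Mat n) (a : V n) (i : Fin n) :
    Dd a ((linMap M).toFun i) = mv M a i := by
  rw [linMap_toFun]
  simp only [mv, Dd_sum, Dd_smul, Dd_X]

private theorem ddl_chain (S S' : Mat n) (h : S * S' = 1) (q : V n) (p : PS n) :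
    Dd (act S S' q) (p.subst (linMap S').toFun) = (Dd q p).subst (linMap S').toFun := by
  have h' : S' * S = 1 := mul_eq_one_comm.1 h
  have h1 : mv S' (act S S' q) = sb (linMap S') q := by
    unfold act
    rw [mv_mv, h', mv_one]
  rw [Dd_subst]
  unfold Dd
  rw [subst_sumC]
  refine Finset.sum_congr rfl (fun l _ => ?_)
  rw [subst_mulC]
  congr 1
  have h2 := ddl_lin S' (act S S' q) l
  rw [h1] at h2
  exact h2

theorem act_DD (S S' : Mat n) (h : S * S' = 1) (a b : V n) :
    act S S' (DD a b) = DD (act S S' a) (act S S' b) := by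
  funext i
  have h1 : act S S' a i = ∑ j, S i j • (a j).subst (linMap S').toFun := rfl
  have h2 : act S S' (DD a b) i =
      ∑ j, S i j • (Dd b (a j)).subst (linMap S').toFun := rfl
  have h3 : DD (act S S' a) (act S S' b) i = Dd (act S S' b) (act S S' a i) := rfl
  rw [h2, h3, h1, Dd_sum]
  refine Finset.sum_congr rfl (fun j _ => ?_)
  rw [Dd_smul, ddl_chain S S' h]

theorem br_eq_DD (k q : V n) : br k q = DD k q - DD q k := rfl

end Pool.Agent.MOB
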