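import Pool.Agent.RevMaps.LiftConj
import Pool.Agent.INV5.N5

/-!
# Project MOB (MP_2a1f98_al): every formal map with determinant `± 1` whose linear part is not the
identity is a product of four involutions.  Definitions.

`PS n`: power series in `n` variables over `ℂ`, `V n`: tuples, `OV d a`: order at least `d`,
`FMap n`: formal maps, `f * g` composition, `act S S' a = S (a ∘ S')`, `br k q = Dk q - Dq k`.
-/

namespace Pool.Agent.MOB

open MvPowerSeries Pool.Agent.RevMaps Pool.Agent.INV5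

variable {n : ℕ}

/-- square matrices -/
abbrev Mat (n : ℕ) := Matrix (Fin n) (Fin n) ℂ

/-- the projective quadratic field `x ↦ m(x) x` -/
noncomputable def pj (m : Fin n → ℂ) : V n := fun i => ell m * X i

/-- coefficients of quadratic tuples (words with two covector letters and one vector letter) -/
abbrev QC (n : ℕ) := (Fin 3 → Fin n) → ℂ

/-- quadratic tuple with given coefficients -/
noncomputable def qd : QC n →ₗ[ℂ] V n := pw n 2

/-- derivative of the tuple `a` in the direction `b` -/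
noncomputable def DD (a b : V n) : V n := fun i => Dd b (a i)

/-- `g` agrees to second order with `(1 + u) S` -/
def Jet2 (g : FMap n) (u : V n) (S : Mat n) : Prop :=
  ∀ i, O 3 (g.toFun i - ((linMap S).toFun i + sb (linMap S) u i))

/-- action of the 2-jet `(1 + u) S` on tuples (`S'` is the inverse of `S`) -/
noncomputable def rho (u : V n) (S S' : Mat n) : V n →ₗ[ℂ] V n where
  toFun a := act S S' a + br u (act S S' a)
  map_add' a b := by
    rw [act_add]
    have h : br u (act S S' a + act S S' b) = br u (act S S' a) + br u (act S S' b) := by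
      have h1 := br_sub_right u (act S S' a + act S S' b) (act S S' b)
      rw [add_sub_cancel_right] at h1
      rw [h1, sub_add_cancel]
    rw [h]
    abel
  map_smul' c a := by
    rw [act_smul, br_smul_right, RingHom.id_apply, smul_add]

/-- products of the first linear parts -/
def SS (T : Fin 4 → Mat n) : Fin 4 → Mat n := ![1, T 0, T 0 * T 1, T 0 * T 1 * T 2]

/-- their inverses -/
def SI (T : Fin 4 → Mat n) : Fin 4 → Mat n := ![1, T 0, T 1 * T 0, T 2 * T 1 * T 0]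

/-- the conjugates `S_k T_k S_k⁻¹` -/
def RR (T : Fin 4 → Mat n) (k : Fin 4) : Mat n := SS T k * T k * SI T k

/-- transported quadratic parts `v_k = S_k u_k` -/
noncomputable def vv (T : Fin 4 → Mat n) (u : Fin 4 → V n) (k : Fin 4) : V n :=
  act (SS T k) (SI T k) (u k)

/-- and back: `u_k = S_k⁻¹ v_k` -/
noncomputable def uu (T : Fin 4 → Mat n) (v : Fin 4 → V n) (k : Fin 4) : V n :=
  act (SI T k) (SS T k) (v k)

/-- linearisation of the product of four conjugates, `v_k = S_k u_k` -/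
noncomputable def Psi (v : Fin 4 → V n) (T : Fin 4 → Mat n) : (Fin 4 → V n) →ₗ[ℂ] V n :=
  (LinearMap.id - rho (uu T v 0) (T 0) (T 0)) ∘ₗ LinearMap.proj 0 +
  rho (v 0) (SS T 1) (SI T 1) ∘ₗ (LinearMap.id - rho (uu T v 1) (T 1) (T 1)) ∘ₗ
    LinearMap.proj 1 +
  rho (v 0 + v 1) (SS T 2) (SI T 2) ∘ₗ (LinearMap.id - rho (uu T v 2) (T 2) (T 2)) ∘ₗ
    LinearMap.proj 2 +
  rho (v 0 + v 1 + v 2) (SS T 3) (SI T 3) ∘ₗ (LinearMap.id - rho (uu T v 3) (T 3) (T 3)) ∘ₗ
    LinearMap.proj 3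

/-- right hand sides solvable up to order `e + 2` by corrections of order `e` -/
def Zt (v : Fin 4 → V n) (T : Fin 4 → Mat n) (e : ℕ) : Submodule ℂ (V n) where
  carrier := {r | ∃ a : Fin 4 → V n, (∀ k, OV e (a k)) ∧ OV (e + 2) (r - Psi v T a)}
  add_mem' := by
    rintro r s ⟨a, ha, hr⟩ ⟨b, hb, hs⟩
    refine ⟨a + b, fun k => (ha k).add (hb k), ?_⟩
    rw [map_add, add_sub_add_comm]
    exact hr.add hs
  zero_mem' := ⟨0, fun k i => O_of_zero _, fun i => by simpa using O_of_zero _⟩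
  smul_mem' := by
    rintro c r ⟨a, ha, hr⟩
    refine ⟨c • a, fun k => (ha k).smul c, ?_⟩
    rw [map_smul, ← smul_sub]
    exact hr.smul c

/-- half the sum of the brackets `[v_j, v_k]`, `j < k` -/
noncomputable def cub4 (v : Fin 4 → V n) : V n :=
  (1 / 2 : ℂ) • (br (v 0) (v 1) + br (v 0) (v 2) + br (v 0) (v 3) + br (v 1) (v 2) +
    br (v 1) (v 3) + br (v 2) (v 3))

/-- dilated map `ε⁻¹ f(ε x)` -/
noncomputable def dil (ε : ℂ) (f : FMap n) : FMap n :=
  linMap (ε⁻¹ • (1 : Mat n)) * f * linMap (ε • (1 : Mat n))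

/-- linear data of a projective base: involutions `T` with product `A`, `(T 0 * T 1) ^ N = -1`,
covectors `a2, a3, y` -/
structure IsDat (A : Mat n) (T : Fin 4 → Mat n) (N : ℕ) (a2 a3 y : Fin n → ℂ) : Prop where
  sq : ∀ k, T k * T k = 1
  prod : T 0 * T 1 * T 2 * T 3 = A
  pow : (T 0 * T 1) ^ N = -1
  anti2 : Matrix.vecMul a2 (T 2) = -a2
  anti3 : Matrix.vecMul a3 (T 3) = -a3
  rel : Matrix.vecMul a2 (T 3) + a3 = Matrix.vecMul y (A - 1)
  gen : ∀ W : Submodule ℂ (Fin n → ℂ), (∀ k, ∀ w ∈ W, Matrix.vecMul w (T k) ∈ W) →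
    a2 ∈ W → a3 ∈ W → W = ⊤

/-- the covectors of the base -/
noncomputable def mu (T : Fin 4 → Mat n) (a2 a3 y : Fin n → ℂ) : Fin 4 → (Fin n → ℂ) :=
  ![y - Matrix.vecMul y (T 0), Matrix.vecMul (y - Matrix.vecMul y (T 1)) (SI T 1),
    Matrix.vecMul (a2 + y - Matrix.vecMul y (T 2)) (SI T 2),
    Matrix.vecMul (a3 + y - Matrix.vecMul y (T 3)) (SI T 3)]

/-- quadratic parts of the tuple: base plus perturbation -/
noncomputable def bs (T : Fin 4 → Mat n) (a2 a3 y : Fin n → ℂ) (w : Fin 4 → QC n) (k : Fin 4) :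
    V n := pj (mu T a2 a3 y k) + qd (w k)

/-- the action of a matrix on quadratic coefficients -/
noncomputable def gw (S : Mat n) : QC n →ₗ[ℂ] QC n := (GW 2 S).mulVecLin

/-- half the geometric sum `∑_{j < N} (T 0 T 1) ^ j` on quadratic coefficients -/
noncomputable def zq (T : Fin 4 → Mat n) (N : ℕ) : QC n →ₗ[ℂ] QC n :=
  (1 / 2 : ℂ) • ∑ j ∈ Finset.range N, gw (T 0 * T 1) ^ j

/-- the perturbations `w_2 = θ_2 - R_2 θ_2`, `w_3 = θ_3 - R_3 θ_3` and `w_0`, `w_1` determined by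
`∑ w_k = ε c2`; parameter `(ε, θ_2, θ_3)` -/
noncomputable def wp (T : Fin 4 → Mat n) (N : ℕ) (c2 : QC n) :
    (ℂ × (QC n × QC n)) →ₗ[ℂ] (Fin 4 → QC n) :=
  let th2 : (ℂ × (QC n × QC n)) →ₗ[ℂ] QC n := LinearMap.fst ℂ _ _ ∘ₗ LinearMap.snd ℂ _ _
  let th3 : (ℂ × (QC n × QC n)) →ₗ[ℂ] QC n := LinearMap.snd ℂ _ _ ∘ₗ LinearMap.snd ℂ _ _
  let w2 := (LinearMap.id - gw (RR T 2)) ∘ₗ th2
  let w3 := (LinearMap.id - gw (RR T 3)) ∘ₗ th3
  let z := zq T N ∘ₗ ((LinearMap.toSpanSingleton ℂ (QC n) c2) ∘ₗ LinearMap.fst ℂ _ _ - w2 - w3)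
  LinearMap.pi ![(LinearMap.id - gw (RR T 0)) ∘ₗ z,
    (LinearMap.id - gw (RR T 1)) ∘ₗ gw (RR T 0) ∘ₗ z, w2, w3]

/-- mixed terms of `cub4` -/
noncomputable def crs (p w : Fin 4 → V n) : V n :=
  (1 / 2 : ℂ) • ((br (p 0) (w 1) + br (w 0) (p 1)) + (br (p 0) (w 2) + br (w 0) (p 2)) +
    (br (p 0) (w 3) + br (w 0) (p 3)) + (br (p 1) (w 2) + br (w 1) (p 2)) +
    (br (p 1) (w 3) + br (w 1) (p 3)) + (br (p 2) (w 3) + br (w 2) (p 3)))

/-- the fields multiplying `θ_2` and `θ_3` in the linearisation -/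
noncomputable def X2 (T : Fin 4 → Mat n) (a2 : Fin n → ℂ) : V n := act (SS T 2) (SI T 2) (pj a2)

/-- the same, for `θ_3` -/
noncomputable def X3 (T : Fin 4 → Mat n) (a2 a3 : Fin n → ℂ) : V n :=
  act (SS T 3) (SI T 3) (pj a3) + (X2 T a2 - act (RR T 3) (RR T 3) (X2 T a2))

/-- the field `g_2 = ∑_{j < N} B^j (v_0 + v_1)`, `B = T 0 T 1` -/
noncomputable def gg (T : Fin 4 → Mat n) (N : ℕ) (v : Fin 4 → V n) : V n :=
  ∑ j ∈ Finset.range N, act ((T 0 * T 1) ^ j) ((T 1 * T 0) ^ j) (v 0 + v 1)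

/-- factorisation `A = B C` into two matrices with simple spectrum, each similar to its inverse -/
structure IsPair (A B C Q Q' : Mat n) (β γ : Fin n → ℂ) (σ σ' : Fin n → Fin n) : Prop where
  prod : B * C = A
  uQ : IsUnit Q.det
  uQ' : IsUnit Q'.det
  eQ : B * Q = Q * Matrix.diagonal β
  eQ' : C * Q' = Q' * Matrix.diagonal γ
  injβ : Function.Injective β
  injγ : Function.Injective γ
  invβ : ∀ i, β i * β (σ i) = 1
  invγ : ∀ i, γ i * γ (σ' i) = 1
  powβ : ∀ i, β i ^ n = -1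
  nofix : ∀ i, A.mulVec (Q.col i) ≠ Q.col i

end Pool.Agent.MOB
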