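import Pool.Agent.MOB.Defs

/-!
# MOB/Dgl: lower triangular matrices with distinct diagonal entries

`exists_diag_lower`: transpose of `RevMaps.exists_diag` (`RevMaps/Triang.lean`): `Lᵀ R = R diag β`
gives `Rᵀ L = diag β Rᵀ`, take `Q = (Rᵀ)⁻¹`. `exists_diag_upper`: `RevMaps.exists_diag`.
`last_eigen`: if `L` is lower triangular with diagonal `β`, `β` injective, and
`L x = β last • x`, then `x i = 0` for `i ≠ last`: by strong induction on `i`, row `i` reads
`β_i x_i = β_last x_i`.
-/

namespace Pool.Agent.MOB

open MvPowerSeries Pool.Agent.RevMaps Pool.Agent.INV5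

variable {n : ℕ}

theorem exists_diag_upper (U : Mat n) (γ : Fin n → ℂ) (hU : ∀ i j, j < i → U i j = 0)
    (hd : ∀ i, U i i = γ i) (hγ : Function.Injective γ) :
    ∃ Q : Mat n, IsUnit Q.det ∧ U * Q = Q * Matrix.diagonal γ := by
  have h1 : (fun i => U i i) = γ := funext hd
  obtain ⟨Q, hQ, h⟩ := exists_diag U hU (by rw [h1]; exact hγ)
  rw [h1] at h
  exact ⟨Q, isUnit_iff_ne_zero.2 hQ, h⟩

theorem exists_diag_lower (L : Mat n) (β : Fin n → ℂ) (hL : ∀ i j, i < j → L i j = 0)
    (hd : ∀ i, L i i = β i) (hβ : Function.Injective β) :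
    ∃ Q : Mat n, IsUnit Q.det ∧ L * Q = Q * Matrix.diagonal β := by
  obtain ⟨R, hR, h⟩ := exists_diag_upper L.transpose β (fun i j hij => hL j i hij) hd hβ
  have hRT : IsUnit R.transpose.det := by rwa [Matrix.det_transpose]
  have h1 : R.transpose * L = Matrix.diagonal β * R.transpose := by
    have h2 := congrArg Matrix.transpose h
    rwa [Matrix.transpose_mul, Matrix.transpose_mul, Matrix.transpose_transpose,
      Matrix.diagonal_transpose] at h2
  refine ⟨R.transpose⁻¹, ?_, ?_⟩
  · exact Matrix.isUnit_nonsing_inv_det _ hRT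
  · calc L * R.transpose⁻¹ = R.transpose⁻¹ * (R.transpose * L) * R.transpose⁻¹ := by
          rw [← Matrix.mul_assoc R.transpose⁻¹, Matrix.nonsing_inv_mul _ hRT, Matrix.one_mul]
      _ = R.transpose⁻¹ * Matrix.diagonal β * (R.transpose * R.transpose⁻¹) := by
          rw [h1]
          simp only [Matrix.mul_assoc]
      _ = R.transpose⁻¹ * Matrix.diagonal β := by
          rw [Matrix.mul_nonsing_inv _ hRT, Matrix.mul_one]

theorem last_eigen (L : Mat n) (β : Fin n → ℂ) (hL : ∀ i j, i < j → L i j = 0)
    (hd : ∀ i, L i i = β i) (hβ : Function.Injective β) (l : Fin n) (hl : ∀ i, i ≤ l)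
    (x : Fin n → ℂ) (hx : L.mulVec x = β l • x) : ∀ i, i ≠ l → x i = 0 := by
  have key : ∀ (m : ℕ) (i : Fin n), (i : ℕ) = m → i ≠ l → x i = 0 := by
    intro m
    induction m using Nat.strong_induction_on with
    | _ m ih =>
      intro i him hil
      have h1 : ∑ j, L i j * x j = β l * x i := by
        have := congrFun hx i
        simpa [Matrix.mulVec, dotProduct] using this
      rw [Finset.sum_eq_single i] at h1
      · rw [hd] at h1
        have h2 : (β i - β l) * x i = 0 := by linear_combination h1
        rcases mul_eq_zero.1 h2 with h3 | h3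
        · exact absurd (hβ (sub_eq_zero.1 h3)) hil
        · exact h3
      · intro j _ hj
        rcases lt_or_gt_of_ne hj with h2 | h2
        · have h3 : j ≠ l := fun h4 => by
            rw [h4] at h2
            exact absurd (hl i) (not_le.2 h2)
          rw [ih (j : ℕ) (by rw [← him]; exact h2) j rfl h3, mul_zero]
        · rw [hL i j h2, zero_mul]
      · intro h2
        exact absurd (Finset.mem_univ i) h2
  exact fun i hi => key i i rfl hi

end Pool.Agent.MOB
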