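import Pool.Agent.MOB.Bra

/-!
# MOB/Dil: dilations

`dil ε f = ε⁻¹ f(ε x)`.
`jet_data`: `(dil ε f * linMap A')(x) = ε⁻¹ f(A' (ε x))`, and `f ∘ A' = x + qd c2 + φ3 + O(4)`
with `qd c2` and `φ3 = pw n 3 c3` homogeneous of degrees `2, 3` (`INV5.pw_surj` twice, the linear part
is the identity by `lin_mul`, `sub_lin_O`). A homogeneous tuple of degree `d` is multiplied by
`ε ^ (d - 1)` (substitute `ε x` in monomials: `act_qd`-like computation with the matrix
`ε⁻¹ • 1`, or directly `pw` and `subst` of products of variables).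
`undo_dil`: conjugate by `linMap (ε • 1)`.
-/

namespace Pool.Agent.MOB

open MvPowerSeries Pool.Agent.RevMaps Pool.Agent.INV5

variable {n : ℕ}

theorem dil_inv {ε : ℂ} (hε : ε ≠ 0) :
    (linMap (ε⁻¹ • (1 : Mat n)) * linMap (ε • (1 : Mat n)) : FMap n) = 1 ∧
      (linMap (ε • (1 : Mat n)) * linMap (ε⁻¹ • (1 : Mat n)) : FMap n) = 1 := by
  constructor
  · rw [← linMap_mul, smul_mul_smul_comm, inv_mul_cancel₀ hε, one_smul, one_mul, linMap_one]
  · rw [← linMap_mul, smul_mul_smul_comm, mul_inv_cancel₀ hε, one_smul, one_mul, linMap_one]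

theorem lin_dil {ε : ℂ} (hε : ε ≠ 0) (f : FMap n) : lin (dil ε f) = lin f := by
  unfold dil
  rw [lin_mul, lin_mul, lin_linMap, lin_linMap, smul_mul_assoc, one_mul, smul_mul_smul_comm,
    inv_mul_cancel₀ hε, one_smul, mul_one]

theorem dil_scale_toFun (ε : ℂ) : (linMap (ε • (1 : Mat n))).toFun =
    ((fun _ => ε : Fin n → ℂ) • (X : Fin n → MvPowerSeries (Fin n) ℂ)) := by
  funext i
  rw [linMap_toFun]
  unfold mv
  rw [Finset.sum_eq_single i]
  · simp
  · intro j _ hj
    simp [hj.symm]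
  · intro h
    exact absurd (Finset.mem_univ i) h

theorem dil_coeff (ε : ℂ) (p : PS n) (m : Fin n →₀ ℕ) :
    coeff m (p.subst (linMap (ε • (1 : Mat n))).toFun) = ε ^ m.degree * coeff m p := by
  rw [dil_scale_toFun, ← rescale_eq_subst, coeff_rescale]
  congr 1
  rw [Finsupp.prod, Finset.prod_pow_eq_pow_sum]
  rfl

theorem dil_coeff_qd (c : QC n) (i : Fin n) (m : Fin n →₀ ℕ) (hm : m.degree ≠ 2) :
    coeff m (qd c i) = 0 := by
  classical
  have h0 : qd c i = ∑ q : Fin 2 → Fin n, c (Fin.snoc (α := fun _ => Fin n) q i) •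
    ∏ m, (X (q m) : PS n) := rfl
  rw [h0, map_sum]
  refine Finset.sum_eq_zero fun q _ => ?_
  rw [map_smul, Fin.prod_univ_two, X_def, X_def, monomial_mul_monomial, coeff_monomial, if_neg,
    smul_zero]
  rintro rfl
  apply hm
  rw [map_add, Finsupp.degree_single, Finsupp.degree_single]

theorem jet_data (f : FMap n) (A' : Mat n) (hA : lin f * A' = 1) :
    ∃ (c2 : QC n) (φ3 : V n), OV 3 φ3 ∧ ∀ ε : ℂ, ε ≠ 0 → ∀ i,
      O 4 ((dil ε f * linMap A').toFun i - (X i + ε • qd c2 i + ε ^ 2 • φ3 i)) := by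
  obtain ⟨h, hh⟩ : ∃ h : FMap n, h = f * linMap A' := ⟨_, rfl⟩
  have hlin : lin h = 1 := by rw [hh, lin_mul, lin_linMap, hA]
  have h2 : OV 2 (fun i => h.toFun i - X i : V n) := by
    intro i
    have h3 := sub_lin_O h i
    rwa [hlin, linMap_one] at h3
  obtain ⟨c2, hc2⟩ := pw_surj n 2 (fun i => h.toFun i - X i : V n) h2
  refine ⟨c2, (fun i => h.toFun i - X i) - pw n 2 c2, hc2, ?_⟩
  intro ε hε i m hm
  have hdil : dil ε f * linMap A' = linMap (ε⁻¹ • (1 : Mat n)) * (h * linMap (ε • (1 : Mat n))) := by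
    unfold dil
    rw [hh, mul_assoc, mul_assoc, mul_assoc, ← linMap_mul, ← linMap_mul, smul_mul_assoc, one_mul,
      mul_smul_comm, mul_one]
  have hval : (dil ε f * linMap A').toFun i =
      ε⁻¹ • (h.toFun i).subst (linMap (ε • (1 : Mat n))).toFun := by
    rw [hdil, linMap_mul_toFun]
    unfold mv
    rw [Finset.sum_eq_single i]
    · rw [Matrix.smul_apply, Matrix.one_apply_eq, smul_eq_mul, mul_one]
      rfl
    · intro j _ hj
      rw [Matrix.smul_apply, Matrix.one_apply_ne hj.symm, smul_zero, zero_smul]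
    · intro h4
      exact absurd (Finset.mem_univ i) h4
  have hq : ∀ j, (qd c2 : V n) j = pw n 2 c2 j := fun j => rfl
  rw [hval, map_sub, map_smul, dil_coeff, map_add, map_add, map_smul, map_smul]
  have hφ : ((fun i => h.toFun i - X i : V n) - pw n 2 c2) i = h.toFun i - X i - qd c2 i := rfl
  rw [hφ, map_sub, map_sub]
  obtain ⟨k, hk⟩ : ∃ k, k = m.degree := ⟨_, rfl⟩
  rw [← hk] at hm ⊢
  simp only [smul_eq_mul]
  have hX : k ≠ 1 → coeff m (X i : PS n) = 0 := by
    intro h1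
    classical
    rw [coeff_X, if_neg]
    rintro rfl
    apply h1
    rw [hk, Finsupp.degree_single]
  have hQ : k ≠ 2 → coeff m (qd c2 i) = 0 := fun h1 => dil_coeff_qd c2 i m (by rwa [← hk])
  have hlow : k < 2 → coeff m (h.toFun i) - coeff m (X i : PS n) = 0 := by
    intro h1
    have := h2 i m (by rwa [← hk])
    rwa [map_sub] at this
  have hlow3 : k < 3 → coeff m (h.toFun i) - coeff m (X i : PS n) - coeff m (qd c2 i) = 0 := by
    intro h1
    have := hc2 i m (by rwa [← hk])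
    rw [hφ, map_sub, map_sub] at this
    exact this
  interval_cases k
  · rw [hX (by norm_num), hQ (by norm_num)]
    have := hlow (by norm_num)
    rw [hX (by norm_num), sub_zero] at this
    rw [this]
    ring
  · rw [hQ (by norm_num)]
    have := hlow (by norm_num)
    have h5 : coeff m (h.toFun i) = coeff m (X i : PS n) := sub_eq_zero.1 this
    rw [h5]
    field_simp
    ring
  · rw [hX (by norm_num)]
    have := hlow3 (by norm_num)
    rw [hX (by norm_num), sub_zero] at this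
    have h5 : coeff m (h.toFun i) = coeff m (qd c2 i) := sub_eq_zero.1 this
    rw [h5]
    field_simp
    ring
  · rw [hX (by norm_num), hQ (by norm_num)]
    field_simp
    ring

theorem undo_dil {ε : ℂ} (hε : ε ≠ 0) (f : FMap n) (τ : Fin 4 → FMap n)
    (hτ : ∀ k, τ k * τ k = 1) (h : τ 0 * τ 1 * τ 2 * τ 3 = dil ε f) :
    ∃ τ' : Fin 4 → FMap n, (∀ k, τ' k * τ' k = 1) ∧ τ' 0 * τ' 1 * τ' 2 * τ' 3 = f := by
  obtain ⟨h1, h2⟩ := dil_inv (n := n) hε
  obtain ⟨a, ha⟩ : ∃ a : FMap n, a = linMap (ε • (1 : Mat n)) := ⟨_, rfl⟩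
  obtain ⟨b, hb⟩ : ∃ b : FMap n, b = linMap (ε⁻¹ • (1 : Mat n)) := ⟨_, rfl⟩
  rw [← ha, ← hb] at h1 h2
  have hf : a * dil ε f * b = f := by
    unfold dil
    rw [← ha, ← hb]
    calc a * (b * f * a) * b = (a * b) * f * (a * b) := by simp only [mul_assoc]
      _ = f := by rw [h2, one_mul, mul_one]
  refine ⟨fun k => a * τ k * b, fun k => ?_, ?_⟩
  · calc a * τ k * b * (a * τ k * b) = a * τ k * (b * a) * τ k * b := by simp only [mul_assoc]
      _ = a * (τ k * τ k) * b := by
        rw [h1, mul_one]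
        simp only [mul_assoc]
      _ = 1 := by rw [hτ, mul_one, h2]
  · rw [← hf, ← h]
    calc a * τ 0 * b * (a * τ 1 * b) * (a * τ 2 * b) * (a * τ 3 * b) =
        a * τ 0 * (b * a) * τ 1 * (b * a) * τ 2 * (b * a) * τ 3 * b := by simp only [mul_assoc]
      _ = a * (τ 0 * τ 1 * τ 2 * τ 3) * b := by
        rw [h1, mul_one, mul_one, mul_one]
        simp only [mul_assoc]

end Pool.Agent.MOB
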