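import Pool.Agent.MOB.Defs
import Pool.Agent.RevMaps.Four

/-!
# MOB/Dua: duality for row vectors, and stable subspaces of matrices with simple spectrum

`top_of_annih`: if `W ≠ ⊤` there is a nonzero linear functional on `Fin n → ℂ` vanishing on `W`
(`Submodule.exists_le_ker_of_lt_top`); it is `w ↦ w ⬝ᵥ v` for `v i` its values on `Pi.single i 1`.
`exists_col_mem`: if `B Q = Q diag β`, `β` injective, `Q` invertible, `U ≠ ⊥` stable under `B`, then some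
column of `Q` lies in `U`: transport by `Q⁻¹` and apply `single_mem_of_stable`
(`RevMaps/Four.lean`); `Q.mulVec (Pi.single i 1) = Q.col i`.
`vanish_of_cols`: a covector vanishing on every column of `Q` lying in `U` vanishes on `U`
(every `u ∈ U` is the combination of the columns `i` with `(Q⁻¹ u) i ≠ 0`, which lie in `U`).
-/

namespace Pool.Agent.MOB

open MvPowerSeries Pool.Agent.RevMaps Pool.Agent.INV5

variable {n : ℕ}

theorem top_of_annih (W : Submodule ℂ (Fin n → ℂ))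
    (h : ∀ v : Fin n → ℂ, (∀ w ∈ W, w ⬝ᵥ v = 0) → v = 0) : W = ⊤ := by
  by_contra hW
  obtain ⟨f, hf0, hf⟩ := Submodule.exists_le_ker_of_lt_top W (lt_top_iff_ne_top.2 hW)
  have hfv : ∀ w : Fin n → ℂ, f w = w ⬝ᵥ (fun i => f (Pi.single i 1)) := by
    intro w
    have h1 : w = ∑ i, w i • (Pi.single i 1 : Fin n → ℂ) := by
      funext j
      simp [Finset.sum_apply, Pi.single_apply]
    conv_lhs => rw [h1]
    rw [map_sum]
    simp only [map_smul, smul_eq_mul]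
    rfl
  apply hf0
  have h2 := h (fun i => f (Pi.single i 1)) (fun w hw => by
    rw [← hfv]
    exact LinearMap.mem_ker.1 (hf hw))
  ext i
  have h3 := congrFun h2 i
  simpa using h3

private theorem col_of_coord (B Q : Mat n) (β : Fin n → ℂ) (hβ : Function.Injective β)
    (hQ : IsUnit Q.det) (hBQ : B * Q = Q * Matrix.diagonal β) (U : Submodule ℂ (Fin n → ℂ))
    (hU : ∀ u ∈ U, B.mulVec u ∈ U) (u : Fin n → ℂ) (hu : u ∈ U) (i : Fin n)
    (hi : (Q⁻¹).mulVec u i ≠ 0) : Q.col i ∈ U := by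
  have hQQ : Q * Q⁻¹ = 1 := Matrix.mul_nonsing_inv Q hQ
  have hQ'Q : Q⁻¹ * Q = 1 := Matrix.nonsing_inv_mul Q hQ
  have hcomm : Matrix.diagonal β * Q⁻¹ = Q⁻¹ * B := by
    have h1 : Q⁻¹ * (B * Q) * Q⁻¹ = Q⁻¹ * (Q * Matrix.diagonal β) * Q⁻¹ := by rw [hBQ]
    rw [← Matrix.mul_assoc Q⁻¹ Q, hQ'Q, Matrix.one_mul] at h1
    rw [← h1, Matrix.mul_assoc, Matrix.mul_assoc B, hQQ, Matrix.mul_one]
  have hst : ∀ w ∈ U.map (Q⁻¹).mulVecLin, (fun j => β j * w j) ∈ U.map (Q⁻¹).mulVecLin := by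
    rintro w ⟨v, hv, rfl⟩
    refine ⟨B.mulVec v, hU v hv, ?_⟩
    rw [Matrix.mulVecLin_apply, Matrix.mulVecLin_apply, Matrix.mulVec_mulVec, ← hcomm,
      ← Matrix.mulVec_mulVec]
    funext j
    rw [Matrix.mulVec_diagonal]
  have h1 := single_mem_of_stable β hβ _ hst _ ⟨u, hu, rfl⟩ i hi
  obtain ⟨v, hv, hv1⟩ := h1
  rw [Matrix.mulVecLin_apply] at hv1
  have h2 : Q.mulVec ((Q⁻¹).mulVec v) = v := by
    rw [Matrix.mulVec_mulVec, hQQ, Matrix.one_mulVec]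
  rw [hv1, Matrix.mulVec_single_one] at h2
  rw [h2]
  exact hv

theorem exists_col_mem (B Q : Mat n) (β : Fin n → ℂ) (hβ : Function.Injective β)
    (hQ : IsUnit Q.det) (hBQ : B * Q = Q * Matrix.diagonal β) (U : Submodule ℂ (Fin n → ℂ))
    (hU : ∀ u ∈ U, B.mulVec u ∈ U) (hne : U ≠ ⊥) : ∃ i, Q.col i ∈ U := by
  obtain ⟨u, hu, hu0⟩ := Submodule.exists_mem_ne_zero_of_ne_bot hne
  have h1 : (Q⁻¹).mulVec u ≠ 0 := by
    intro h
    apply hu0
    have h2 : Q.mulVec ((Q⁻¹).mulVec u) = u := by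
      rw [Matrix.mulVec_mulVec, Matrix.mul_nonsing_inv Q hQ, Matrix.one_mulVec]
    rw [← h2, h, Matrix.mulVec_zero]
  obtain ⟨i, hi⟩ := Function.ne_iff.1 h1
  exact ⟨i, col_of_coord B Q β hβ hQ hBQ U hU u hu i hi⟩

theorem vanish_of_cols (B Q : Mat n) (β : Fin n → ℂ) (hβ : Function.Injective β)
    (hQ : IsUnit Q.det) (hBQ : B * Q = Q * Matrix.diagonal β) (U : Submodule ℂ (Fin n → ℂ))
    (hU : ∀ u ∈ U, B.mulVec u ∈ U) (m : Fin n → ℂ) (hm : ∀ i, Q.col i ∈ U → m ⬝ᵥ Q.col i = 0)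
    (u : Fin n → ℂ) (hu : u ∈ U) : m ⬝ᵥ u = 0 := by
  have h2 : Q.mulVec ((Q⁻¹).mulVec u) = u := by
    rw [Matrix.mulVec_mulVec, Matrix.mul_nonsing_inv Q hQ, Matrix.one_mulVec]
  rw [← h2, Matrix.dotProduct_mulVec]
  refine Finset.sum_eq_zero fun i _ => ?_
  by_cases hi : (Q⁻¹).mulVec u i = 0
  · rw [hi, mul_zero]
  · have h3 := hm i (col_of_coord B Q β hβ hQ hBQ U hU u hu i hi)
    have h4 : Matrix.vecMul m Q i = m ⬝ᵥ Q.col i := rfl
    rw [h4, h3, zero_mul]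

end Pool.Agent.MOB
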