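import Pool.Agent.MOB.Lft

/-!
# MOB/Lim: the limit

Proof. Iterate `lift_two` for `e = 4, 6, 8, ...` (the 2-jets are kept by `Jet2_of_EqM`); the sequence
`τ^(j)` satisfies `EqM (4 + 2 j) (τ^(j+1) k) (τ^(j) k)`. Limits by `exists_limit` (`RevMaps/Basic`;
reindex `d ↦ τ^((d - 4) / 2)`: for `d` even nothing changes from `d` to `d + 1`), see the end of
`RevMaps/LiftConj.lean` for the pattern. The limit satisfies `τ k * τ k = 1` and the product is `f`
by `eq_of_EqM`.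
-/

namespace Pool.Agent.MOB

open MvPowerSeries Pool.Agent.RevMaps Pool.Agent.INV5

variable {n : ℕ}

theorem lift_all (T : Fin 4 → Mat n) (hT : ∀ k, T k * T k = 1) (v : Fin 4 → V n)
    (hv : ∀ k, OV 2 (v k)) (f : FMap n) (τ : Fin 4 → FMap n) (hτ : ∀ k, τ k * τ k = 1)
    (hJ : ∀ k, Jet2 (τ k) (uu T v k) (T k)) (hp : EqM 4 (τ 0 * τ 1 * τ 2 * τ 3) f)
    (hZ : ∀ e, 4 ≤ e → Even e → ∀ r : V n, OV e r → r ∈ Zt v T e) :
    ∃ τ' : Fin 4 → FMap n, (∀ k, τ' k * τ' k = 1) ∧ τ' 0 * τ' 1 * τ' 2 * τ' 3 = f := by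
  classical
  let P : ℕ → (Fin 4 → FMap n) → Prop := fun j s =>
    (∀ k, s k * s k = 1) ∧ (∀ k, Jet2 (s k) (uu T v k) (T k)) ∧
      EqM (4 + 2 * j) (s 0 * s 1 * s 2 * s 3) f
  have hstep : ∀ j s, P j s → ∃ s', P (j + 1) s' ∧ ∀ k, EqM (4 + 2 * j) (s' k) (s k) := by
    rintro j s ⟨h1, h2, h3⟩
    obtain ⟨s', g1, g2, g3⟩ := lift_two T hT v hv f s h1 h2 (by omega) h3
      (hZ (4 + 2 * j) (by omega) ⟨2 + j, by ring⟩)
    refine ⟨s', ⟨g1, fun k => Jet2_of_EqM (by omega) (g2 k) (h2 k), ?_⟩, g2⟩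
    rwa [show 4 + 2 * (j + 1) = 4 + 2 * j + 2 by ring]
  choose! F hF1 hF2 using hstep
  let s : ℕ → (Fin 4 → FMap n) := fun j => Nat.rec τ (fun j x => F j x) j
  have hs : ∀ j, P j (s j) := by
    intro j
    induction j with
    | zero => exact ⟨hτ, hJ, hp⟩
    | succ j ih => exact hF1 j (s j) ih
  have hs2 : ∀ j k, EqM (4 + 2 * j) (s (j + 1) k) (s j k) := fun j k => hF2 j (s j) (hs j) k
  have hlim := fun k => exists_limit (fun d => s ((d - 3) / 2) k) 4 (by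
    intro d hd
    rcases Nat.even_or_odd' d with ⟨c, hc | hc⟩
    · have e1 : (d + 1 - 3) / 2 = (d - 3) / 2 + 1 := by omega
      simp only [e1]
      exact (hs2 ((d - 3) / 2) k).mono (by omega)
    · have e1 : (d + 1 - 3) / 2 = (d - 3) / 2 := by omega
      simp only [e1]
      exact EqM.refl _ _)
  choose t ht using hlim
  have htj : ∀ j k, EqM (4 + 2 * j) (t k) (s j k) := by
    intro j k
    have := ht k (4 + 2 * j) (by omega)
    rwa [show (4 + 2 * j - 3) / 2 = j by omega] at this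
  refine ⟨t, fun k => ?_, ?_⟩
  · apply eq_of_EqM
    intro d
    have h1 := (htj d k).mul (htj d k)
    rw [(hs d).1 k] at h1
    exact h1.mono (by omega)
  · apply eq_of_EqM
    intro d
    have h1 := (((htj d 0).mul (htj d 1)).mul (htj d 2)).mul (htj d 3)
    exact (h1.trans (hs d).2.2).mono (by omega)

end Pool.Agent.MOB
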