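import Pool.Agent.MOB.Bra

/-!
# MOB/Spb: uniform bound for generated projective fields

Proof. Let `W` be the set of covectors `m` for which there is `C ≥ 0` such that for all `U, b2, b3, δ` as
below there is `c` with `‖c‖ ≤ C δ` and `pj m + qd c ∈ U`. It is a submodule (constants `C + C'`,
`|s| C`), contains `a2, a3` (`C = 1`), and is stable under `m ↦ m T_k`:
`act T_k (pj m + qd c) = pj (m T_k) + qd (gw (T k) c)` (`act_pj`, `act_qd`) and
`‖gw (T k) c‖ ≤ K ‖c‖` (linear map on a finite-dimensional space, `LinearMap.toContinuousLinearMap`,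
`ContinuousLinearMap.le_opNorm`). By `gen`, `W = ⊤`; take the sum of the constants of the basis
covectors. Note `0 ≤ δ` follows from `‖b2‖ ≤ δ`.
-/

namespace Pool.Agent.MOB

open MvPowerSeries Pool.Agent.RevMaps Pool.Agent.INV5

variable {n : ℕ}

theorem span_bound (T : Fin 4 → Mat n) (hT : ∀ k, T k * T k = 1) (a2 a3 : Fin n → ℂ)
    (hgen : ∀ W : Submodule ℂ (Fin n → ℂ), (∀ k, ∀ w ∈ W, Matrix.vecMul w (T k) ∈ W) →
      a2 ∈ W → a3 ∈ W → W = ⊤) :
    ∃ C : ℝ, 0 ≤ C ∧ ∀ (U : Submodule ℂ (V n)), (∀ k, ∀ a ∈ U, act (T k) (T k) a ∈ U) →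
      ∀ (b2 b3 : QC n) (δ : ℝ), ‖b2‖ ≤ δ → ‖b3‖ ≤ δ → pj a2 + qd b2 ∈ U → pj a3 + qd b3 ∈ U →
      ∀ j, ∃ c : QC n, ‖c‖ ≤ C * δ ∧ pj (Pi.single j 1) + qd c ∈ U := by
  classical
  let P : (Fin n → ℂ) → Prop := fun m => ∃ C : ℝ, 0 ≤ C ∧
    ∀ (U : Submodule ℂ (V n)), (∀ k, ∀ a ∈ U, act (T k) (T k) a ∈ U) →
      ∀ (b2 b3 : QC n) (δ : ℝ), ‖b2‖ ≤ δ → ‖b3‖ ≤ δ → pj a2 + qd b2 ∈ U → pj a3 + qd b3 ∈ U →
      ∃ c : QC n, ‖c‖ ≤ C * δ ∧ pj m + qd c ∈ U
  let W : Submodule ℂ (Fin n → ℂ) :=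
    { carrier := {m | P m}
      add_mem' := by
        rintro m m' ⟨C, hC, h⟩ ⟨C', hC', h'⟩
        refine ⟨C + C', add_nonneg hC hC', ?_⟩
        intro U hU b2 b3 δ h2 h3 h2' h3'
        obtain ⟨c, hc, hcU⟩ := h U hU b2 b3 δ h2 h3 h2' h3'
        obtain ⟨c', hc', hcU'⟩ := h' U hU b2 b3 δ h2 h3 h2' h3'
        refine ⟨c + c', ?_, ?_⟩
        · rw [add_mul]
          exact (norm_add_le c c').trans (add_le_add hc hc')
        · have := U.add_mem hcU hcU'
          rw [pj_add, map_add]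
          convert this using 1
          abel
      zero_mem' := by
        refine ⟨0, le_rfl, ?_⟩
        intro U hU b2 b3 δ h2 h3 h2' h3'
        refine ⟨0, by simp, ?_⟩
        rw [pj_zero, map_zero, add_zero]
        exact U.zero_mem
      smul_mem' := by
        rintro s m ⟨C, hC, h⟩
        refine ⟨‖s‖ * C, mul_nonneg (norm_nonneg s) hC, ?_⟩
        intro U hU b2 b3 δ h2 h3 h2' h3'
        obtain ⟨c, hc, hcU⟩ := h U hU b2 b3 δ h2 h3 h2' h3'
        refine ⟨s • c, ?_, ?_⟩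
        · rw [norm_smul, mul_assoc]
          exact mul_le_mul_of_nonneg_left hc (norm_nonneg s)
        · have := U.smul_mem s hcU
          rw [pj_smul, map_smul, ← smul_add]
          exact this }
  have hW : W = ⊤ := by
    apply hgen W
    · rintro k m ⟨C, hC, h⟩
      let G := LinearMap.toContinuousLinearMap (gw (T k))
      refine ⟨‖G‖ * C, mul_nonneg (norm_nonneg G) hC, ?_⟩
      intro U hU b2 b3 δ h2 h3 h2' h3'
      obtain ⟨c, hc, hcU⟩ := h U hU b2 b3 δ h2 h3 h2' h3'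
      refine ⟨gw (T k) c, ?_, ?_⟩
      · rw [mul_assoc]
        exact (G.le_opNorm c).trans (mul_le_mul_of_nonneg_left hc (norm_nonneg G))
      · have := hU k _ hcU
        rw [act_add, act_pj _ _ (hT k), act_qd _ _ (hT k)] at this
        exact this
    · refine ⟨1, zero_le_one, ?_⟩
      intro U hU b2 b3 δ h2 h3 h2' h3'
      exact ⟨b2, by rw [one_mul]; exact h2, h2'⟩
    · refine ⟨1, zero_le_one, ?_⟩
      intro U hU b2 b3 δ h2 h3 h2' h3'
      exact ⟨b3, by rw [one_mul]; exact h3, h3'⟩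
  have hall : ∀ j : Fin n, P (Pi.single j 1) := by
    intro j
    have : (Pi.single j 1 : Fin n → ℂ) ∈ W := by rw [hW]; exact Submodule.mem_top
    exact this
  choose C hC hCU using hall
  refine ⟨∑ j, C j, Finset.sum_nonneg fun j _ => hC j, ?_⟩
  intro U hU b2 b3 δ h2 h3 h2' h3' j
  obtain ⟨c, hc, hcU⟩ := hCU j U hU b2 b3 δ h2 h3 h2' h3'
  refine ⟨c, hc.trans ?_, hcU⟩
  have hδ : 0 ≤ δ := (norm_nonneg b2).trans h2
  exact mul_le_mul_of_nonneg_right
    (Finset.single_le_sum (fun i _ => hC i) (Finset.mem_univ j)) hδ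

end Pool.Agent.MOB
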