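import Pool.Agent.MOB.Mst
import Pool.Agent.MOB.Spb

/-!
# MOB/Neu: the perturbed fields generate everything, uniformly in the order

Proof. `C` from `span_bound`, `δ = 1 / (56 n^3 (C + 1))`. Given `e, Z, b2, b3`: the set
`U = {x | OV 2 x ∧ ∀ a, OV e a → br x a ∈ Z}` is a submodule, stable under `act (T k) (T k)`:
`br (T_k.x) a = T_k.(br x (T_k.a))` (`act_br`, `act_act`), and `br x (T_k.a) ∈ Z` has order `e + 1`,
so its image is in `Z` by `hst`. Apply `span_bound` to get `pj e_j + qd (b j) ∈ U`,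
`‖b j‖ ≤ C δ`, then `mono_step`.
-/

namespace Pool.Agent.MOB

open MvPowerSeries Pool.Agent.RevMaps Pool.Agent.INV5

variable {n : ℕ}

/-- the fields whose brackets with tuples of order `e` are in `Z` -/
noncomputable def UU (Z : Submodule ℂ (V n)) (e : ℕ) : Submodule ℂ (V n) where
  carrier := {x | OV 2 x ∧ ∀ a : V n, OV e a → br x a ∈ Z}
  add_mem' := by
    rintro x y ⟨hx, hx'⟩ ⟨hy, hy'⟩
    refine ⟨hx.add hy, fun a ha => ?_⟩
    rw [br_add_left]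
    exact Z.add_mem (hx' a ha) (hy' a ha)
  zero_mem' := by
    refine ⟨fun i => O_of_zero 2, fun a _ => ?_⟩
    rw [br_zero_left]
    exact Z.zero_mem
  smul_mem' := by
    rintro c x ⟨hx, hx'⟩
    refine ⟨hx.smul c, fun a ha => ?_⟩
    rw [br_smul_left]
    exact Z.smul_mem c (hx' a ha)

theorem UU_act {Z : Submodule ℂ (V n)} {e : ℕ} (T : Mat n) (hT : T * T = 1)
    (hst : ∀ r : V n, OV (e + 1) r → r ∈ Z → act T T r ∈ Z) (x : V n) (hx : x ∈ UU Z e) :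
    act T T x ∈ UU Z e := by
  obtain ⟨hx1, hx2⟩ := hx
  refine ⟨hx1.act T T, fun a ha => ?_⟩
  have h1 : br (act T T x) a = act T T (br x (act T T a)) := by
    rw [act_br T T hT, act_act, hT, act_one]
  rw [h1]
  exact hst _ (OV_br hx1 (ha.act T T) (by omega)) (hx2 _ (ha.act T T))

theorem O_monomial (m : Fin n →₀ ℕ) : O m.degree (monomial m (1 : ℂ) : PS n) := by
  intro m' hm'
  rw [coeff_monomial, if_neg]
  rintro rfl
  exact lt_irrefl _ hm'

theorem neu (hn : 2 ≤ n) (T : Fin 4 → Mat n) (hT : ∀ k, T k * T k = 1) (a2 a3 : Fin n → ℂ)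
    (hgen : ∀ W : Submodule ℂ (Fin n → ℂ), (∀ k, ∀ w ∈ W, Matrix.vecMul w (T k) ∈ W) →
      a2 ∈ W → a3 ∈ W → W = ⊤) :
    ∃ δ > (0 : ℝ), ∀ e, 2 ≤ e → ∀ Z : Submodule ℂ (V n), (∀ r : V n, OV (e + 2) r → r ∈ Z) →
      (∀ k, ∀ r : V n, OV (e + 1) r → r ∈ Z → act (T k) (T k) r ∈ Z) →
      ∀ b2 b3 : QC n, ‖b2‖ ≤ δ → ‖b3‖ ≤ δ →
      (∀ a : V n, OV e a → br (pj a2 + qd b2) a ∈ Z) →
      (∀ a : V n, OV e a → br (pj a3 + qd b3) a ∈ Z) →
      ∀ r : V n, OV (e + 1) r → r ∈ Z := by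
  obtain ⟨C, hC0, hC⟩ := span_bound T hT a2 a3 hgen
  have hn0 : (0 : ℝ) < n := by
    have : 0 < n := by omega
    exact_mod_cast this
  have hpos : (0 : ℝ) < 56 * (n : ℝ) ^ 3 * (C + 1) := by positivity
  refine ⟨1 / (56 * (n : ℝ) ^ 3 * (C + 1)), by positivity, ?_⟩
  intro e he Z hZ hst b2 b3 hb2 hb3 h2 h3
  have hU := hC (UU Z e) (fun k a ha => UU_act (T k) (hT k) (hst k) a ha) b2 b3 _ hb2 hb3
    ⟨(OV_pj a2).add (OV_qd b2), h2⟩ ⟨(OV_pj a3).add (OV_qd b3), h3⟩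
  choose b hb1 hb using hU
  refine mono_step hn he Z hZ b (C * (1 / (56 * (n : ℝ) ^ 3 * (C + 1)))) hb1 ?_ ?_
  · have h4 : 28 * (n : ℝ) ^ 3 * (C * (1 / (56 * (n : ℝ) ^ 3 * (C + 1)))) =
        C / (2 * (C + 1)) := by
      field_simp
      ring
    rw [h4, div_lt_one (by positivity)]
    linarith
  · intro j m hm i
    refine (hb j).2 _ ?_
    subst hm
    exact OV_tens (O_monomial m) _

end Pool.Agent.MOB
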