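import Pool.Agent.MOB.Bra
import Pool.Agent.MOB.Mat

/-!
# MOB/Par: the linear family of perturbations

`wp T N c2 (ε, θ2, θ3)`: with `w_2 = θ2 - R_2 θ2`, `w_3 = θ3 - R_3 θ3`, `q = ε c2 - w_2 - w_3`,
`z = (1/2) ∑_{j < N} B^j q` (`B = T_0 T_1 = R_1 R_0`), `w_0 = z - R_0 z`, `w_1 = R_0 z - R_1 R_0 z`.
Then `R_k w_k = -w_k`, and `w_0 + w_1 = z - B z = (1/2)(q - B^N q) = q`, because `B^N = -1` acts as
`-1` on quadratic tuples (`act_neg_qd`). Work with `act` on `qd _` (`act_qd`, `act_act`), note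
`(∑_{j < N} B^j) q` maps under `qd` to `∑_{j < N} act (B^j) (B'^j) (qd q)`, `B' = T_1 T_0`.
-/

namespace Pool.Agent.MOB

open MvPowerSeries Pool.Agent.RevMaps Pool.Agent.INV5

variable {n : ℕ}

theorem qd_gw_pow (S S' : Mat n) (h : S * S' = 1) (j : ℕ) (c : QC n) :
    qd ((gw S ^ j) c) = act (S ^ j) (S' ^ j) (qd c) := by
  induction j with
  | zero =>
    rw [pow_zero, pow_zero, pow_zero, act_one]; rfl
  | succ j ih =>
    have h1 : (gw S ^ (j + 1)) c = gw S ((gw S ^ j) c) := by rw [pow_succ']; rfl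
    rw [h1, ← act_qd S S' h, ih, act_act, ← pow_succ', ← pow_succ]

theorem anti_of_sq (R : Mat n) (hR : R * R = 1) (x : QC n) :
    act R R (qd (x - gw R x)) = -qd (x - gw R x) := by
  rw [map_sub, act_sub, ← act_qd R R hR, act_act, hR, act_one]
  abel

/-- explicit values -/
theorem wp_apply (T : Fin 4 → Mat n) (N : ℕ) (c2 : QC n) (ε : ℂ) (θ2 θ3 : QC n) :
    wp T N c2 (ε, (θ2, θ3)) 2 = θ2 - gw (RR T 2) θ2 ∧
    wp T N c2 (ε, (θ2, θ3)) 3 = θ3 - gw (RR T 3) θ3 ∧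
    wp T N c2 (ε, (θ2, θ3)) 0 = zq T N (ε • c2 - (θ2 - gw (RR T 2) θ2) - (θ3 - gw (RR T 3) θ3)) -
      gw (RR T 0) (zq T N (ε • c2 - (θ2 - gw (RR T 2) θ2) - (θ3 - gw (RR T 3) θ3))) ∧
    wp T N c2 (ε, (θ2, θ3)) 1 =
      gw (RR T 0) (zq T N (ε • c2 - (θ2 - gw (RR T 2) θ2) - (θ3 - gw (RR T 3) θ3))) -
      gw (RR T 1) (gw (RR T 0) (zq T N
        (ε • c2 - (θ2 - gw (RR T 2) θ2) - (θ3 - gw (RR T 3) θ3)))) := by
  refine ⟨rfl, rfl, rfl, rfl⟩

/-- `z - B z = q` -/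
theorem zq_sub (T : Fin 4 → Mat n) (hT : ∀ k, T k * T k = 1) (N : ℕ)
    (hN : (T 0 * T 1) ^ N = -1) (q : QC n) :
    qd (zq T N q) - act (T 0 * T 1) (T 1 * T 0) (qd (zq T N q)) = qd q := by
  set B := T 0 * T 1 with hB
  set B' := T 1 * T 0 with hB'
  have hBB : B * B' = 1 := by
    have := (pow_pow_inv T hT 1).1
    rwa [pow_one, pow_one] at this
  have hN' : B' ^ N = -1 := by
    have h1 := (pow_pow_inv T hT N).1
    rw [← hB, ← hB', hN] at h1
    have h2 : -(B' ^ N) = 1 := by rw [← neg_one_mul]; exact h1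
    rw [← h2, neg_neg]
  have hz : qd (zq T N q) = (1 / 2 : ℂ) • ∑ j ∈ Finset.range N, act (B ^ j) (B' ^ j) (qd q) := by
    have e1 : zq T N q = (1 / 2 : ℂ) • ∑ j ∈ Finset.range N, (gw B ^ j) q := by
      unfold zq
      rw [LinearMap.smul_apply, LinearMap.sum_apply]
    rw [e1, map_smul, map_sum]
    congr 1
    apply Finset.sum_congr rfl
    intro j _
    exact qd_gw_pow B B' hBB j q
  have hs : ∀ M : ℕ, act B B' (∑ j ∈ Finset.range M, act (B ^ j) (B' ^ j) (qd q)) =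
      ∑ j ∈ Finset.range M, act (B ^ (j + 1)) (B' ^ (j + 1)) (qd q) := by
    intro M
    induction M with
    | zero =>
      rw [Finset.range_zero, Finset.sum_empty, Finset.sum_empty]
      have := act_sub B B' (0 : V n) 0
      simpa using this
    | succ M ih =>
      rw [Finset.sum_range_succ, Finset.sum_range_succ, act_add, ih, act_act, ← pow_succ',
        ← pow_succ]
  rw [hz, act_smul, hs, ← smul_sub, ← Finset.sum_sub_distrib, Finset.sum_range_sub', pow_zero,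
    pow_zero, act_one, hN, hN', act_neg_qd, sub_neg_eq_add, ← two_smul ℂ, smul_smul]
  norm_num

theorem wp_RR (T : Fin 4 → Mat n) (hT : ∀ k, T k * T k = 1) (N : ℕ) (c2 : QC n)
    (p : ℂ × (QC n × QC n)) (k : Fin 4) :
    act (RR T k) (RR T k) (qd (wp T N c2 p k)) = -qd (wp T N c2 p k) := by
  obtain ⟨ε, θ2, θ3⟩ := p
  obtain ⟨h2, h3, h0, h1⟩ := wp_apply T N c2 ε θ2 θ3
  fin_cases k
  · change act (RR T 0) (RR T 0) (qd (wp T N c2 (ε, (θ2, θ3)) 0)) =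
      -qd (wp T N c2 (ε, (θ2, θ3)) 0)
    rw [h0]
    exact anti_of_sq _ (RR_sq T hT 0) _
  · change act (RR T 1) (RR T 1) (qd (wp T N c2 (ε, (θ2, θ3)) 1)) =
      -qd (wp T N c2 (ε, (θ2, θ3)) 1)
    rw [h1]
    exact anti_of_sq _ (RR_sq T hT 1) _
  · change act (RR T 2) (RR T 2) (qd (wp T N c2 (ε, (θ2, θ3)) 2)) =
      -qd (wp T N c2 (ε, (θ2, θ3)) 2)
    rw [h2]
    exact anti_of_sq _ (RR_sq T hT 2) _
  · change act (RR T 3) (RR T 3) (qd (wp T N c2 (ε, (θ2, θ3)) 3)) =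
      -qd (wp T N c2 (ε, (θ2, θ3)) 3)
    rw [h3]
    exact anti_of_sq _ (RR_sq T hT 3) _

theorem wp_sum (T : Fin 4 → Mat n) (hT : ∀ k, T k * T k = 1) (N : ℕ)
    (hN : (T 0 * T 1) ^ N = -1) (c2 : QC n) (p : ℂ × (QC n × QC n)) :
    qd (wp T N c2 p 0) + qd (wp T N c2 p 1) + qd (wp T N c2 p 2) + qd (wp T N c2 p 3) =
      p.1 • qd c2 := by
  obtain ⟨ε, θ2, θ3⟩ := p
  obtain ⟨h2, h3, h0, h1⟩ := wp_apply T N c2 ε θ2 θ3
  rw [h0, h1, h2, h3]
  set q := ε • c2 - (θ2 - gw (RR T 2) θ2) - (θ3 - gw (RR T 3) θ3) with hq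
  have h4 := zq_sub T hT N hN q
  have h5 : qd (gw (RR T 1) (gw (RR T 0) (zq T N q))) =
      act (T 0 * T 1) (T 1 * T 0) (qd (zq T N q)) := by
    have e1 : T 1 * T 0 = RR T 0 * RR T 1 := by
      have h6 := RR_one_zero T hT
      have h7 := (pow_pow_inv T hT 1).2
      rw [pow_one, pow_one] at h7
      have h8 : RR T 0 * RR T 1 * (T 0 * T 1) = 1 := by
        rw [← h6]
        calc RR T 0 * RR T 1 * (RR T 1 * RR T 0) = RR T 0 * (RR T 1 * RR T 1) * RR T 0 := by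
              simp only [mul_assoc]
          _ = 1 := by rw [RR_sq T hT, mul_one, RR_sq T hT]
      have h9 := (pow_pow_inv T hT 1).1
      rw [pow_one, pow_one] at h9
      calc T 1 * T 0 = RR T 0 * RR T 1 * (T 0 * T 1) * (T 1 * T 0) := by rw [h8, one_mul]
        _ = RR T 0 * RR T 1 * (T 0 * T 1 * (T 1 * T 0)) := by simp only [mul_assoc]
        _ = RR T 0 * RR T 1 := by rw [h9, mul_one]
    rw [← act_qd _ _ (RR_sq T hT 1), ← act_qd _ _ (RR_sq T hT 0), act_act, RR_one_zero T hT, ← e1]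
  calc qd (zq T N q - gw (RR T 0) (zq T N q)) +
        qd (gw (RR T 0) (zq T N q) - gw (RR T 1) (gw (RR T 0) (zq T N q))) +
        qd (θ2 - gw (RR T 2) θ2) + qd (θ3 - gw (RR T 3) θ3)
      = (qd (zq T N q) - qd (gw (RR T 1) (gw (RR T 0) (zq T N q)))) +
        qd (θ2 - gw (RR T 2) θ2) + qd (θ3 - gw (RR T 3) θ3) := by
        rw [map_sub qd (zq T N q), map_sub qd (gw (RR T 0) (zq T N q))]
        abel
    _ = qd q + qd (θ2 - gw (RR T 2) θ2) + qd (θ3 - gw (RR T 3) θ3) := by rw [h5, h4]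
    _ = qd (ε • c2) := by
        rw [hq, map_sub qd, map_sub qd]
        abel
    _ = ε • qd c2 := map_smul _ _ _

end Pool.Agent.MOB
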