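import Pool.Agent.MOB.Bas
import Pool.Agent.MOB.Par

/-!
# MOB/Xkf: the fields `2 u_k - g + T_k.g` near the base

Proof. `v = bs T a2 a3 y w`, `v_k = pj (mu k) + qd (w k)`, `g = gg T N v = ∑_{j<N} B^j.(v_0 + v_1)`.
The projective part: `pj (mu 0 + mu 1) = pj y - B.pj y` (`mu_zero_one`, `act_pj`), so
`∑_{j<N} B^j.(pj y - B.pj y) = pj y - B^N.pj y = 2 pj y` (telescoping, `act_neg_pj`), and
`u_2 = pj (a2 + y - y T_2)` (`uu` of `pj (mu 2)`, `mu 2 = (a2 + y - y T_2) S_2⁻¹`), so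
`2 u_2 - 2 pj y + 2 T_2.pj y = 2 pj a2`; same for `k = 3`. The quadratic part is `2 qd b_k`,
`b_k = gw (SI T k) (w k) - (1/2) (q - gw (T k) q)`, `q = ∑_{j<N} gw (B)^j (w 0 + w 1)`
(`qd_gw_pow`), a linear function of `w`, so bounded by `K` times the norm.
-/

namespace Pool.Agent.MOB

open MvPowerSeries Pool.Agent.RevMaps Pool.Agent.INV5

variable {n : ℕ}

variable {A : Mat n} {T : Fin 4 → Mat n} {N : ℕ} {a2 a3 y : Fin n → ℂ}

/-- the geometric sum on quadratic coefficients -/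
noncomputable def qs (T : Fin 4 → Mat n) (N : ℕ) : (Fin 4 → QC n) →ₗ[ℂ] QC n :=
  (∑ j ∈ Finset.range N, gw (T 0 * T 1) ^ j) ∘ₗ
    (LinearMap.proj (R := ℂ) (φ := fun _ : Fin 4 => QC n) 0 +
      LinearMap.proj (R := ℂ) (φ := fun _ : Fin 4 => QC n) 1)

/-- the linear map `w ↦ b_k` -/
noncomputable def bk (T : Fin 4 → Mat n) (N : ℕ) (k : Fin 4) : (Fin 4 → QC n) →ₗ[ℂ] QC n :=
  gw (SI T k) ∘ₗ LinearMap.proj (R := ℂ) (φ := fun _ : Fin 4 => QC n) k - (1 / 2 : ℂ) • ((LinearMap.id - gw (T k)) ∘ₗ qs T N)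

theorem act_sum_range (S S' : Mat n) (f : ℕ → V n) (M : ℕ) :
    act S S' (∑ j ∈ Finset.range M, f j) = ∑ j ∈ Finset.range M, act S S' (f j) := by
  induction M with
  | zero =>
    rw [Finset.range_zero, Finset.sum_empty, Finset.sum_empty]
    have := act_sub S S' (0 : V n) 0
    simpa using this
  | succ M ih => rw [Finset.sum_range_succ, Finset.sum_range_succ, act_add, ih]

/-- the field `g` -/
theorem gg_bs (h : IsDat A T N a2 a3 y) (w : Fin 4 → QC n) :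
    gg T N (bs T a2 a3 y w) = (2 : ℂ) • pj y + qd (qs T N w) := by
  have hT := h.sq
  set B := T 0 * T 1 with hB
  set B' := T 1 * T 0 with hB'
  have hBB : B * B' = 1 := by
    have := (pow_pow_inv T hT 1).1
    rwa [pow_one, pow_one] at this
  have hN' : B' ^ N = -1 := by
    have h1 := (pow_pow_inv T hT N).1
    rw [← hB, ← hB', h.pow] at h1
    have h2 : -(B' ^ N) = 1 := by rw [← neg_one_mul]; exact h1
    rw [← h2, neg_neg]
  have hm : pj (mu T a2 a3 y 0) + pj (mu T a2 a3 y 1) = pj y - act B B' (pj y) := by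
    rw [← pj_add, mu_zero_one h, pj_sub, act_pj B B' hBB]
  have hv : bs T a2 a3 y w 0 + bs T a2 a3 y w 1 = (pj y - act B B' (pj y)) + qd (w 0 + w 1) := by
    rw [← hm, map_add]
    unfold bs
    abel
  have hq : qd (qs T N w) = ∑ j ∈ Finset.range N, act (B ^ j) (B' ^ j) (qd (w 0 + w 1)) := by
    have e1 : qs T N w = ∑ j ∈ Finset.range N, (gw B ^ j) (w 0 + w 1) := by
      unfold qs
      rw [LinearMap.comp_apply, LinearMap.sum_apply]
      rfl
    rw [e1, map_sum]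
    apply Finset.sum_congr rfl
    intro j _
    exact qd_gw_pow B B' hBB j _
  have hs : ∑ j ∈ Finset.range N, act (B ^ j) (B' ^ j) (pj y - act B B' (pj y)) =
      (2 : ℂ) • pj y := by
    have e : ∀ j ∈ Finset.range N, act (B ^ j) (B' ^ j) (pj y - act B B' (pj y)) =
        act (B ^ j) (B' ^ j) (pj y) - act (B ^ (j + 1)) (B' ^ (j + 1)) (pj y) := by
      intro j _
      rw [act_sub, act_act, ← pow_succ, ← pow_succ']
    rw [Finset.sum_congr rfl e, Finset.sum_range_sub', pow_zero, pow_zero, act_one, h.pow, hN',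
      act_neg_pj, sub_neg_eq_add, ← two_smul ℂ]
  unfold gg
  rw [hv, hq, ← hs, ← Finset.sum_add_distrib]
  apply Finset.sum_congr rfl
  intro j _
  rw [act_add]

/-- the field attached to an index `k` with `mu k = (a + y - y T_k) S_k⁻¹` -/
theorem xk_aux (h : IsDat A T N a2 a3 y) (w : Fin 4 → QC n) (k : Fin 4) (a : Fin n → ℂ)
    (hk : mu T a2 a3 y k = Matrix.vecMul (a + y - Matrix.vecMul y (T k)) (SI T k)) :
    (2 : ℂ) • uu T (bs T a2 a3 y w) k - gg T N (bs T a2 a3 y w) +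
          act (T k) (T k) (gg T N (bs T a2 a3 y w)) = (2 : ℂ) • (pj a + qd (bk T N k w)) := by
  have hT := h.sq
  have hu : uu T (bs T a2 a3 y w) k = pj (a + y - Matrix.vecMul y (T k)) +
      qd (gw (SI T k) (w k)) := by
    unfold uu bs
    rw [act_add, act_pj _ _ (SI_SS T hT k), act_qd _ _ (SI_SS T hT k), hk,
      Matrix.vecMul_vecMul, SI_SS T hT k, Matrix.vecMul_one]
  have hb : qd (bk T N k w) = qd (gw (SI T k) (w k)) -
      (1 / 2 : ℂ) • (qd (qs T N w) - qd (gw (T k) (qs T N w))) := by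
    have e : bk T N k w = gw (SI T k) (w k) -
        (1 / 2 : ℂ) • (qs T N w - gw (T k) (qs T N w)) := rfl
    rw [e, map_sub, map_smul, map_sub]
  rw [hu, hb, gg_bs h w, act_add, act_smul, act_pj _ _ (hT k), act_qd _ _ (hT k), pj_sub, pj_add]
  module

theorem xk (h : IsDat A T N a2 a3 y) :
    ∃ K : ℝ, 0 ≤ K ∧ ∀ (w : Fin 4 → QC n) (δ : ℝ), (∀ k, ‖w k‖ ≤ δ) →
      ∃ b2 b3 : QC n, ‖b2‖ ≤ K * δ ∧ ‖b3‖ ≤ K * δ ∧
        (2 : ℂ) • uu T (bs T a2 a3 y w) 2 - gg T N (bs T a2 a3 y w) +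
          act (T 2) (T 2) (gg T N (bs T a2 a3 y w)) = (2 : ℂ) • (pj a2 + qd b2) ∧
        (2 : ℂ) • uu T (bs T a2 a3 y w) 3 - gg T N (bs T a2 a3 y w) +
          act (T 3) (T 3) (gg T N (bs T a2 a3 y w)) = (2 : ℂ) • (pj a3 + qd b3) := by
  let G2 := LinearMap.toContinuousLinearMap (bk T N 2)
  let G3 := LinearMap.toContinuousLinearMap (bk T N 3)
  refine ⟨‖G2‖ + ‖G3‖, add_nonneg (norm_nonneg _) (norm_nonneg _), ?_⟩
  intro w δ hw
  have hδ : 0 ≤ δ := (norm_nonneg (w 0)).trans (hw 0)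
  have hwn : ‖w‖ ≤ δ := (pi_norm_le_iff_of_nonneg hδ).mpr hw
  refine ⟨bk T N 2 w, bk T N 3 w, ?_, ?_, xk_aux h w 2 a2 rfl, xk_aux h w 3 a3 rfl⟩
  · refine (G2.le_opNorm w).trans ?_
    exact mul_le_mul (le_add_of_nonneg_right (norm_nonneg _)) hwn (norm_nonneg _)
      (add_nonneg (norm_nonneg _) (norm_nonneg _))
  · refine (G3.le_opNorm w).trans ?_
    exact mul_le_mul (le_add_of_nonneg_left (norm_nonneg _)) hwn (norm_nonneg _)
      (add_nonneg (norm_nonneg _) (norm_nonneg _))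

end Pool.Agent.MOB
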