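import Pool.Agent.MOB.Zbb
import Pool.Agent.MOB.Xkf
import Pool.Agent.MOB.Neu

/-!
# MOB/Sta: solvability of the two-step linearised equation, uniformly in the order

Proof. `δ` from `neu`, `K` from `xk`, `η = δ / (K + 1)`. Let `v = bs T a2 a3 y w`, `Z = Zt v T e`,
`e` even. Every `a ∈ OV e` is `a = a1 + a2`, `a1 = (a - act (-1) (-1) a) / 2`,
`a2 = (a + act (-1) (-1) a) / 2`; `act (-1) (-1) a1 = -a1`, and `a2 ∈ OV (e + 1)` because
`act (-1) (-1)` multiplies the component of degree `d` by `(-1)^(d+1)`, which is `-1` for `d = e`.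
(`OV_even`: coefficients of `a.subst (-x)` are `(-1)^|m|` times those of `a`; or use
`INV5.pw_surj` and `INV5.pw_act` in degree `e`.)
So for `x_k` of `xk`: `br x_k a1 ∈ Z` (`br_mem`), `br x_k a2 ∈ OV (e + 2) ⊆ Z` (`Zt_of_OV`), so
`br (pj a_k + qd b_k) a ∈ Z`. `Z` is stable as needed by `Zt_act`. `neu` gives `OV (e + 1) ⊆ Z`.
Finally for `r ∈ OV e`: `r2 ∈ OV (e + 1) ⊆ Z`, `2 r1 + br g r1 ∈ Z` (`two_mem`) and
`br g r1 ∈ OV (e + 1) ⊆ Z`, so `r1 ∈ Z`.
-/

namespace Pool.Agent.MOB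

open MvPowerSeries Pool.Agent.RevMaps Pool.Agent.INV5

variable {n : ℕ}

variable {A : Mat n} {T : Fin 4 → Mat n} {N : ℕ} {a2 a3 y : Fin n → ℂ}

private theorem mulVec_kr_smul {e : ℕ} (he : Even e) (w : (Fin (e + 1) → Fin n) → ℂ) :
    pw n e w + act (-1) (-1) (pw n e w) = 0 := by
  funext i
  have h1 : act (-1) (-1) (pw n e w) i = ∑ q : Fin e → Fin n,
      w (Fin.snoc (α := fun _ => Fin n) q i) • (-(∏ m, (X (q m) : PS n))) := by
    show ∑ j, (-1 : Mat n) i j • ((∑ q : Fin e → Fin n,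
      w (Fin.snoc (α := fun _ => Fin n) q j) • ∏ m, (X (q m) : PS n)).subst
        (linMap (-1 : Mat n)).toFun) = _
    rw [Finset.sum_eq_single i]
    · rw [subst_sumC, Finset.smul_sum]
      refine Finset.sum_congr rfl fun q _ => ?_
      have h2 : (∏ m, (X (q m) : PS n)).subst (linMap (-1 : Mat n)).toFun =
          ∏ m, (X (q m) : PS n) := by
        rw [← coe_substAlgHom (R := ℂ) (linMap (-1 : Mat n)).hasSubst, map_prod,
          coe_substAlgHom]
        have h3 : ∀ j : Fin n, (X j : PS n).subst (linMap (-1 : Mat n)).toFun = -X j := by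
          intro j
          rw [subst_X_linMap]
          have h4 : (-1 : Mat n) j = -(Pi.single j 1 : Fin n → ℂ) := by
            funext k
            rw [Matrix.neg_apply, Pi.neg_apply, Matrix.one_apply, Pi.single_apply]
            by_cases h : j = k
            · subst h; simp
            · simp [h, Ne.symm h]
          rw [h4, ← neg_one_smul ℂ, ell_smul, ell_single, neg_one_smul]
        simp only [h3]
        rw [Finset.prod_neg, Finset.card_univ, Fintype.card_fin, he.neg_one_pow, one_mul]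
      rw [subst_smulC, h2]
      simp
    · intro j _ hj
      rw [Matrix.neg_apply, Matrix.one_apply_ne (Ne.symm hj), neg_zero, zero_smul]
    · intro h; exact absurd (Finset.mem_univ _) h
  rw [Pi.add_apply, h1]
  show ∑ q : Fin e → Fin n, w (Fin.snoc (α := fun _ => Fin n) q i) • ∏ m, (X (q m) : PS n) + _ = _
  rw [← Finset.sum_add_distrib]
  simp

theorem OV_even {e : ℕ} (he : Even e) {a : V n} (ha : OV e a) :
    OV (e + 1) (a + act (-1) (-1) a) := by
  obtain ⟨w, hw⟩ := pw_surj n e a ha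
  have h1 := hw.add (hw.act (-1) (-1))
  have h2 : a - pw n e w + act (-1) (-1) (a - pw n e w) = a + act (-1) (-1) a := by
    rw [act_sub]
    have h3 := mulVec_kr_smul he w
    have h4 : a - pw n e w + (act (-1) (-1) a - act (-1) (-1) (pw n e w)) =
      a + act (-1) (-1) a - (pw n e w + act (-1) (-1) (pw n e w)) := by abel
    rw [h4, h3, sub_zero]
  rwa [h2] at h1

theorem star (hn : 2 ≤ n) (h : IsDat A T N a2 a3 y) :
    ∃ η > (0 : ℝ), ∀ w : Fin 4 → QC n, (∀ k, ‖w k‖ < η) → ∀ e, 2 ≤ e → Even e →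
      ∀ r : V n, OV e r → r ∈ Zt (bs T a2 a3 y w) T e := by
  obtain ⟨δ, hδ, hneu⟩ := neu hn T h.sq a2 a3 h.gen
  obtain ⟨K, hK, hxk⟩ := xk h
  refine ⟨δ / (K + 1), by positivity, fun w hw e he hev => ?_⟩
  set v := bs T a2 a3 y w with hvdef
  have hv : ∀ k, OV 2 (v k) := fun k => (OV_pj _).add (OV_qd _)
  obtain ⟨b2, b3, hb2, hb3, hx2, hx3⟩ := hxk w (δ / (K + 1)) (fun k => (hw k).le)
  rw [← hvdef] at hx2 hx3
  have hKδ : K * (δ / (K + 1)) ≤ δ := by
    rw [mul_div_assoc', div_le_iff₀ (by positivity)]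
    nlinarith
  have hsplit : ∀ a : V n, OV e a → ∃ a1 a2' : V n, a = a1 + a2' ∧ OV e a1 ∧ OV (e + 1) a2' ∧
      act (-1) (-1) a1 = -a1 := by
    intro a ha
    refine ⟨(1 / 2 : ℂ) • (a - act (-1) (-1) a), (1 / 2 : ℂ) • (a + act (-1) (-1) a), ?_, ?_, ?_, ?_⟩
    · module
    · exact (ha.sub (ha.act _ _)).smul _
    · exact (OV_even hev ha).smul _
    · rw [act_smul, act_sub, act_act, neg_mul_neg, one_mul, act_one]
      module
  have hbr : ∀ (k : Fin 4) (x : V n), OV 2 x →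
      (2 : ℂ) • uu T v k - gg T N v + act (T k) (T k) (gg T N v) = (2 : ℂ) • x →
      ∀ a : V n, OV e a → br x a ∈ Zt v T e := by
    intro k x hx hk a ha
    obtain ⟨a1, a2', rfl, h1, h2, h3⟩ := hsplit a ha
    have m1 := br_mem T h.sq v hv h.pow h1 h3 k
    rw [hk, br_smul_left] at m1
    have m2 := (Zt v T e).smul_mem (1 / 2 : ℂ) m1
    rw [smul_smul, show (1 / 2 : ℂ) * 2 = 1 by norm_num, one_smul] at m2
    rw [br_add_right]
    exact (Zt v T e).add_mem m2 (Zt_of_OV v T e (OV_br hx h2 (by omega)))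
  have hhigh : ∀ r : V n, OV (e + 1) r → r ∈ Zt v T e := by
    refine hneu e he (Zt v T e) (fun r hr => Zt_of_OV v T e hr) ?_ b2 b3 (hb2.trans hKδ)
      (hb3.trans hKδ) (hbr 2 _ ((OV_pj _).add (OV_qd _)) hx2)
      (hbr 3 _ ((OV_pj _).add (OV_qd _)) hx3)
    intro k r hr hrZ
    have h1 := (Zt v T e).sub_mem hrZ (Zt_act T h.sq v hv k hr)
    rwa [sub_sub_cancel] at h1
  intro r hr
  obtain ⟨r1, r2, rfl, h1, h2, h3⟩ := hsplit r hr
  refine (Zt v T e).add_mem ?_ (hhigh r2 h2)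
  have m1 := two_mem T h.sq v hv h.pow h1 h3
  have m2 := hhigh _ (OV_br (OV_gg T N v hv) h1 (show e + 1 + 1 ≤ 2 + e by omega))
  have m3 := (Zt v T e).smul_mem (1 / 2 : ℂ) ((Zt v T e).sub_mem m1 m2)
  rwa [add_sub_cancel_right, smul_smul, show (1 / 2 : ℂ) * 2 = 1 by norm_num, one_smul] at m3

end Pool.Agent.MOB
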