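import Pool.Agent.MOB.Sto
import Pool.Agent.MOB.Sta
import Pool.Agent.MOB.Lim

/-!
# MOB/Fda: four involutions from the linear data

Proof. `η` from `star`, then `stage_one` gives `ε, w, τ`, `lift_all` for `dil ε f`
(`v = bs T a2 a3 y w`, `OV 2` by `OV_pj`, `OV_qd`), `undo_dil`.
-/

namespace Pool.Agent.MOB

open MvPowerSeries Pool.Agent.RevMaps Pool.Agent.INV5

variable {n : ℕ}

variable {A : Mat n} {T : Fin 4 → Mat n} {N : ℕ} {a2 a3 y : Fin n → ℂ}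

theorem four_of_data (hn : 2 ≤ n) (h : IsDat A T N a2 a3 y) (f : FMap n) (hf : lin f = A) :
    ∃ τ : Fin 4 → FMap n, (∀ k, τ k * τ k = 1) ∧ τ 0 * τ 1 * τ 2 * τ 3 = f := by
  obtain ⟨η, hη, hstar⟩ := star hn h
  obtain ⟨ε, hε, w, hw, τ, hτ, hJ, hp⟩ := stage_one hn h f hf η hη
  have hv : ∀ k, OV 2 (bs T a2 a3 y w k) := fun k => (OV_pj _).add (OV_qd _)
  obtain ⟨τ', hτ', hp'⟩ := lift_all T h.sq (bs T a2 a3 y w) hv (dil ε f) τ hτ hJ hp
    (fun e he hev r hr => hstar w hw e (by omega) hev r hr)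
  exact undo_dil hε f τ' hτ' hp'

end Pool.Agent.MOB
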