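import Pool.Agent.MOB.Prd
import Pool.Agent.MOB.Mat

/-!
# MOB/Fou: 3-jet of a product of four maps `(1 + u_k + (1/2) DD u_k u_k) T_k`

Let `E(u) = 1 + u + (1/2) DD u u`. Moving the matrices to the right,
`E(u_0) T_0 E(u_1) T_1 E(u_2) T_2 E(u_3) T_3 ≡ E(v_0) E(v_1) E(v_2) E(v_3) A`, with
`v_k = S_k.u_k` (`act_SS_uu`; `S E(u) S⁻¹ = E(S.u)` exactly, by `act_DD`; as for `mul_oneAdd`
but exact: `linMap S * oneAdd c h = oneAdd (act S S' c) h' * linMap S`). And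
`(1 + s + (1/2) DD s s + c)(1 + v + (1/2) DD v v) ≡
1 + (s + v) + (1/2) DD (s + v) (s + v) + (c + (1/2) br s v)` modulo order `4`, for quadratic `s`,
`v` and `c ∈ OV 3` (`oneAdd_mul_quad`, since `DD s v = (1/2) (DD s v + DD v s) + (1/2) br s v`).
Three applications give `c = cub4 v`.
-/

namespace Pool.Agent.MOB

open MvPowerSeries Pool.Agent.RevMaps Pool.Agent.INV5

variable {n : ℕ}

/-- exactly `S (1 + c) = (1 + S.c) S` -/
theorem fou_mul_oneAdd (S S' : Mat n) (h : S' * S = 1) (c d : V n) (hc1 : OV 1 c)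
    (hd1 : OV 1 d) (hd : act S S' c = d) :
    linMap S * oneAdd c hc1 = oneAdd d hd1 * linMap S := by
  apply FMap.ext
  intro i
  rw [oneAdd_mul, linMap_mul_toFun]
  have e1 : (oneAdd c hc1).toFun = (fun i => X i) + c := rfl
  rw [e1, mv_add, ← linMap_toFun]
  have e2 : sb (linMap S) d = mv S c := by
    rw [← hd, act, sb_mv, sb_sb, ← linMap_mul, h, linMap_one, sb_one]
  rw [e2]
  rfl

theorem fou_OV_half {u : V n} (hu : OV 2 u) : OV 3 ((1 / 2 : ℂ) • DD u u) :=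
  (OV_DD hu hu (by omega)).smul _

/-- one multiplication -/
theorem fou_step {s v c : V n} (hs : OV 2 s) (hv : OV 2 v) (hc : OV 3 c)
    (h1 : OV 1 (s + (1 / 2 : ℂ) • DD s s + c)) (h2 : OV 1 (v + (1 / 2 : ℂ) • DD v v))
    (h3 : OV 1 ((s + v) + (1 / 2 : ℂ) • DD (s + v) (s + v) + (c + (1 / 2 : ℂ) • br s v))) :
    EqM 4 (oneAdd (s + (1 / 2 : ℂ) • DD s s + c) h1 * oneAdd (v + (1 / 2 : ℂ) • DD v v) h2)
      (oneAdd ((s + v) + (1 / 2 : ℂ) • DD (s + v) (s + v) + (c + (1 / 2 : ℂ) • br s v)) h3) := by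
  have hss : OV 3 ((1 / 2 : ℂ) • DD s s) := fou_OV_half hs
  have hvv : OV 3 ((1 / 2 : ℂ) • DD v v) := fou_OV_half hv
  have ha : OV 2 (s + (1 / 2 : ℂ) • DD s s + c) :=
    (hs.add (hss.mono (by omega))).add (hc.mono (by omega))
  have hb : OV 2 (v + (1 / 2 : ℂ) • DD v v) := hv.add (hvv.mono (by omega))
  have hD : OV 3 (DD (s + (1 / 2 : ℂ) • DD s s + c) (v + (1 / 2 : ℂ) • DD v v)) :=
    OV_DD ha hb (by omega)
  refine (oneAdd_mul_quad _ _ h1 h2 ha hb ((h1.add h2).add (hD.mono (by omega)))).trans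
    (oneAdd_congr _ _ ?_)
  have e1 : DD (s + (1 / 2 : ℂ) • DD s s + c) (v + (1 / 2 : ℂ) • DD v v) =
      DD s v + (DD s ((1 / 2 : ℂ) • DD v v) +
        (DD ((1 / 2 : ℂ) • DD s s) (v + (1 / 2 : ℂ) • DD v v) +
          DD c (v + (1 / 2 : ℂ) • DD v v))) := by
    rw [DD_add_left, DD_add_left, DD_add_right s]
    abel
  have hR : OV 4 (DD s ((1 / 2 : ℂ) • DD v v) +
        (DD ((1 / 2 : ℂ) • DD s s) (v + (1 / 2 : ℂ) • DD v v) +
          DD c (v + (1 / 2 : ℂ) • DD v v))) :=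
    (OV_DD hs hvv (by omega)).add ((OV_DD hss hb (by omega)).add (OV_DD hc hb (by omega)))
  rw [e1]
  generalize DD s ((1 / 2 : ℂ) • DD v v) +
        (DD ((1 / 2 : ℂ) • DD s s) (v + (1 / 2 : ℂ) • DD v v) +
          DD c (v + (1 / 2 : ℂ) • DD v v)) = R at hR
  have e2 : DD (s + v) (s + v) = DD s s + DD s v + (DD v s + DD v v) := by
    rw [DD_add_left, DD_add_right, DD_add_right]
  rw [e2, br_eq_DD]
  have e3 : s + (1 / 2 : ℂ) • DD s s + c + (v + (1 / 2 : ℂ) • DD v v) + (DD s v + R) -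
      (s + v + (1 / 2 : ℂ) • (DD s s + DD s v + (DD v s + DD v v)) +
        (c + (1 / 2 : ℂ) • (DD s v - DD v s))) = R := by
    module
  rw [e3]
  exact hR

theorem four_jet (T : Fin 4 → Mat n) (hT : ∀ k, T k * T k = 1) (v : Fin 4 → V n)
    (hv : ∀ k, OV 2 (v k)) (τ : Fin 4 → FMap n)
    (hu1 : ∀ k, OV 1 (uu T v k + (1 / 2 : ℂ) • DD (uu T v k) (uu T v k)))
    (hτ : ∀ k, EqM 4 (τ k)
      (oneAdd (uu T v k + (1 / 2 : ℂ) • DD (uu T v k) (uu T v k)) (hu1 k) * linMap (T k)))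
    (s : V n) (hs : s = v 0 + v 1 + v 2 + v 3)
    (h1 : OV 1 (s + (1 / 2 : ℂ) • DD s s + cub4 v)) :
    EqM 4 (τ 0 * τ 1 * τ 2 * τ 3 * linMap (T 3 * T 2 * T 1 * T 0))
      (oneAdd (s + (1 / 2 : ℂ) • DD s s + cub4 v) h1) := by
  subst hs
  have hB1 : ∀ k, OV 1 (v k + (1 / 2 : ℂ) • DD (v k) (v k)) := fun k =>
    ((hv k).mono (by omega)).add ((fou_OV_half (hv k)).mono (by omega))
  have hAB : ∀ k, act (SS T k) (SI T k) (uu T v k + (1 / 2 : ℂ) • DD (uu T v k) (uu T v k)) =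
      v k + (1 / 2 : ℂ) • DD (v k) (v k) := by
    intro k
    rw [act_add, act_smul, act_DD _ _ (SS_SI T hT k), act_SS_uu T hT]
  -- the matrices move to the right
  have c0 : oneAdd (uu T v 0 + (1 / 2 : ℂ) • DD (uu T v 0) (uu T v 0)) (hu1 0) =
      oneAdd (v 0 + (1 / 2 : ℂ) • DD (v 0) (v 0)) (hB1 0) := by
    have h := fou_mul_oneAdd (SS T 0) (SI T 0) (SI_SS T hT 0) _ _ (hu1 0) (hB1 0) (hAB 0)
    have e : SS T 0 = 1 := rfl
    rw [e, linMap_one, one_mul, mul_one] at h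
    exact h
  have c1 : linMap (T 0) * oneAdd (uu T v 1 + (1 / 2 : ℂ) • DD (uu T v 1) (uu T v 1)) (hu1 1) =
      oneAdd (v 1 + (1 / 2 : ℂ) • DD (v 1) (v 1)) (hB1 1) * linMap (T 0) :=
    fou_mul_oneAdd (SS T 1) (SI T 1) (SI_SS T hT 1) _ _ (hu1 1) (hB1 1) (hAB 1)
  have c2 : linMap (T 0) * linMap (T 1) *
        oneAdd (uu T v 2 + (1 / 2 : ℂ) • DD (uu T v 2) (uu T v 2)) (hu1 2) =
      oneAdd (v 2 + (1 / 2 : ℂ) • DD (v 2) (v 2)) (hB1 2) * (linMap (T 0) * linMap (T 1)) := by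
    rw [← linMap_mul]
    exact fou_mul_oneAdd (SS T 2) (SI T 2) (SI_SS T hT 2) _ _ (hu1 2) (hB1 2) (hAB 2)
  have c3 : linMap (T 0) * linMap (T 1) * linMap (T 2) *
        oneAdd (uu T v 3 + (1 / 2 : ℂ) • DD (uu T v 3) (uu T v 3)) (hu1 3) =
      oneAdd (v 3 + (1 / 2 : ℂ) • DD (v 3) (v 3)) (hB1 3) *
        (linMap (T 0) * linMap (T 1) * linMap (T 2)) := by
    rw [← linMap_mul, ← linMap_mul]
    exact fou_mul_oneAdd (SS T 3) (SI T 3) (SI_SS T hT 3) _ _ (hu1 3) (hB1 3) (hAB 3)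
  have c4 : linMap (T 0) * linMap (T 1) * linMap (T 2) * linMap (T 3) *
      linMap (T 3 * T 2 * T 1 * T 0) = 1 := by
    rw [← linMap_mul, ← linMap_mul, ← linMap_mul, ← linMap_mul, (prod_inv T hT).1, linMap_one]
  have hE : EqM 4 (τ 0 * τ 1 * τ 2 * τ 3 * linMap (T 3 * T 2 * T 1 * T 0))
      (oneAdd (v 0 + (1 / 2 : ℂ) • DD (v 0) (v 0)) (hB1 0) *
        oneAdd (v 1 + (1 / 2 : ℂ) • DD (v 1) (v 1)) (hB1 1) *
        oneAdd (v 2 + (1 / 2 : ℂ) • DD (v 2) (v 2)) (hB1 2) *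
        oneAdd (v 3 + (1 / 2 : ℂ) • DD (v 3) (v 3)) (hB1 3)) := by
    have h := ((((hτ 0).mul (hτ 1)).mul (hτ 2)).mul (hτ 3)).mul
      (EqM.refl 4 (linMap (T 3 * T 2 * T 1 * T 0)))
    rw [c0] at h
    generalize oneAdd (uu T v 1 + (1 / 2 : ℂ) • DD (uu T v 1) (uu T v 1)) (hu1 1) = A1 at h c1
    generalize oneAdd (uu T v 2 + (1 / 2 : ℂ) • DD (uu T v 2) (uu T v 2)) (hu1 2) = A2 at h c2
    generalize oneAdd (uu T v 3 + (1 / 2 : ℂ) • DD (uu T v 3) (uu T v 3)) (hu1 3) = A3 at h c3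
    generalize oneAdd (v 0 + (1 / 2 : ℂ) • DD (v 0) (v 0)) (hB1 0) = B0 at h ⊢
    generalize oneAdd (v 1 + (1 / 2 : ℂ) • DD (v 1) (v 1)) (hB1 1) = B1 at c1 ⊢
    generalize oneAdd (v 2 + (1 / 2 : ℂ) • DD (v 2) (v 2)) (hB1 2) = B2 at c2 ⊢
    generalize oneAdd (v 3 + (1 / 2 : ℂ) • DD (v 3) (v 3)) (hB1 3) = B3 at c3 ⊢
    generalize linMap (T 3 * T 2 * T 1 * T 0) = N at h c4 ⊢
    generalize linMap (T 0) = L0 at h c1 c2 c3 c4
    generalize linMap (T 1) = L1 at h c2 c3 c4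
    generalize linMap (T 2) = L2 at h c3 c4
    generalize linMap (T 3) = L3 at h c4
    have e : B0 * L0 * (A1 * L1) * (A2 * L2) * (A3 * L3) * N = B0 * B1 * B2 * B3 := by
      calc B0 * L0 * (A1 * L1) * (A2 * L2) * (A3 * L3) * N
          = B0 * (L0 * A1) * L1 * A2 * L2 * A3 * L3 * N := by simp only [mul_assoc]
        _ = B0 * (B1 * L0) * L1 * A2 * L2 * A3 * L3 * N := by rw [c1]
        _ = B0 * B1 * (L0 * L1 * A2) * L2 * A3 * L3 * N := by simp only [mul_assoc]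
        _ = B0 * B1 * (B2 * (L0 * L1)) * L2 * A3 * L3 * N := by rw [c2]
        _ = B0 * B1 * B2 * (L0 * L1 * L2 * A3) * L3 * N := by simp only [mul_assoc]
        _ = B0 * B1 * B2 * (B3 * (L0 * L1 * L2)) * L3 * N := by rw [c3]
        _ = B0 * B1 * B2 * B3 * (L0 * L1 * L2 * L3 * N) := by simp only [mul_assoc]
        _ = B0 * B1 * B2 * B3 := by rw [c4, mul_one]
    rwa [e] at h
  refine hE.trans ?_
  -- three multiplications
  have hC : ∀ {a b : V n}, OV 2 a → OV 2 b → OV 3 ((1 / 2 : ℂ) • br a b) := fun ha hb =>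
    (OV_br ha hb (by omega)).smul _
  have hc1 : OV 3 ((0 : V n) + (1 / 2 : ℂ) • br (v 0) (v 1)) :=
    (show OV 3 (0 : V n) from fun i => O_of_zero _).add (hC (hv 0) (hv 1))
  have hv01 : OV 2 (v 0 + v 1) := (hv 0).add (hv 1)
  have hc2 : OV 3 ((0 : V n) + (1 / 2 : ℂ) • br (v 0) (v 1) + (1 / 2 : ℂ) • br (v 0 + v 1) (v 2)) :=
    hc1.add (hC hv01 (hv 2))
  have hv012 : OV 2 (v 0 + v 1 + v 2) := hv01.add (hv 2)
  have hE0 : OV 1 (v 0 + (1 / 2 : ℂ) • DD (v 0) (v 0) + 0) := by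
    rw [add_zero]; exact hB1 0
  have hgen : ∀ {a c : V n}, OV 2 a → OV 3 c → OV 1 (a + (1 / 2 : ℂ) • DD a a + c) :=
    fun ha hc => ((ha.mono (by omega)).add ((fou_OV_half ha).mono (by omega))).add
      (hc.mono (by omega))
  have g1 := fou_step (hv 0) (hv 1) (show OV 3 (0 : V n) from fun i => O_of_zero _) hE0 (hB1 1)
    (hgen hv01 hc1)
  have g2 := fou_step hv01 (hv 2) hc1 (hgen hv01 hc1) (hB1 2) (hgen hv012 hc2)
  have hc3 : OV 3 ((0 : V n) + (1 / 2 : ℂ) • br (v 0) (v 1) + (1 / 2 : ℂ) • br (v 0 + v 1) (v 2) +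
      (1 / 2 : ℂ) • br (v 0 + v 1 + v 2) (v 3)) := hc2.add (hC hv012 (hv 3))
  have g3 := fou_step hv012 (hv 3) hc2 (hgen hv012 hc2) (hB1 3) (hgen (hv012.add (hv 3)) hc3)
  have e0 : oneAdd (v 0 + (1 / 2 : ℂ) • DD (v 0) (v 0)) (hB1 0) =
      oneAdd (v 0 + (1 / 2 : ℂ) • DD (v 0) (v 0) + 0) hE0 := by
    congr 1
    rw [add_zero]
  rw [e0]
  have g12 := (((g1.mul (EqM.refl 4 _)).trans g2).mul (EqM.refl 4 _)).trans g3
  refine g12.trans (oneAdd_congr _ _ ?_)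
  have e5 : v 0 + v 1 + v 2 + v 3 + (1 / 2 : ℂ) • DD (v 0 + v 1 + v 2 + v 3)
        (v 0 + v 1 + v 2 + v 3) +
      ((0 : V n) + (1 / 2 : ℂ) • br (v 0) (v 1) + (1 / 2 : ℂ) • br (v 0 + v 1) (v 2) +
        (1 / 2 : ℂ) • br (v 0 + v 1 + v 2) (v 3)) -
      (v 0 + v 1 + v 2 + v 3 + (1 / 2 : ℂ) • DD (v 0 + v 1 + v 2 + v 3)
        (v 0 + v 1 + v 2 + v 3) + cub4 v) = 0 := by
    rw [cub4]
    simp only [br_add_left]
    module
  rw [e5]
  exact fun i => O_of_zero _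

end Pool.Agent.MOB
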