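import Pool.Agent.MOB.Inv
import Pool.Agent.MOB.Fou
import Pool.Agent.MOB.Dil

/-!
# MOB/Feq: from the cubic equation to involutions with the right 3-jet

Proof. Put `u_k = uu T v k`, `T_k.u_k = -u_k` (`act_uu`). Take the involutions `σ_k` of `inv_jet`. By
`four_jet`, `P A' ≡ 1 + s + (1/2) DD s s + cub4 v` modulo order `4`, where `P = σ_0 σ_1 σ_2 σ_3`,
`A' = T_3 T_2 T_1 T_0`, `s = ∑ v_k = ε • qd c2`. Hence modulo order `4`
`sb (linMap A') (dil ε f - P) ≡ ε^2 φ3 - (1/2) ε^2 DD (qd c2) (qd c2) - cub4 v`, which lies in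
`ZZ T 3` by hypothesis (`ZZ_of_OV` for the error). Also `P ≡ dil ε f` modulo order `3` (compose
with `A = A'⁻¹`). `lift_step_at` (`RevMaps/LiftConj.lean`) with `d = 3` gives `τ`, and
`EqM 3 (τ k) (σ k)` keeps the 2-jets (`Jet2_of_EqM`).
-/

namespace Pool.Agent.MOB

open MvPowerSeries Pool.Agent.RevMaps Pool.Agent.INV5

variable {n : ℕ}

theorem from_eq (T : Fin 4 → Mat n) (hT : ∀ k, T k * T k = 1) (f : FMap n)
    (hf : lin f = T 0 * T 1 * T 2 * T 3) {ε : ℂ} (hε : ε ≠ 0) (c2 : QC n) (φ3 : V n)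
    (hφ : OV 3 φ3)
    (hjet : ∀ i, O 4 ((dil ε f * linMap (T 3 * T 2 * T 1 * T 0)).toFun i -
      (X i + ε • qd c2 i + ε ^ 2 • φ3 i)))
    (v : Fin 4 → V n) (hv : ∀ k, OV 2 (v k)) (hR : ∀ k, act (RR T k) (RR T k) (v k) = -v k)
    (hs : v 0 + v 1 + v 2 + v 3 = ε • qd c2)
    (hZ : ε ^ 2 • (φ3 - (1 / 2 : ℂ) • DD (qd c2) (qd c2)) - cub4 v ∈ ZZ T 3) :
    ∃ τ : Fin 4 → FMap n, (∀ k, τ k * τ k = 1) ∧ (∀ k, Jet2 (τ k) (uu T v k) (T k)) ∧
      EqM 4 (τ 0 * τ 1 * τ 2 * τ 3) (dil ε f) := by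
  classical
  set A' : Mat n := T 3 * T 2 * T 1 * T 0 with hA'
  set A : Mat n := T 0 * T 1 * T 2 * T 3 with hA
  have hu : ∀ k, OV 2 (uu T v k) := fun k => (hv k).act _ _
  have hTu : ∀ k, act (T k) (T k) (uu T v k) = -uu T v k := fun k => act_uu T hT v k (hR k)
  have hDu : ∀ k, OV 3 (DD (uu T v k) (uu T v k)) := fun k => OV_DD (hu k) (hu k) (by norm_num)
  have hu1 : ∀ k, OV 1 (uu T v k + (1 / 2 : ℂ) • DD (uu T v k) (uu T v k)) := fun k =>
    ((hu k).mono (by norm_num)).add (((hDu k).smul _).mono (by norm_num))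
  have hinv := fun k => inv_jet (T k) (hT k) (uu T v k) (hu k) (hTu k) (hu1 k)
  choose σ hσ1 hσ2 hσ3 using hinv
  have hlin : ∀ k, lin (σ k) = T k := fun k => Jet2_lin (hu k) (hσ2 k)
  -- the quadratic and cubic parts
  have hq2 : OV 2 (ε • qd c2) := by
    rw [← hs]
    exact (((hv 0).add (hv 1)).add (hv 2)).add (hv 3)
  have hq2' : OV 2 (qd c2) := by
    have h := hq2.smul ε⁻¹
    rwa [smul_smul, inv_mul_cancel₀ hε, one_smul] at h
  have hDD : OV 3 (DD (ε • qd c2) (ε • qd c2)) := OV_DD hq2 hq2 (by norm_num)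
  have hbr : ∀ j k, OV 3 (br (v j) (v k)) := fun j k => OV_br (hv j) (hv k) (by norm_num)
  have hcub : OV 3 (cub4 v) := by
    unfold cub4
    exact ((((((hbr 0 1).add (hbr 0 2)).add (hbr 0 3)).add (hbr 1 2)).add (hbr 1 3)).add
      (hbr 2 3)).smul _
  have h1 : OV 1 (ε • qd c2 + (1 / 2 : ℂ) • DD (ε • qd c2) (ε • qd c2) + cub4 v) :=
    ((hq2.mono (by norm_num)).add ((hDD.smul _).mono (by norm_num))).add (hcub.mono (by norm_num))
  have hfour := four_jet T hT v hv σ hu1 hσ3 (ε • qd c2) hs.symm h1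
  rw [← hA'] at hfour
  set P : FMap n := σ 0 * σ 1 * σ 2 * σ 3 with hP
  set c : V n := (1 / 2 : ℂ) • DD (ε • qd c2) (ε • qd c2) + cub4 v with hc
  have hc3 : OV 3 c := (hDD.smul _).add hcub
  have hPi : ∀ i, O 4 ((P * linMap A').toFun i - (X i + ε • qd c2 i + c i)) := by
    intro i
    have h := hfour i
    have e : (oneAdd (ε • qd c2 + (1 / 2 : ℂ) • DD (ε • qd c2) (ε • qd c2) + cub4 v) h1).toFun i =
        X i + ε • qd c2 i + c i := by
      have e1 := oneAdd_mul (ε • qd c2 + (1 / 2 : ℂ) • DD (ε • qd c2) (ε • qd c2) + cub4 v) h1 1 i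
      rw [mul_one, sb_one, FMap.one_def] at e1
      rw [e1, hc]
      simp only [Pi.add_apply, Pi.smul_apply]
      ring
    rwa [e] at h
  -- the difference
  have hdiff : ∀ i, O 4 (((dil ε f * linMap A').toFun i - (P * linMap A').toFun i) -
      (ε ^ 2 • φ3 i - c i)) := by
    intro i
    have h := (hjet i).sub (hPi i)
    have e : (dil ε f * linMap A').toFun i - (X i + ε • qd c2 i + ε ^ 2 • φ3 i) -
        ((P * linMap A').toFun i - (X i + ε • qd c2 i + c i)) =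
        ((dil ε f * linMap A').toFun i - (P * linMap A').toFun i) - (ε ^ 2 • φ3 i - c i) := by
      ring
    rwa [e] at h
  have hEq3 : EqM 3 (P * linMap A') (dil ε f * linMap A') := by
    intro i
    have h2 : O 3 (ε ^ 2 • φ3 i - c i) := ((hφ i).smul _).sub (hc3 i)
    have h3 := ((hdiff i).mono (by norm_num : 3 ≤ 4)).add h2
    rw [sub_add_cancel] at h3
    exact h3.symm_sub
  have hAA : A' * A = 1 := (prod_inv T hT).2
  have hcancel : ∀ g : FMap n, g * linMap A' * linMap A = g := by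
    intro g
    rw [mul_assoc, ← linMap_mul, hAA, linMap_one, mul_one]
  have hEq3' : EqM 3 P (dil ε f) := by
    have h := hEq3.mul (EqM.refl 3 (linMap A))
    rwa [hcancel, hcancel] at h
  have hZZ : sb (linMap A') (fun i => (dil ε f).toFun i - P.toFun i) ∈ ZZ T 3 := by
    have e0 : (fun i => (dil ε f).toFun i - P.toFun i) = (dil ε f).toFun - P.toFun := rfl
    have e1 : sb (linMap A') (fun i => (dil ε f).toFun i - P.toFun i) =
        (dil ε f * linMap A').toFun - (P * linMap A').toFun := by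
      rw [e0, sb_sub, mul_toFun (dil ε f) (linMap A'), mul_toFun P (linMap A')]
    have e2 : ε ^ 2 • φ3 - c =
        ε ^ 2 • (φ3 - (1 / 2 : ℂ) • DD (qd c2) (qd c2)) - cub4 v := by
      rw [hc, DD_smul_left, DD_smul_right, smul_sub, smul_smul, smul_smul, smul_smul]
      have e3 : (1 / 2 : ℂ) * ε * ε = ε ^ 2 * (1 / 2) := by ring
      rw [e3]
      abel
    have e4 : (dil ε f * linMap A').toFun - (P * linMap A').toFun =
        (((dil ε f * linMap A').toFun - (P * linMap A').toFun) - (ε ^ 2 • φ3 - c)) +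
          (ε ^ 2 • φ3 - c) := by abel
    rw [e1, e4]
    refine (ZZ T 3).add_mem (ZZ_of_OV T 3 fun i => hdiff i) ?_
    rw [e2]
    exact hZ
  obtain ⟨τ, hτ1, hτ2, hτ3, hτ4⟩ := lift_step_at (d := 3) (by norm_num) T hT (dil ε f) σ hσ1 hlin
    hEq3' hZZ
  exact ⟨τ, hτ1, fun k => Jet2_of_EqM (le_refl 3) (hτ4 k) (hσ2 k), hτ3⟩

end Pool.Agent.MOB
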