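import Pool.Agent.MOB.Defs

/-!
# MOB/Tmk: the four linear involutions

Given `h : IsPair A B C Q Q' β γ σ σ'` put `P_σ` = permutation matrix of `σ` (`Mon σ 1`, or
`(1 : Mat n).submatrix σ id`; `σ` is an involution because `β` is injective and
`β i * β (σ i) = 1`), `T_0 = Q P_σ Q⁻¹`, `T_1 = T_0 B`, `T_2 = -Q' P_{σ'} Q'⁻¹`, `T_3 = T_2 C`.
`P_σ diag β P_σ = diag (β ∘ σ) = (diag β)⁻¹`, so `T_0 B T_0 = B⁻¹` and `T_1^2 = 1`; same for `T_3`.
`(T_0 T_1)^n = B^n = Q diag (β^n) Q⁻¹ = -1`. `fix`: if `γ j = 1` then `σ' j = j` (injectivity), so the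
column `j` of `Q'` has `T_2 v = -v`; the row `κ = ` row `j` of `Q'⁻¹` satisfies `κ T_2 = -κ`,
`κ T_3 = -κ`, `κ v = 1`.
-/

namespace Pool.Agent.MOB

open MvPowerSeries Pool.Agent.RevMaps Pool.Agent.INV5

variable {n : ℕ}

theorem tmk_core {B Q : Mat n} {β : Fin n → ℂ} {σ : Fin n → Fin n} (uQ : IsUnit Q.det)
    (eQ : B * Q = Q * Matrix.diagonal β) (inj : Function.Injective β)
    (inv : ∀ i, β i * β (σ i) = 1) :
    ∃ S : Mat n, S * S = 1 ∧ (S * B) * (S * B) = 1 ∧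
      ∀ j, σ j = j → S.mulVec (Q.col j) = Q.col j ∧
        Matrix.vecMul (Q⁻¹.row j) S = Q⁻¹.row j := by
  have hQ1 : Q * Q⁻¹ = 1 := Matrix.mul_nonsing_inv Q uQ
  have hQ2 : Q⁻¹ * Q = 1 := Matrix.nonsing_inv_mul Q uQ
  have hσ : ∀ i, σ (σ i) = i := by
    intro i
    apply inj
    have h1 := inv i
    have h2 := inv (σ i)
    have h3 : β (σ i) ≠ 0 := right_ne_zero_of_mul_eq_one h1
    have h4 : β (σ i) * (β (σ (σ i)) - β i) = 0 := by linear_combination h2 - h1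
    exact sub_eq_zero.1 ((mul_eq_zero.1 h4).resolve_left h3)
  obtain ⟨P, hP⟩ : ∃ P : Mat n, ∀ i j, P i j = if σ i = j then (1 : ℂ) else 0 :=
    ⟨Matrix.of fun i j => if σ i = j then (1 : ℂ) else 0, fun _ _ => rfl⟩
  have hPm : ∀ (M : Mat n) i k, (P * M) i k = M (σ i) k := by
    intro M i k
    rw [Matrix.mul_apply]
    simp [hP]
  have hPP : P * P = 1 := by
    ext i k
    rw [hPm, hP, hσ, Matrix.one_apply]
  have hPD : P * Matrix.diagonal β * (P * Matrix.diagonal β) = 1 := by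
    ext i k
    rw [Matrix.mul_assoc, hPm, ← Matrix.mul_assoc, Matrix.mul_diagonal, Matrix.diagonal_mul, hP, hσ,
      Matrix.one_apply]
    by_cases hik : i = k
    · subst hik
      rw [if_pos rfl, mul_one, mul_comm]
      exact inv i
    · rw [if_neg hik, mul_zero, zero_mul]
  have hB : B = Q * Matrix.diagonal β * Q⁻¹ := by
    rw [← eQ, Matrix.mul_assoc, hQ1, Matrix.mul_one]
  have hSB : Q * P * Q⁻¹ * B = Q * (P * Matrix.diagonal β) * Q⁻¹ := by
    rw [hB]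
    calc Q * P * Q⁻¹ * (Q * Matrix.diagonal β * Q⁻¹) =
        Q * P * (Q⁻¹ * Q) * Matrix.diagonal β * Q⁻¹ := by simp only [Matrix.mul_assoc]
      _ = Q * (P * Matrix.diagonal β) * Q⁻¹ := by
        rw [hQ2, Matrix.mul_one]
        simp only [Matrix.mul_assoc]
  refine ⟨Q * P * Q⁻¹, ?_, ?_, ?_⟩
  · calc Q * P * Q⁻¹ * (Q * P * Q⁻¹) = Q * P * (Q⁻¹ * Q) * P * Q⁻¹ := by
          simp only [Matrix.mul_assoc]
      _ = Q * (P * P) * Q⁻¹ := by
          rw [hQ2, Matrix.mul_one]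
          simp only [Matrix.mul_assoc]
      _ = 1 := by rw [hPP, Matrix.mul_one, hQ1]
  · rw [hSB]
    calc Q * (P * Matrix.diagonal β) * Q⁻¹ * (Q * (P * Matrix.diagonal β) * Q⁻¹) =
        Q * (P * Matrix.diagonal β) * (Q⁻¹ * Q) * (P * Matrix.diagonal β) * Q⁻¹ := by
          simp only [Matrix.mul_assoc]
      _ = Q * (P * Matrix.diagonal β * (P * Matrix.diagonal β)) * Q⁻¹ := by
          rw [hQ2, Matrix.mul_one]
          simp only [Matrix.mul_assoc]
      _ = 1 := by rw [hPD, Matrix.mul_one, hQ1]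
  · intro j hj
    constructor
    · have h1 : Q * P * Q⁻¹ * Q = Q * P := by rw [Matrix.mul_assoc, hQ2, Matrix.mul_one]
      have h2 : (Q * P * Q⁻¹).mulVec (Q.col j) = (Q * P * Q⁻¹ * Q).col j := by
        ext i
        rfl
      rw [h2, h1]
      ext i
      change (Q * P) i j = Q i j
      rw [Matrix.mul_apply, Finset.sum_eq_single j]
      · rw [hP, if_pos hj, mul_one]
      · intro k _ hk
        rw [hP, if_neg, mul_zero]
        intro h3
        apply hk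
        rw [← hσ k, h3, hj]
      · intro h3
        exact absurd (Finset.mem_univ j) h3
    · have h1 : Q⁻¹ * (Q * P * Q⁻¹) = P * Q⁻¹ := by
        rw [← Matrix.mul_assoc, ← Matrix.mul_assoc, hQ2, Matrix.one_mul]
      have h2 : Matrix.vecMul (Q⁻¹.row j) (Q * P * Q⁻¹) = (Q⁻¹ * (Q * P * Q⁻¹)).row j := by
        ext i
        rfl
      rw [h2, h1]
      ext i
      change (P * Q⁻¹) j i = Q⁻¹ j i
      rw [hPm, hj]

theorem exists_T {A B C Q Q' : Mat n} {β γ : Fin n → ℂ} {σ σ' : Fin n → Fin n}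
    (h : IsPair A B C Q Q' β γ σ σ') :
    ∃ T : Fin 4 → Mat n, (∀ k, T k * T k = 1) ∧ T 0 * T 1 = B ∧ T 2 * T 3 = C ∧
      (T 0 * T 1) ^ n = -1 ∧
      ∀ j, γ j = 1 → (T 2).mulVec (Q'.col j) = -Q'.col j ∧
        ∃ κ : Fin n → ℂ, κ ⬝ᵥ Q'.col j = 1 ∧ Matrix.vecMul κ (T 2) = -κ ∧
          Matrix.vecMul κ (T 3) = -κ := by
  obtain ⟨S, hS1, hS2, _⟩ := tmk_core h.uQ h.eQ h.injβ h.invβ
  obtain ⟨S', hS1', hS2', hS3'⟩ := tmk_core h.uQ' h.eQ' h.injγ h.invγ
  have hT01 : S * (S * B) = B := by rw [← Matrix.mul_assoc, hS1, Matrix.one_mul]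
  have hT23 : -S' * (-S' * C) = C := by
    rw [← Matrix.mul_assoc, neg_mul_neg, hS1', Matrix.one_mul]
  have hpow : B ^ n = -1 := by
    have h1 : ∀ m : ℕ, B ^ m * Q = Q * Matrix.diagonal (fun i => β i ^ m) := by
      intro m
      induction m with
      | zero =>
        have : (Matrix.diagonal (fun i => β i ^ 0) : Mat n) = 1 := by
          simp
        rw [pow_zero, this, Matrix.one_mul, Matrix.mul_one]
      | succ m ih =>
        rw [pow_succ, Matrix.mul_assoc, h.eQ, ← Matrix.mul_assoc, ih, Matrix.mul_assoc,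
          Matrix.diagonal_mul_diagonal]
        rfl
    have h2 := h1 n
    have h3 : (Matrix.diagonal (fun i => β i ^ n) : Mat n) = -1 := by
      ext i j
      by_cases hij : i = j
      · subst hij
        simp [h.powβ]
      · simp [hij]
    rw [h3, mul_neg, Matrix.mul_one] at h2
    have hQ1 : Q * Q⁻¹ = 1 := Matrix.mul_nonsing_inv Q h.uQ
    calc B ^ n = B ^ n * Q * Q⁻¹ := by rw [Matrix.mul_assoc, hQ1, Matrix.mul_one]
      _ = -1 := by rw [h2, Matrix.neg_mul, hQ1]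
  refine ⟨![S, S * B, -S', -S' * C], ?_, ?_, ?_, ?_, ?_⟩
  · intro k
    fin_cases k
    · exact hS1
    · exact hS2
    · change -S' * -S' = 1
      rw [neg_mul_neg, hS1']
    · change -S' * C * (-S' * C) = 1
      rw [Matrix.neg_mul, neg_mul_neg, hS2']
  · exact hT01
  · exact hT23
  · change (S * (S * B)) ^ n = -1
    rw [hT01, hpow]
  · intro j hj
    have hσ : σ' j = j := by
      apply h.injγ
      have h1 := h.invγ j
      rw [hj, one_mul] at h1
      rw [h1, hj]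
    obtain ⟨h1, h2⟩ := hS3' j hσ
    have hQ2 : Q'⁻¹ * Q' = 1 := Matrix.nonsing_inv_mul Q' h.uQ'
    have hQ1 : Q' * Q'⁻¹ = 1 := Matrix.mul_nonsing_inv Q' h.uQ'
    refine ⟨?_, Q'⁻¹.row j, ?_, ?_, ?_⟩
    · change (-S').mulVec (Q'.col j) = -Q'.col j
      rw [Matrix.neg_mulVec, h1]
    · have h3 : Q'⁻¹.row j ⬝ᵥ Q'.col j = (Q'⁻¹ * Q') j j := rfl
      rw [h3, hQ2, Matrix.one_apply_eq]
    · change Matrix.vecMul (Q'⁻¹.row j) (-S') = -Q'⁻¹.row j
      rw [Matrix.vecMul_neg, h2]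
    · change Matrix.vecMul (Q'⁻¹.row j) (-S' * C) = -Q'⁻¹.row j
      rw [← Matrix.vecMul_vecMul, Matrix.vecMul_neg, h2, Matrix.neg_vecMul]
      congr 1
      have h4 : Q'⁻¹ * C = Matrix.diagonal γ * Q'⁻¹ := by
        calc Q'⁻¹ * C = Q'⁻¹ * (C * Q') * Q'⁻¹ := by
              rw [Matrix.mul_assoc, Matrix.mul_assoc, hQ1, Matrix.mul_one]
          _ = (Q'⁻¹ * Q') * Matrix.diagonal γ * Q'⁻¹ := by
              rw [h.eQ']
              simp only [Matrix.mul_assoc]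
          _ = Matrix.diagonal γ * Q'⁻¹ := by rw [hQ2, Matrix.one_mul]
      have h5 : Matrix.vecMul (Q'⁻¹.row j) C = (Q'⁻¹ * C).row j := by
        ext i
        rfl
      rw [h5, h4]
      ext i
      change (Matrix.diagonal γ * Q'⁻¹) j i = Q'⁻¹ j i
      rw [Matrix.diagonal_mul, hj, one_mul]

end Pool.Agent.MOB
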