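import Pool.Agent.MOB.Dua
import Pool.Agent.MOB.Tmk

/-!
# MOB/Lda: projective data from a factorisation `A = B C`

Proof. `T` from `exists_T`. Since `A` is invertible (`A = B C`, eigenvalues nonzero by `invβ`,
`invγ`) and `A Q_i ≠ Q_i`, also `A⁻¹ Q_i ≠ Q_i` (`Q_i = Q.col i`). Choose a row `z` with
`z (Q_i - A⁻¹ Q_i) ≠ 0` for all `i` (finitely many nonzero vectors: the finitely many proper subspaces
`{z | z ⬝ᵥ x_i = 0}` do not cover; e.g. a polynomial `z_j = t^j`, each condition excludes finitely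
many `t`, or `Subspace.biUnion_ne_univ_of_top_notMem`/`Submodule` versions).
`1 - B⁻¹` is invertible (eigenvalues `1 - β_i⁻¹ ≠ 0` as `β_i^n = -1`), let
`m (1 - B⁻¹) = z (1 - A⁻¹)`, `y = z - m`.
Let `κ = 0, t = 0` if `1` is not a value of `γ`; otherwise `γ j = 1`, `κ` as in `exists_T`, and `t` with
`2 m Q'_j + t ≠ 0`. Put `a2 = m - m T_2 + t κ`, `a3 = m - m T_3 + t κ`. Then `a2 T_2 = -a2`,
`a3 T_3 = -a3`, `a2 T_3 + a3 = m - m T_2 T_3 = m - m C`, and
`y (A - 1) = z (A - 1) - m (A - 1)`, where `z (A - 1) = z (1 - A⁻¹) A = m (1 - B⁻¹) B C =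
m (B - 1) C = m A - m C`; so `y (A - 1) = m - m C`: `rel`.
`gen`: let `W` be stable with `a2, a3 ∈ W`, use `top_of_annih`; more precisely let
`U = {u | ∀ w ∈ W, w ⬝ᵥ u = 0}`, a submodule stable under all `T k` (so under `B, C`). Suppose
`U ≠ ⊥`. On `U`: `a2 u = 0`, `a3 u = 0`, so `(m - m C) u = (a2 T_3 + a3) u = 0`. For a
column `Q'_j ∈ U`: `(1 - γ_j) m Q'_j = 0`; if `γ_j = 1`, then `0 = a2 Q'_j = 2 m Q'_j + t`,
contradiction with the choice of `t`; so `γ_j ≠ 1` and `m Q'_j = 0`. By `vanish_of_cols`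
(for `C, Q'`) `m` vanishes on `U`. By `exists_col_mem` (for `B, Q`) some `Q_i ∈ U`, and
`z (Q_i - A⁻¹ Q_i) = m (1 - B⁻¹) Q_i = (1 - β_i⁻¹) m Q_i = 0`, contradiction.
-/

namespace Pool.Agent.MOB

open MvPowerSeries Pool.Agent.RevMaps Pool.Agent.INV5

variable {n : ℕ}

theorem exists_generic (x : Fin n → (Fin n → ℂ)) (hx : ∀ i, x i ≠ 0) :
    ∃ z : Fin n → ℂ, ∀ i, z ⬝ᵥ x i ≠ 0 := by
  classical
  set p : Fin n → Polynomial ℂ := fun i => ∑ j : Fin n, Polynomial.C (x i j) * Polynomial.X ^ (j : ℕ)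
    with hp
  have hp0 : ∀ i, p i ≠ 0 := by
    intro i h0
    apply hx i
    funext j
    have h1 : (p i).coeff (j : ℕ) = x i j := by
      rw [hp]
      simp only [Polynomial.finsetSum_coeff, Polynomial.coeff_C_mul, Polynomial.coeff_X_pow]
      rw [Finset.sum_eq_single j]
      · simp
      · intro k _ hk
        rw [if_neg (fun h => hk (Fin.ext h).symm), mul_zero]
      · intro h
        exact absurd (Finset.mem_univ j) h
    rw [← h1, h0]
    simp
  have hprod : (∏ i, p i) ≠ 0 := Finset.prod_ne_zero_iff.2 (fun i _ => hp0 i)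
  obtain ⟨t, ht⟩ : ∃ t : ℂ, (∏ i, p i).eval t ≠ 0 := by
    by_contra hcon
    push Not at hcon
    exact hprod (Polynomial.funext (fun r => by rw [hcon r, Polynomial.eval_zero]))
  refine ⟨fun j => t ^ (j : ℕ), fun i => ?_⟩
  rw [Polynomial.eval_prod] at ht
  have h2 := Finset.prod_ne_zero_iff.1 ht i (Finset.mem_univ i)
  rw [hp] at h2
  simp only [Polynomial.eval_finsetSum, Polynomial.eval_mul, Polynomial.eval_C, Polynomial.eval_pow,
    Polynomial.eval_X] at h2
  rw [dotProduct]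
  intro h3
  apply h2
  rw [← h3]
  exact Finset.sum_congr rfl (fun j _ => mul_comm _ _)

/-- the annihilator of a space of rows -/
def ann (W : Submodule ℂ (Fin n → ℂ)) : Submodule ℂ (Fin n → ℂ) where
  carrier := {u | ∀ w ∈ W, w ⬝ᵥ u = 0}
  add_mem' := by
    intro u v hu hv w hw
    rw [dotProduct_add, hu w hw, hv w hw, add_zero]
  zero_mem' := fun w _ => dotProduct_zero w
  smul_mem' := by
    intro c u hu w hw
    rw [dotProduct_smul, hu w hw, smul_zero]

theorem data_of_pair {A B C Q Q' : Mat n} {β γ : Fin n → ℂ} {σ σ' : Fin n → Fin n}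
    (h : IsPair A B C Q Q' β γ σ σ') :
    ∃ (T : Fin 4 → Mat n) (a2 a3 y : Fin n → ℂ), IsDat A T n a2 a3 y := by
  obtain ⟨T, hTT, h01, h23, hpow, hfix⟩ := exists_T h
  have hA : T 0 * T 1 * T 2 * T 3 = A := by
    rw [Matrix.mul_assoc (T 0 * T 1), h23, h01, h.prod]
  -- inverses
  set Bi : Mat n := T 1 * T 0 with hBi
  set Ai : Mat n := T 3 * T 2 * Bi with hAi
  have hBiB : Bi * B = 1 := by
    rw [← h01, hBi]
    calc T 1 * T 0 * (T 0 * T 1) = T 1 * (T 0 * T 0) * T 1 := by simp only [Matrix.mul_assoc]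
      _ = 1 := by rw [hTT, Matrix.mul_one, hTT]
  have hCiC : T 3 * T 2 * C = 1 := by
    rw [← h23]
    calc T 3 * T 2 * (T 2 * T 3) = T 3 * (T 2 * T 2) * T 3 := by simp only [Matrix.mul_assoc]
      _ = 1 := by rw [hTT, Matrix.mul_one, hTT]
  have hAiA : Ai * A = 1 := by
    rw [← h.prod, hAi]
    calc T 3 * T 2 * Bi * (B * C) = T 3 * T 2 * (Bi * B) * C := by simp only [Matrix.mul_assoc]
      _ = 1 := by rw [hBiB, Matrix.mul_one, hCiC]
  have hAAi : A * Ai = 1 := mul_eq_one_comm.1 hAiA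
  have hx : ∀ i, Q.col i - Ai.mulVec (Q.col i) ≠ 0 := by
    intro i h0
    apply h.nofix i
    have h1 : Ai.mulVec (Q.col i) = Q.col i := (sub_eq_zero.1 h0).symm
    have h2 : A.mulVec (Ai.mulVec (Q.col i)) = Q.col i := by
      rw [Matrix.mulVec_mulVec, hAAi, Matrix.one_mulVec]
    rw [h1] at h2
    exact h2
  obtain ⟨z, hz⟩ := exists_generic _ hx
  have hβ0 : ∀ i, β i ≠ 0 := fun i => left_ne_zero_of_mul_eq_one (h.invβ i)
  have hn : ∀ i : Fin n, (1 : ℂ) - (β i)⁻¹ ≠ 0 := by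
    intro i h0
    have h1 : (β i)⁻¹ = 1 := (sub_eq_zero.1 h0).symm
    have h2 : β i = 1 := inv_eq_one.1 h1
    have h3 := h.powβ i
    rw [h2, one_pow] at h3
    norm_num at h3
  have hQ1 : Q * Q⁻¹ = 1 := Matrix.mul_nonsing_inv Q h.uQ
  have hQ2 : Q⁻¹ * Q = 1 := Matrix.nonsing_inv_mul Q h.uQ
  have hBiQ : Bi * Q = Q * Matrix.diagonal (fun i => (β i)⁻¹) := by
    have h1 : Matrix.diagonal β * Matrix.diagonal (fun i => (β i)⁻¹) = (1 : Mat n) := by
      rw [Matrix.diagonal_mul_diagonal, ← Matrix.diagonal_one]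
      congr 1
      funext i
      exact mul_inv_cancel₀ (hβ0 i)
    calc Bi * Q = Bi * (Q * (Matrix.diagonal β * Matrix.diagonal (fun i => (β i)⁻¹))) := by
          rw [h1, Matrix.mul_one]
      _ = Bi * (Q * Matrix.diagonal β) * Matrix.diagonal (fun i => (β i)⁻¹) := by
          simp only [Matrix.mul_assoc]
      _ = Bi * B * Q * Matrix.diagonal (fun i => (β i)⁻¹) := by
          rw [← h.eQ]
          simp only [Matrix.mul_assoc]
      _ = Q * Matrix.diagonal (fun i => (β i)⁻¹) := by rw [hBiB, Matrix.one_mul]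
  have hBicol : ∀ i, Bi.mulVec (Q.col i) = (β i)⁻¹ • Q.col i := by
    intro i
    have h1 : Bi.mulVec (Q.col i) = (Bi * Q).col i := by
      ext k
      rfl
    rw [h1, hBiQ]
    ext k
    change (Q * Matrix.diagonal (fun i => (β i)⁻¹)) k i = (β i)⁻¹ * Q k i
    rw [Matrix.mul_diagonal, mul_comm]
  -- the inverse of `1 - Bi`
  obtain ⟨m, hm⟩ : ∃ m : Fin n → ℂ, Matrix.vecMul m (1 - Bi) = Matrix.vecMul z (1 - Ai) := by
    set N : Mat n := Q * Matrix.diagonal (fun i => ((1 : ℂ) - (β i)⁻¹)⁻¹) * Q⁻¹ with hN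
    have h1 : (1 - Bi) * Q = Q * Matrix.diagonal (fun i => (1 : ℂ) - (β i)⁻¹) := by
      have h2 : (Matrix.diagonal (fun i => (1 : ℂ) - (β i)⁻¹) : Mat n) =
          1 - Matrix.diagonal (fun i => (β i)⁻¹) := by
        rw [← Matrix.diagonal_one, Matrix.diagonal_sub]
      rw [h2, Matrix.sub_mul, Matrix.one_mul, hBiQ, Matrix.mul_sub, Matrix.mul_one]
    have h2 : N * (1 - Bi) = 1 := by
      calc N * (1 - Bi) = N * ((1 - Bi) * Q) * Q⁻¹ := by
            rw [Matrix.mul_assoc N, Matrix.mul_assoc (1 - Bi), hQ1, Matrix.mul_one]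
        _ = Q * Matrix.diagonal (fun i => ((1 : ℂ) - (β i)⁻¹)⁻¹) * (Q⁻¹ * Q) *
              Matrix.diagonal (fun i => (1 : ℂ) - (β i)⁻¹) * Q⁻¹ := by
            rw [h1, hN]
            simp only [Matrix.mul_assoc]
        _ = Q * (Matrix.diagonal (fun i => ((1 : ℂ) - (β i)⁻¹)⁻¹) *
              Matrix.diagonal (fun i => (1 : ℂ) - (β i)⁻¹)) * Q⁻¹ := by
            rw [hQ2, Matrix.mul_one]
            simp only [Matrix.mul_assoc]
        _ = 1 := by
            rw [Matrix.diagonal_mul_diagonal]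
            have h3 : (Matrix.diagonal fun i => ((1 : ℂ) - (β i)⁻¹)⁻¹ * ((1 : ℂ) - (β i)⁻¹)) =
                (1 : Mat n) := by
              rw [← Matrix.diagonal_one]
              congr 1
              funext i
              exact inv_mul_cancel₀ (hn i)
            rw [h3, Matrix.mul_one, hQ1]
    refine ⟨Matrix.vecMul (Matrix.vecMul z (1 - Ai)) N, ?_⟩
    rw [Matrix.vecMul_vecMul, h2, Matrix.vecMul_one]
  have hmQ : ∀ i, m ⬝ᵥ Q.col i ≠ 0 := by
    intro i h0
    apply hz i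
    have h1 : z ⬝ᵥ (Q.col i - Ai.mulVec (Q.col i)) = Matrix.vecMul z (1 - Ai) ⬝ᵥ Q.col i := by
      rw [← Matrix.dotProduct_mulVec, Matrix.sub_mulVec, Matrix.one_mulVec]
    rw [h1, ← hm, ← Matrix.dotProduct_mulVec, Matrix.sub_mulVec, Matrix.one_mulVec, hBicol,
      dotProduct_sub, dotProduct_smul, h0]
    simp
  -- the correction
  obtain ⟨k0, hk2, hk3, hk⟩ : ∃ k0 : Fin n → ℂ, Matrix.vecMul k0 (T 2) = -k0 ∧
      Matrix.vecMul k0 (T 3) = -k0 ∧
      ∀ j, γ j = 1 → m ⬝ᵥ Q'.col j + m ⬝ᵥ Q'.col j + k0 ⬝ᵥ Q'.col j ≠ 0 := by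
    by_cases hex : ∃ j, γ j = 1
    · obtain ⟨j, hj⟩ := hex
      obtain ⟨-, κ, hκ1, hκ2, hκ3⟩ := hfix j hj
      have huniq : ∀ j', γ j' = 1 → j' = j := fun j' hj' => h.injγ (hj'.trans hj.symm)
      by_cases h0 : m ⬝ᵥ Q'.col j + m ⬝ᵥ Q'.col j = 0
      · refine ⟨κ, hκ2, hκ3, fun j' hj' => ?_⟩
        rw [huniq j' hj', h0, zero_add, hκ1]
        exact one_ne_zero
      · refine ⟨0, by simp, by simp, fun j' hj' => ?_⟩
        rw [huniq j' hj', zero_dotProduct, add_zero]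
        exact h0
    · refine ⟨0, by simp, by simp, fun j' hj' => ?_⟩
      exact absurd ⟨j', hj'⟩ hex
  set a2 : Fin n → ℂ := m - Matrix.vecMul m (T 2) + k0 with ha2
  set a3 : Fin n → ℂ := m - Matrix.vecMul m (T 3) + k0 with ha3
  have hmC : Matrix.vecMul a2 (T 3) + a3 = m - Matrix.vecMul m C := by
    rw [ha2, ha3, Matrix.add_vecMul, Matrix.sub_vecMul, hk3, Matrix.vecMul_vecMul, h23]
    abel
  refine ⟨T, a2, a3, z - m, ?_⟩
  refine ⟨hTT, hA, hpow, ?_, ?_, ?_, ?_⟩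
  · rw [ha2, Matrix.add_vecMul, Matrix.sub_vecMul, hk2, Matrix.vecMul_vecMul, hTT,
      Matrix.vecMul_one]
    abel
  · rw [ha3, Matrix.add_vecMul, Matrix.sub_vecMul, hk3, Matrix.vecMul_vecMul, hTT,
      Matrix.vecMul_one]
    abel
  · rw [hmC]
    have h1 : Matrix.vecMul z (A - 1) = Matrix.vecMul m A - Matrix.vecMul m C := by
      have h2 : (1 - Ai) * A = A - 1 := by rw [Matrix.sub_mul, Matrix.one_mul, hAiA]
      have h3 : (1 - Bi) * A = A - C := by
        rw [Matrix.sub_mul, Matrix.one_mul, ← h.prod, ← Matrix.mul_assoc Bi, hBiB, Matrix.one_mul]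
      rw [← h2, ← Matrix.vecMul_vecMul, ← hm, Matrix.vecMul_vecMul, h3, Matrix.vecMul_sub]
    rw [Matrix.sub_vecMul, h1, Matrix.vecMul_sub, Matrix.vecMul_one]
    abel
  · intro W hW hW2 hW3
    refine top_of_annih W (fun v hv => ?_)
    by_contra hv0
    have hU0 : ann W ≠ ⊥ := by
      intro h0
      have h1 : v ∈ ann W := hv
      rw [h0, Submodule.mem_bot] at h1
      exact hv0 h1
    have hUT : ∀ k, ∀ u ∈ ann W, (T k).mulVec u ∈ ann W := by
      intro k u hu w hw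
      rw [Matrix.dotProduct_mulVec]
      exact hu _ (hW k w hw)
    have hUB : ∀ u ∈ ann W, B.mulVec u ∈ ann W := by
      intro u hu
      rw [← h01, ← Matrix.mulVec_mulVec]
      exact hUT 0 _ (hUT 1 _ hu)
    have hUC : ∀ u ∈ ann W, C.mulVec u ∈ ann W := by
      intro u hu
      rw [← h23, ← Matrix.mulVec_mulVec]
      exact hUT 2 _ (hUT 3 _ hu)
    have hmCW : m - Matrix.vecMul m C ∈ W := by
      rw [← hmC]
      exact W.add_mem (hW 3 _ hW2) hW3
    have hCcol : ∀ j, C.mulVec (Q'.col j) = γ j • Q'.col j := by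
      intro j
      have h1 : C.mulVec (Q'.col j) = (C * Q').col j := by
        ext k
        rfl
      rw [h1, h.eQ']
      ext k
      change (Q' * Matrix.diagonal γ) k j = γ j * Q' k j
      rw [Matrix.mul_diagonal, mul_comm]
    have hmU : ∀ u ∈ ann W, m ⬝ᵥ u = 0 := by
      refine vanish_of_cols C Q' γ h.injγ h.uQ' h.eQ' (ann W) hUC m (fun j hj => ?_)
      have h1 := hj _ hmCW
      rw [sub_dotProduct, ← Matrix.dotProduct_mulVec, hCcol, dotProduct_smul, smul_eq_mul] at h1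
      have h2 : (1 - γ j) * (m ⬝ᵥ Q'.col j) = 0 := by linear_combination h1
      rcases mul_eq_zero.1 h2 with h3 | h3
      · exfalso
        have h4 : γ j = 1 := (sub_eq_zero.1 h3).symm
        apply hk j h4
        have h5 := hj _ hW2
        rw [ha2, add_dotProduct, sub_dotProduct, ← Matrix.dotProduct_mulVec, (hfix j h4).1,
          dotProduct_neg, sub_neg_eq_add] at h5
        exact h5
      · exact h3
    obtain ⟨i, hi⟩ := exists_col_mem B Q β h.injβ h.uQ h.eQ (ann W) hUB hU0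
    exact hmQ i (hmU _ hi)

end Pool.Agent.MOB
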