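import Pool.Agent.MOB.Sou
import Pool.Agent.MOB.Dgl
import Pool.Agent.MOB.Cho

/-!
# MOB/Nsc: non scalar matrices

Proof. `β` from `exists_beta`, `γ` from `exists_gamma` with `d = (-1)^n det A`; all nonzero;
`∏ β_i γ_i = (-1)^n (-1)^n det A = det A`. `sourour` (write `n = k + 1`): `A P = P L U`,
`B = P L P⁻¹`, `C = P U P⁻¹`; `Q = P Q_L`, `Q' = P Q_U` (`exists_diag_lower`, `exists_diag_upper`).
`nofix`: suppose `A (Q_i) = Q_i`, put `x = Q_L col i` (`L x = β_i x`, `x ≠ 0`). Then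
`L U x = x`, so `U x = β_i⁻¹ x` (apply `L⁻¹` : `L (U x) = x = β_i⁻¹ L x`, `L` invertible), so
`β_i⁻¹` is an eigenvalue of `U`, hence `= γ_j` for some `j` (`U Q_U = Q_U diag γ`, or the
characteristic polynomial), and `γ_j^n = β_i^(-n) = -1`, so `γ_j = -1`, `j = 0`, `β_i = -1`,
`i = ` last. By `last_eigen` `x` is a nonzero multiple of `e_last`; then the last entry of `U x = -x`
reads `γ_last x_last = -x_last`, so `γ_last = -1 = γ_0`, contradiction with injectivity and `n ≥ 2`.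
-/

namespace Pool.Agent.MOB

open MvPowerSeries Pool.Agent.RevMaps Pool.Agent.INV5

variable {n : ℕ}

/-- the columns of the diagonalising matrix are eigenvectors -/
private theorem col_eigen (L Q : Mat n) (β : Fin n → ℂ) (h : L * Q = Q * Matrix.diagonal β)
    (i : Fin n) : L.mulVec (Q.col i) = β i • Q.col i := by
  have h1 : L.mulVec (Q.mulVec (Pi.single i 1)) =
      Q.mulVec ((Matrix.diagonal β).mulVec (Pi.single i 1)) := by
    rw [Matrix.mulVec_mulVec, Matrix.mulVec_mulVec, h]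
  have h2 : (Matrix.diagonal β).mulVec (Pi.single i 1 : Fin n → ℂ) =
      β i • (Pi.single i 1 : Fin n → ℂ) := by
    funext j
    rw [Matrix.mulVec_diagonal, Pi.smul_apply, smul_eq_mul]
    by_cases hij : j = i
    · subst hij
      rfl
    · rw [Pi.single_eq_of_ne hij, mul_zero, mul_zero]
  rw [h2, Matrix.mulVec_smul, Matrix.mulVec_single_one] at h1
  exact h1

private theorem mulVec_inj (P : Mat n) (hP : IsUnit P.det) {x y : Fin n → ℂ}
    (h : P.mulVec x = P.mulVec y) : x = y := by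
  have h1 := congrArg (P⁻¹).mulVec h
  rw [Matrix.mulVec_mulVec, Matrix.mulVec_mulVec, Matrix.nonsing_inv_mul P hP, Matrix.one_mulVec,
    Matrix.one_mulVec] at h1
  exact h1

private theorem col_ne_zero (Q : Mat n) (hQ : IsUnit Q.det) (i : Fin n) : Q.col i ≠ 0 := by
  intro h
  have h1 : Q.mulVec (Pi.single i 1) = Q.mulVec 0 := by
    rw [Matrix.mulVec_single_one, h, Matrix.mulVec_zero]
  have h2 := congrFun (mulVec_inj Q hQ h1) i
  rw [Pi.single_eq_same, Pi.zero_apply] at h2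
  exact one_ne_zero h2

private theorem nsc_nofix (hn : 2 ≤ n) (L U QL QU : Mat n) (β γ : Fin n → ℂ)
    (hL : ∀ i j, i < j → L i j = 0) (hLd : ∀ i, L i i = β i)
    (hU : ∀ i j, j < i → U i j = 0) (hUd : ∀ i, U i i = γ i)
    (hβ : Function.Injective β) (hγ : Function.Injective γ)
    (hβn : ∀ i, β i ^ n = -1) (hlast : ∀ i, β i = -1 → ∀ j, j ≤ i)
    (hγn : ∀ i, γ i ^ n = -1 → γ i = -1 ∧ (i : ℕ) = 0)
    (hβ0 : ∀ i, β i ≠ 0)
    (hQL : IsUnit QL.det) (hLQ : L * QL = QL * Matrix.diagonal β)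
    (hQU : IsUnit QU.det) (hUQ : U * QU = QU * Matrix.diagonal γ) (i : Fin n)
    (h : L.mulVec (U.mulVec (QL.col i)) = QL.col i) : False := by
  set x := QL.col i with hx
  have hx0 : x ≠ 0 := col_ne_zero QL hQL i
  have hLx : L.mulVec x = β i • x := col_eigen L QL β hLQ i
  have hLdet : IsUnit L.det := by
    have h1 := congrArg Matrix.det hLQ
    rw [Matrix.det_mul, Matrix.det_mul, Matrix.det_diagonal, mul_comm] at h1
    have h2 : L.det = ∏ i, β i := mul_left_cancel₀ hQL.ne_zero h1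
    rw [h2]
    exact (Finset.prod_ne_zero_iff.2 fun i _ => hβ0 i).isUnit
  have hUx : U.mulVec x = (β i)⁻¹ • x := by
    apply mulVec_inj L hLdet
    rw [h, Matrix.mulVec_smul, hLx, smul_smul, inv_mul_cancel₀ (hβ0 i), one_smul]
  -- coordinates with respect to `QU`
  set y := (QU⁻¹).mulVec x with hy
  have hxy : QU.mulVec y = x := by
    rw [hy, Matrix.mulVec_mulVec, Matrix.mul_nonsing_inv QU hQU, Matrix.one_mulVec]
  have hy0 : y ≠ 0 := by
    intro h0
    apply hx0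
    rw [← hxy, h0, Matrix.mulVec_zero]
  have hyd : (Matrix.diagonal γ).mulVec y = (β i)⁻¹ • y := by
    apply mulVec_inj QU hQU
    rw [Matrix.mulVec_mulVec, ← hUQ, ← Matrix.mulVec_mulVec, hxy, Matrix.mulVec_smul, hxy, hUx]
  obtain ⟨j, hj⟩ := Function.ne_iff.1 hy0
  have hγj : γ j = (β i)⁻¹ := by
    have h1 := congrFun hyd j
    rw [Matrix.mulVec_diagonal, Pi.smul_apply, smul_eq_mul] at h1
    exact mul_right_cancel₀ hj h1
  have h2 : γ j ^ n = -1 := by
    rw [hγj, inv_pow, hβn i]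
    norm_num
  obtain ⟨h3, h4⟩ := hγn j h2
  have h5 : β i = -1 := by
    rw [h3] at hγj
    have h6 := congrArg (fun z : ℂ => z⁻¹) hγj
    simp only [inv_inv] at h6
    rw [← h6]
    norm_num
  have hl := hlast i h5
  have hz := last_eigen L β hL hLd hβ i hl x hLx
  have hxi : x i ≠ 0 := by
    intro h0
    apply hx0
    funext k
    by_cases hk : k = i
    · rw [hk, h0]
      rfl
    · exact hz k hk
  have h7 := congrFun hUx i
  have h8 : U.mulVec x i = γ i * x i := by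
    have h9 : U.mulVec x i = ∑ k, U i k * x k := rfl
    rw [h9, Finset.sum_eq_single i]
    · rw [hUd]
    · intro k _ hk
      rw [hz k hk, mul_zero]
    · intro hk
      exact absurd (Finset.mem_univ i) hk
  rw [h8, Pi.smul_apply, smul_eq_mul, ← hγj] at h7
  have h10 : γ i = γ j := mul_right_cancel₀ hxi h7
  have h11 : i = j := hγ h10
  have h12 := hl ⟨n - 1, by omega⟩
  rw [Fin.le_def, h11, h4] at h12
  have h13 : n - 1 ≤ 0 := h12
  omega

theorem pair_of_nonscalar (hn : 2 ≤ n) (A : Mat n) (hdet : A.det ^ 2 = 1)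
    (hA : ∀ c : ℂ, A ≠ c • (1 : Mat n)) :
    ∃ (B C Q Q' : Mat n) (β γ : Fin n → ℂ) (σ σ' : Fin n → Fin n),
      IsPair A B C Q Q' β γ σ σ' := by
  obtain ⟨k, rfl⟩ : ∃ k, n = k + 1 := ⟨n - 1, by omega⟩
  obtain ⟨β, σ, hβ, hβσ, hβn, hβp, hlast⟩ := exists_beta hn
  have hsq : ((-1 : ℂ) ^ (k + 1)) * (-1) ^ (k + 1) = 1 := by
    rw [← mul_pow]
    norm_num
  obtain ⟨γ, σ', hγ, hγσ, hγp, hγn⟩ := exists_gamma hn ((-1) ^ (k + 1) * A.det) (by
    rw [mul_pow, hdet, mul_one, pow_two, hsq])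
  have hβ0 : ∀ i, β i ≠ 0 := by
    intro i h
    have h1 := hβσ i
    rw [h, zero_mul] at h1
    exact zero_ne_one h1
  have hγ0 : ∀ i, γ i ≠ 0 := by
    intro i h
    have h1 := hγσ i
    rw [h, zero_mul] at h1
    exact zero_ne_one h1
  have hprod : A.det = ∏ i, β i * γ i := by
    rw [Finset.prod_mul_distrib, hβp, hγp, ← mul_assoc, hsq, one_mul]
  obtain ⟨P, L, U, hP, hAP, hL, hLd, hU, hUd⟩ := sourour k A β γ (Or.inr hA) hβ0 hγ0 hprod
  obtain ⟨QL, hQL, hLQ⟩ := exists_diag_lower L β hL hLd hβ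
  obtain ⟨QU, hQU, hUQ⟩ := exists_diag_upper U γ hU hUd hγ
  have hPP : P * P⁻¹ = 1 := Matrix.mul_nonsing_inv P hP
  have hP'P : P⁻¹ * P = 1 := Matrix.nonsing_inv_mul P hP
  refine ⟨P * L * P⁻¹, P * U * P⁻¹, P * QL, P * QU, β, γ, σ, σ', ?_⟩
  constructor
  · calc P * L * P⁻¹ * (P * U * P⁻¹) = P * L * (P⁻¹ * P) * U * P⁻¹ := by
          simp only [Matrix.mul_assoc]
      _ = P * (L * U) * P⁻¹ := by rw [hP'P, Matrix.mul_one, Matrix.mul_assoc P L U]
      _ = A := by rw [← hAP, Matrix.mul_assoc, hPP, Matrix.mul_one]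
  · rw [Matrix.det_mul]
    exact hP.mul hQL
  · rw [Matrix.det_mul]
    exact hP.mul hQU
  · calc P * L * P⁻¹ * (P * QL) = P * L * (P⁻¹ * P) * QL := by simp only [Matrix.mul_assoc]
      _ = P * (L * QL) := by rw [hP'P, Matrix.mul_one, Matrix.mul_assoc]
      _ = P * QL * Matrix.diagonal β := by rw [hLQ, Matrix.mul_assoc]
  · calc P * U * P⁻¹ * (P * QU) = P * U * (P⁻¹ * P) * QU := by simp only [Matrix.mul_assoc]
      _ = P * (U * QU) := by rw [hP'P, Matrix.mul_one, Matrix.mul_assoc]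
      _ = P * QU * Matrix.diagonal γ := by rw [hUQ, Matrix.mul_assoc]
  · exact hβ
  · exact hγ
  · exact hβσ
  · exact hγσ
  · exact hβn
  · intro i h
    have h1 : (P * QL).col i = P.mulVec (QL.col i) := by
      rw [← Matrix.mulVec_single_one, ← Matrix.mulVec_mulVec, Matrix.mulVec_single_one]
    rw [h1, Matrix.mulVec_mulVec, hAP, ← Matrix.mulVec_mulVec] at h
    have h2 := mulVec_inj P hP h
    rw [← Matrix.mulVec_mulVec] at h2
    exact nsc_nofix hn L U QL QU β γ hL hLd hU hUd hβ hγ hβn hlast hγn hβ0 hQL hLQ hQU hUQ i h2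

end Pool.Agent.MOB
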