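import Pool.Agent.MOB.Cho

/-!
# MOB/Sca: scalar matrices

`A = c`, `c ≠ 1`, `c^(2n) = 1`. Take `β, σ` from `exists_beta`, `Q = Q' = 1`, `B = diag β`,
`γ_j = c β_j⁻¹`, `C = diag γ`. `γ` is injective. `γ_i γ_j = 1` iff `β_j = c^2 β_i⁻¹`, and
`(c^2 β_i⁻¹)^n = c^(2n) (-1)⁻¹ = -1`, so it is a value of `β`, because `β` is injective with `n` values
among the `n`-th roots of `-1` (at most `n` roots of `X^n + 1`; e.g. the finset image of `β` equals
the roots, by cardinality, or the polynomial identity `∏ (X - β_i) = X^n + 1`). `nofix`: `c ≠ 1`.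
-/

namespace Pool.Agent.MOB

open MvPowerSeries Pool.Agent.RevMaps Pool.Agent.INV5

variable {n : ℕ}

private theorem exists_of_root (hn : 0 < n) (β : Fin n → ℂ) (hβ : Function.Injective β)
    (hpow : ∀ i, β i ^ n = -1) (z : ℂ) (hz : z ^ n = -1) : ∃ j, β j = z := by
  classical
  have h1 : Finset.univ.image β ⊆ (Polynomial.nthRoots n (-1 : ℂ)).toFinset := by
    intro x hx
    obtain ⟨i, _, rfl⟩ := Finset.mem_image.1 hx
    rw [Multiset.mem_toFinset, Polynomial.mem_nthRoots hn]
    exact hpow i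
  have h2 : (Polynomial.nthRoots n (-1 : ℂ)).toFinset.card ≤ (Finset.univ.image β).card := by
    rw [Finset.card_image_of_injective _ hβ, Finset.card_univ, Fintype.card_fin]
    exact (Multiset.toFinset_card_le _).trans (Polynomial.card_nthRoots n _)
  have h3 := Finset.eq_of_subset_of_card_le h1 h2
  have h4 : z ∈ (Polynomial.nthRoots n (-1 : ℂ)).toFinset := by
    rw [Multiset.mem_toFinset, Polynomial.mem_nthRoots hn]
    exact hz
  rw [← h3] at h4
  obtain ⟨j, _, hj⟩ := Finset.mem_image.1 h4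
  exact ⟨j, hj⟩

theorem pair_of_scalar (hn : 2 ≤ n) (c : ℂ) (hc : c ≠ 1) (hdet : (c • (1 : Mat n)).det ^ 2 = 1) :
    ∃ (B C Q Q' : Mat n) (β γ : Fin n → ℂ) (σ σ' : Fin n → Fin n),
      IsPair (c • (1 : Mat n)) B C Q Q' β γ σ σ' := by
  obtain ⟨β, σ, hβ, hβσ, hpow, -, -⟩ := exists_beta hn
  rw [Matrix.det_smul, Matrix.det_one, mul_one, Fintype.card_fin] at hdet
  have hc0 : c ≠ 0 := by
    rintro rfl
    rw [zero_pow (by omega : n ≠ 0), zero_pow two_ne_zero] at hdet
    exact zero_ne_one hdet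
  have hβ0 : ∀ i, β i ≠ 0 := by
    intro i h
    have h1 := hβσ i
    rw [h, zero_mul] at h1
    exact zero_ne_one h1
  have hex : ∀ i, ∃ j, β j = c ^ 2 * (β i)⁻¹ := by
    intro i
    refine exists_of_root (by omega) β hβ hpow _ ?_
    rw [mul_pow, inv_pow, hpow i, ← pow_mul, mul_comm 2 n, pow_mul, hdet]
    norm_num
  choose σ' hσ' using hex
  refine ⟨Matrix.diagonal β, Matrix.diagonal fun i => c * (β i)⁻¹, 1, 1, β,
    fun i => c * (β i)⁻¹, σ, σ', ?_⟩
  constructor
  · rw [Matrix.diagonal_mul_diagonal]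
    ext i j
    by_cases hij : i = j
    · subst hij
      simp only [Matrix.diagonal_apply_eq, Matrix.smul_apply, Matrix.one_apply_eq, smul_eq_mul,
        mul_one]
      field_simp [hβ0 i]
    · rw [Matrix.diagonal_apply_ne _ hij, Matrix.smul_apply, Matrix.one_apply_ne hij, smul_zero]
  · rw [Matrix.det_one]
    exact isUnit_one
  · rw [Matrix.det_one]
    exact isUnit_one
  · rw [Matrix.mul_one, Matrix.one_mul]
  · rw [Matrix.mul_one, Matrix.one_mul]
  · exact hβ
  · intro i j hij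
    apply hβ
    have h1 : c * (β i)⁻¹ = c * (β j)⁻¹ := hij
    exact inv_injective (mul_left_cancel₀ hc0 h1)
  · exact hβσ
  · intro i
    change c * (β i)⁻¹ * (c * (β (σ' i))⁻¹) = 1
    rw [hσ' i]
    have := hβ0 i
    field_simp
  · exact hpow
  · intro i h
    have h1 := congrFun h i
    rw [Matrix.smul_mulVec, Matrix.one_mulVec, Pi.smul_apply, smul_eq_mul] at h1
    have h2 : (1 : Mat n).col i i = 1 := Matrix.one_apply_eq i
    rw [h2, mul_one] at h1
    exact hc h1

end Pool.Agent.MOB
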