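import Pool.Agent.MOB.Fda
import Pool.Agent.MOB.Lda
import Pool.Agent.MOB.Nsc
import Pool.Agent.MOB.Sca

/-!
# MOB/Fst: the structural theorem

Proof. `A = lin f`. If `A = c • 1` then `c ≠ 1`, `pair_of_scalar`, otherwise `pair_of_nonscalar`. Then
`data_of_pair` and `four_of_data`.
-/

namespace Pool.Agent.MOB

open MvPowerSeries Pool.Agent.RevMaps Pool.Agent.INV5

variable {n : ℕ}

theorem struct_four (hn : 2 ≤ n) (f : FMap n) (hdet : (lin f).det ^ 2 = 1) (h1 : lin f ≠ 1) :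
    ∃ τ : Fin 4 → FMap n, (∀ k, τ k * τ k = 1) ∧ τ 0 * τ 1 * τ 2 * τ 3 = f := by
  have hpair : ∃ (B C Q Q' : Mat n) (β γ : Fin n → ℂ) (σ σ' : Fin n → Fin n),
      IsPair (lin f) B C Q Q' β γ σ σ' := by
    by_cases hc : ∃ c : ℂ, lin f = c • (1 : Mat n)
    · obtain ⟨c, hc⟩ := hc
      rw [hc] at h1 hdet ⊢
      exact pair_of_scalar hn c (fun h => h1 (by rw [h, one_smul])) hdet
    · exact pair_of_nonscalar hn (lin f) hdet (fun c h => hc ⟨c, h⟩)
  obtain ⟨B, C, Q, Q', β, γ, σ, σ', hp⟩ := hpair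
  obtain ⟨T, a2, a3, y, hd⟩ := data_of_pair hp
  exact four_of_data hn hd f rfl

end Pool.Agent.MOB
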