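import Pool.Agent.MOB.Fst
import Pool.Agent.RevMaps.Lower

/-!
# MOB/Hnd: consequences

`five_all`: if `lin f = 1`, multiply by the linear reflection `ρ = diag (-1, 1, ..., 1)` (an
involution with `lin (ρ f) = ρ ≠ 1`, determinant `-1`) and apply `struct_four`; if `lin f ≠ 1` use
`struct_four` and one more factor `1`.
-/

namespace Pool.Agent.MOB

open MvPowerSeries Pool.Agent.RevMaps Pool.Agent.INV5

variable {n : ℕ}

theorem five_all (hn : 2 ≤ n) (f : FMap n) (hdet : (lin f).det ^ 2 = 1) :
    ∃ τ : Fin 5 → FMap n, (∀ k, τ k * τ k = 1) ∧ τ 0 * τ 1 * τ 2 * τ 3 * τ 4 = f := by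
  by_cases h1 : lin f = 1
  · set d : Fin n → ℂ := fun i => if i = ⟨0, by omega⟩ then -1 else 1 with hd
    set D : Mat n := Matrix.diagonal d with hD
    have hdd : D * D = 1 := by
      rw [hD, Matrix.diagonal_mul_diagonal]
      rw [show (fun i => d i * d i) = fun _ => (1 : ℂ) from funext fun i => by
        simp only [hd]; split_ifs <;> norm_num]
      simp
    have hD1 : D ≠ 1 := by
      intro h
      have h2 := congrFun (congrFun h ⟨0, by omega⟩) ⟨0, by omega⟩
      rw [hD, Matrix.diagonal_apply_eq, Matrix.one_apply_eq, hd] at h2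
      norm_num at h2
    have hl : lin (linMap D * f) = D := by rw [lin_mul, lin_linMap, h1, mul_one]
    obtain ⟨τ, hτ, hp⟩ := struct_four hn (linMap D * f) (by
      rw [hl, sq, ← Matrix.det_mul, hdd, Matrix.det_one]) (by rw [hl]; exact hD1)
    have hDD : linMap D * linMap D = 1 := by rw [← linMap_mul, hdd, linMap_one]
    refine ⟨![linMap D, τ 0, τ 1, τ 2, τ 3], ?_, ?_⟩
    · intro k
      fin_cases k
      · exact hDD
      · exact hτ 0
      · exact hτ 1
      · exact hτ 2
      · exact hτ 3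
    · show linMap D * τ 0 * τ 1 * τ 2 * τ 3 = f
      calc linMap D * τ 0 * τ 1 * τ 2 * τ 3 = linMap D * (τ 0 * τ 1 * τ 2 * τ 3) := by
            simp only [mul_assoc]
        _ = f := by rw [hp, ← mul_assoc, hDD, one_mul]
  · obtain ⟨τ, hτ, hp⟩ := struct_four hn f hdet h1
    refine ⟨![1, τ 0, τ 1, τ 2, τ 3], ?_, ?_⟩
    · intro k
      fin_cases k
      · show (1 : FMap n) * 1 = 1
        rw [one_mul]
      · exact hτ 0
      · exact hτ 1
      · exact hτ 2
      · exact hτ 3
    · show (1 : FMap n) * τ 0 * τ 1 * τ 2 * τ 3 = f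
      rw [one_mul, hp]

end Pool.Agent.MOB
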