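import Pool.Agent.MOB.Jet
import Pool.Agent.MOB.Prd

/-!
# MOB/Inv: involutions with given 2-jet

`τ = (1 + u/2) T (1 + u/2)⁻¹` with `T.u = -u`. It is an involution, and
`τ = (1 + u/2) (T (1 + u/2)⁻¹ T⁻¹) T = (1 + u/2)(1 + T.u/2)⁻¹ T = (1 + u/2)(1 - u/2)⁻¹ T`.
With `a = u + (1/2) DD u u` one has `(1 + a)(1 - u/2) ≡ 1 + a - u/2 - (1/2) DD a u ≡ 1 + u/2`
modulo order `4`, so `(1 + u/2)(1 - u/2)⁻¹ ≡ 1 + u + (1/2) DD u u`.
For the 2-jet reduce modulo order `3`.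
-/

namespace Pool.Agent.MOB

open MvPowerSeries Pool.Agent.RevMaps Pool.Agent.INV5

variable {n : ℕ}

/-- `T (1 + c) = (1 + T.c) T` exactly, for an involution `T`. -/
theorem linMap_mul_oneAdd (T : Mat n) (hT : T * T = 1) (c c' : V n) (hc : OV 1 c) (hc' : OV 1 c')
    (h : act T T c = c') : linMap T * oneAdd c hc = oneAdd c' hc' * linMap T := by
  apply FMap.ext
  intro i
  rw [oneAdd_mul, linMap_mul_toFun]
  have h1 : (oneAdd c hc).toFun = (fun i => X i) + c := rfl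
  rw [h1, mv_add, ← linMap_toFun, Pi.add_apply]
  have h2 : sb (linMap T) c' = mv T c := by
    rw [← h, act, sb_mv, sb_sb, ← linMap_mul, hT, linMap_one, sb_one]
  rw [h2]

theorem inv_jet (T : Mat n) (hT : T * T = 1) (u : V n) (hu : OV 2 u) (hTu : act T T u = -u)
    (h1 : OV 1 (u + (1 / 2 : ℂ) • DD u u)) :
    ∃ τ : FMap n, τ * τ = 1 ∧ Jet2 τ u T ∧
      EqM 4 τ (oneAdd (u + (1 / 2 : ℂ) • DD u u) h1 * linMap T) := by
  have hh2 : OV 2 ((1 / 2 : ℂ) • u) := hu.smul _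
  have hh1 : OV 1 ((1 / 2 : ℂ) • u) := hh2.mono (by omega)
  have hm2 : OV 2 ((-(1 / 2) : ℂ) • u) := hu.smul _
  have hm1 : OV 1 ((-(1 / 2) : ℂ) • u) := hm2.mono (by omega)
  obtain ⟨w, hw⟩ := isUnit_oneAdd (le_refl 2) _ hh1 hh2
  obtain ⟨w', hw'⟩ := isUnit_oneAdd (le_refl 2) _ hm1 hm2
  have hLL : linMap T * linMap T = 1 := by rw [← linMap_mul, hT, linMap_one]
  have hDD3 : OV 3 (DD u u) := OV_DD hu hu (by omega)
  have ha2 : OV 2 (u + (1 / 2 : ℂ) • DD u u) := hu.add ((hDD3.mono (by omega)).smul _)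
  -- the involution
  have hEq : linMap T * (w : FMap n) = (w' : FMap n) * linMap T := by
    rw [hw, hw']
    apply linMap_mul_oneAdd T hT
    rw [act_smul, hTu, smul_neg, neg_smul]
  have hτ : (w : FMap n) * linMap T * ((w⁻¹ : (FMap n)ˣ) : FMap n) =
      (w : FMap n) * ((w'⁻¹ : (FMap n)ˣ) : FMap n) * linMap T := by
    have e : linMap T * ((w⁻¹ : (FMap n)ˣ) : FMap n) =
        ((w'⁻¹ : (FMap n)ˣ) : FMap n) * linMap T := by
      calc linMap T * ((w⁻¹ : (FMap n)ˣ) : FMap n)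
          = (((w'⁻¹ : (FMap n)ˣ) : FMap n) * (w' : FMap n)) *
              (linMap T * ((w⁻¹ : (FMap n)ˣ) : FMap n)) := by
            rw [w'.inv_mul, one_mul]
        _ = ((w'⁻¹ : (FMap n)ˣ) : FMap n) * ((w' : FMap n) * linMap T) *
              ((w⁻¹ : (FMap n)ˣ) : FMap n) := by simp only [mul_assoc]
        _ = ((w'⁻¹ : (FMap n)ˣ) : FMap n) * linMap T := by
            rw [← hEq, mul_assoc, mul_assoc, w.mul_inv, mul_one]
    rw [mul_assoc, e, mul_assoc]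
  have hE4 : EqM 4 ((w : FMap n) * linMap T * ((w⁻¹ : (FMap n)ˣ) : FMap n))
      (oneAdd (u + (1 / 2 : ℂ) • DD u u) h1 * linMap T) := by
    rw [hτ]
    refine EqM.mul ?_ (EqM.refl 4 _)
    -- `w ≡ (1 + a) w'`
    have hsum1 : OV 1 (u + (1 / 2 : ℂ) • DD u u + (-(1 / 2) : ℂ) • u +
        DD (u + (1 / 2 : ℂ) • DD u u) ((-(1 / 2) : ℂ) • u)) :=
      ((ha2.add hm2).mono (by omega)).add (OV_DD ha2 hm2 (by omega))
    have hq := oneAdd_mul_quad (u + (1 / 2 : ℂ) • DD u u) ((-(1 / 2) : ℂ) • u) h1 hm1 ha2 hm2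
      hsum1
    have hc : EqM 4 (oneAdd ((1 / 2 : ℂ) • u) hh1) (oneAdd _ hsum1) := by
      apply oneAdd_congr
      have e : (1 / 2 : ℂ) • u - (u + (1 / 2 : ℂ) • DD u u + (-(1 / 2) : ℂ) • u +
          DD (u + (1 / 2 : ℂ) • DD u u) ((-(1 / 2) : ℂ) • u)) =
          (1 / 4 : ℂ) • DD (DD u u) u := by
        rw [DD_add_left, DD_smul_left, DD_smul_right, DD_smul_right]
        module
      rw [e]
      exact (OV_DD hDD3 hu (by omega)).smul _
    have h3 : EqM 4 (w : FMap n) (oneAdd (u + (1 / 2 : ℂ) • DD u u) h1 * (w' : FMap n)) := by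
      rw [hw, hw']
      exact hc.trans hq.symm
    have h4 := h3.mul (EqM.refl 4 ((w'⁻¹ : (FMap n)ˣ) : FMap n))
    rwa [mul_assoc, w'.mul_inv, mul_one] at h4
  refine ⟨(w : FMap n) * linMap T * ((w⁻¹ : (FMap n)ˣ) : FMap n), ?_, ?_, hE4⟩
  · calc (w : FMap n) * linMap T * (w⁻¹ : (FMap n)ˣ) * (w * linMap T * (w⁻¹ : (FMap n)ˣ))
        = w * (linMap T * (((w⁻¹ : (FMap n)ˣ) * (w : FMap n)) * linMap T)) *
            (w⁻¹ : (FMap n)ˣ) := by
          simp only [mul_assoc]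
      _ = 1 := by rw [w.inv_mul, one_mul, hLL, mul_one, w.mul_inv]
  · intro i
    have h5 := (hE4 i).mono (show 3 ≤ 4 by omega)
    rw [oneAdd_mul, sb_add, sb_smul] at h5
    have h6 : O 3 (((1 / 2 : ℂ) • sb (linMap T) (DD u u)) i) := ((hDD3.sb (linMap T)).smul _) i
    have h7 := h5.add h6
    convert h7 using 1
    simp only [Pi.add_apply]
    ring

end Pool.Agent.MOB
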