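import Pool.Agent.MOB.Ddl

/-!
# MOB/Jet: 2-jets

`Jet2 g u S`: `g ≡ (1 + u) S` modulo order `3`, i.e. `g_i - (S_i + u_i ∘ S) ∈ O 3`.

Proofs. `Jet2_mul`: `g g' ≡ (1 + u) S (1 + u') S' = (1 + u)(1 + S.u') S S' ≡ (1 + u + S.u') S S'`
modulo order `3` (directly: `(g g')_i = g_i ∘ g'`; replace `g` by its 2-jet with `O_subst`, then
`g'` in the linear part of `g` exactly (`mv S`), in the quadratic part by its linear part
`S'` (`sb_lin`)). `Jet2_of_EqM`: triangle inequality. `Jet2_lin`: coefficients of degree one.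
-/

namespace Pool.Agent.MOB

open MvPowerSeries Pool.Agent.RevMaps Pool.Agent.INV5

variable {n : ℕ}

theorem Jet2_lin {g : FMap n} {u : V n} {S : Mat n} (hu : OV 2 u) (h : Jet2 g u S) :
    lin g = S := by
  have h1 : lin g = lin (linMap S) := by
    ext i j
    have h2 := h i (Finsupp.single j 1) (by simp)
    have h3 := (hu.sb (linMap S)) i (Finsupp.single j 1) (by simp)
    rw [map_sub, map_add, h3, add_zero, sub_eq_zero] at h2
    exact h2
  rw [h1, lin_linMap]

theorem Jet2_mul {g g' : FMap n} {u u' : V n} {S S' Si : Mat n} (hS : S * Si = 1) (hu : OV 2 u)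
    (hu' : OV 2 u') (h : Jet2 g u S) (h' : Jet2 g' u' S') :
    Jet2 (g * g') (u + act S Si u') (S * S') := by
  have hS' : Si * S = 1 := mul_eq_one_comm.1 hS
  have e1 : OV 3 (sb g' (g.toFun - ((linMap S).toFun + sb (linMap S) u))) := by
    refine OV.sb g' (fun i => ?_)
    exact h i
  have e2 : OV 3 (mv S (g'.toFun - ((linMap S').toFun + sb (linMap S') u'))) := by
    refine OV.mv S (fun i => ?_)
    exact h' i
  have e3 : OV 3 (sb (linMap S * g') u - sb (linMap (S * S')) u) := by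
    intro i
    have h3 := sb_lin (linMap S * g') u hu i
    rw [lin_mul, lin_linMap, Jet2_lin hu' h'] at h3
    exact h3
  have q1 : sb g' (linMap S).toFun = mv S g'.toFun := by
    rw [← mul_toFun, linMap_mul_toFun]
  have q2 : mv S (linMap S').toFun = (linMap (S * S')).toFun := by
    rw [linMap_toFun, linMap_toFun, mv_mv]
  have q3 : sb (linMap (S * S')) (act S Si u') = mv S (sb (linMap S') u') := by
    unfold act
    rw [sb_mv, sb_sb, ← linMap_mul, ← mul_assoc, hS', one_mul]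
  rw [sb_sub, sb_add, q1, sb_sb, ← mul_toFun] at e1
  rw [mv_sub, mv_add, q2] at e2
  have e4 := (e1.add e2).add e3
  intro i
  have e5 := e4 i
  rw [sb_add, q3]
  have e6 : (g * g').toFun i - ((linMap (S * S')).toFun i +
      (sb (linMap (S * S')) u + mv S (sb (linMap S') u')) i) =
      ((g * g').toFun - (mv S g'.toFun + sb (linMap S * g') u) +
        (mv S g'.toFun - ((linMap (S * S')).toFun + mv S (sb (linMap S') u'))) +
        (sb (linMap S * g') u - sb (linMap (S * S')) u)) i := by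
    simp only [Pi.add_apply, Pi.sub_apply]
    ring
  rw [e6]
  exact e5

theorem Jet2_of_EqM {e : ℕ} (he : 3 ≤ e) {g g' : FMap n} {u : V n} {S : Mat n}
    (h : EqM e g g') (h' : Jet2 g' u S) : Jet2 g u S := fun i =>
  ((h.mono he) i).trans_sub (h' i)

/-- the first products of a tuple have the 2-jets `(v_0 + ... + v_(k-1)) S_k` -/
theorem Jet2_SS (T : Fin 4 → Mat n) (hT : ∀ k, T k * T k = 1) (v : Fin 4 → V n)
    (hv : ∀ k, OV 2 (v k)) (τ : Fin 4 → FMap n) (hτ : ∀ k, Jet2 (τ k) (uu T v k) (T k)) :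
    Jet2 (τ 0) (v 0) (SS T 1) ∧ Jet2 (τ 0 * τ 1) (v 0 + v 1) (SS T 2) ∧
      Jet2 (τ 0 * τ 1 * τ 2) (v 0 + v 1 + v 2) (SS T 3) := by
  have c0 : ∀ b, T 0 * (T 0 * b) = b := fun b => by rw [← mul_assoc, hT, one_mul]
  have c1 : ∀ b, T 1 * (T 1 * b) = b := fun b => by rw [← mul_assoc, hT, one_mul]
  have hu : ∀ k, OV 2 (uu T v k) := fun k => (hv k).act _ _
  have u0 : uu T v 0 = v 0 := act_one (v 0)
  have u1 : act (T 0) (T 0) (uu T v 1) = v 1 := by
    show act (T 0) (T 0) (act (T 0) (T 0) (v 1)) = v 1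
    rw [act_act, hT, act_one]
  have i2 : T 0 * T 1 * (T 1 * T 0) = 1 := by
    rw [mul_assoc, c1, hT]
  have u2 : act (T 0 * T 1) (T 1 * T 0) (uu T v 2) = v 2 := by
    show act (T 0 * T 1) (T 1 * T 0) (act (T 1 * T 0) (T 0 * T 1) (v 2)) = v 2
    rw [act_act, i2, act_one]
  have h0 : Jet2 (τ 0) (v 0) (T 0) := by
    have := hτ 0
    rwa [u0] at this
  have h1 : Jet2 (τ 0 * τ 1) (v 0 + v 1) (T 0 * T 1) := by
    have := Jet2_mul (hT 0) (hv 0) (hu 1) h0 (hτ 1)
    rwa [u1] at this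
  have h2 : Jet2 (τ 0 * τ 1 * τ 2) (v 0 + v 1 + v 2) (T 0 * T 1 * T 2) := by
    have := Jet2_mul i2 ((hv 0).add (hv 1)) (hu 2) h1 (hτ 2)
    rwa [u2] at this
  exact ⟨h0, h1, h2⟩

end Pool.Agent.MOB
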