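import Pool.Agent.MOB.Bra
import Pool.Agent.MOB.Mat

/-!
# MOB/Rho: the action of 2-jets on tuples of high order

`rho u S S' a = S.a + br u (S.a)`, where `S.a = act S S' a`.

Proofs. `OV_rho`: `OV_br`. `rho_rho`: expand,
`rho u S (rho u' S' a) = SS'.a + br (S.u') (SS'.a) + br u (SS'.a) + br u (S.(br u' (S'.a)))`
(`act_br`), the last term has order `≥ e + 2`. `rho_pow`: induction on `N` with `rho_rho`
(apply the outer factor last: `rho u S S' (previous)`, the new field is
`u + S.(∑_{j < N} S^j.u)`). `rho_sub`, `rho_order`: linearity and `OV_rho`.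
-/

namespace Pool.Agent.MOB

open MvPowerSeries Pool.Agent.RevMaps Pool.Agent.INV5

variable {n : ℕ}

theorem rho_apply (u : V n) (S S' : Mat n) (a : V n) :
    rho u S S' a = act S S' a + br u (act S S' a) := rfl

theorem OV_rho {e : ℕ} (u : V n) (hu : OV 2 u) (S S' : Mat n) {a : V n} (ha : OV e a) :
    OV e (rho u S S' a) := by
  rw [rho_apply]
  exact (ha.act S S').add (OV_br hu (ha.act S S') (by omega))

theorem rho_rho {e : ℕ} (u u' : V n) (hu : OV 2 u) (hu' : OV 2 u') (S Si S' Si' : Mat n)
    (h : S * Si = 1) (h' : S' * Si' = 1) {a : V n} (ha : OV e a) :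
    OV (e + 2) (rho u S Si (rho u' S' Si' a) -
      rho (u + act S Si u') (S * S') (Si' * Si) a) := by
  have hb : OV e (act S' Si' a) := ha.act S' Si'
  have hbr : OV (e + 1) (br u' (act S' Si' a)) := OV_br hu' hb (by omega)
  have hlast : OV (e + 2) (br u (act S Si (br u' (act S' Si' a)))) :=
    OV_br hu (hbr.act S Si) (by omega)
  have e1 : rho u S Si (rho u' S' Si' a) -
      rho (u + act S Si u') (S * S') (Si' * Si) a =
      br u (act S Si (br u' (act S' Si' a))) := by
    rw [rho_apply, rho_apply, rho_apply, act_add, act_br S Si h, br_add_right, br_add_left,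
      act_act]
    abel
  rw [e1]
  exact hlast

theorem OV_sum' {e : ℕ} {ι : Type*} (s : Finset ι) (f : ι → V n) (h : ∀ i ∈ s, OV e (f i)) :
    OV e (∑ i ∈ s, f i) := by
  classical
  induction s using Finset.induction_on with
  | empty =>
    intro i
    simpa using O_of_zero e
  | insert a s ha ih =>
    rw [Finset.sum_insert ha]
    exact (h a (Finset.mem_insert_self a s)).add
      (ih fun i hi => h i (Finset.mem_insert_of_mem hi))

theorem act_sum' {ι : Type*} (S S' : Mat n) (s : Finset ι) (f : ι → V n) :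
    act S S' (∑ i ∈ s, f i) = ∑ i ∈ s, act S S' (f i) := by
  classical
  induction s using Finset.induction_on with
  | empty =>
    have := act_sub S S' (0 : V n) 0
    simpa using this
  | insert a s ha ih =>
    rw [Finset.sum_insert ha, Finset.sum_insert ha, act_add, ih]

theorem rho_pow {e : ℕ} (N : ℕ) (u : V n) (hu : OV 2 u) (S Si : Mat n) (h : S * Si = 1)
    {a : V n} (ha : OV e a) :
    OV (e + 2) ((rho u S Si ^ N) a -
      rho (∑ j ∈ Finset.range N, act (S ^ j) (Si ^ j) u) (S ^ N) (Si ^ N) a) := by
  have hpow : ∀ N : ℕ, S ^ N * Si ^ N = 1 := by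
    intro N
    have hc : Commute S Si := by
      rw [Commute, SemiconjBy, h, mul_eq_one_comm.1 h]
    rw [← hc.mul_pow, h, one_pow]
  induction N with
  | zero =>
    have e1 : (rho u S Si ^ 0) a -
      rho (∑ j ∈ Finset.range 0, act (S ^ j) (Si ^ j) u) (S ^ 0) (Si ^ 0) a = 0 := by
      rw [rho_apply, pow_zero, pow_zero, pow_zero, act_one, Finset.range_zero, Finset.sum_empty,
        br_zero_left]
      simp
    rw [e1]
    exact fun i => O_of_zero _
  | succ N ih =>
    set w := ∑ j ∈ Finset.range N, act (S ^ j) (Si ^ j) u with hw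
    have hwO : OV 2 w := OV_sum' _ _ fun j _ => hu.act _ _
    have h1 : (rho u S Si ^ (N + 1)) a = rho u S Si ((rho u S Si ^ N) a) := by
      rw [pow_succ']; rfl
    have h2 : ∑ j ∈ Finset.range (N + 1), act (S ^ j) (Si ^ j) u = u + act S Si w := by
      rw [Finset.sum_range_succ', hw, act_sum', pow_zero, pow_zero, act_one, add_comm]
      congr 1
      apply Finset.sum_congr rfl
      intro j _
      rw [act_act, ← pow_succ', ← pow_succ]
    have h3 := rho_rho u w hu hwO S Si (S ^ N) (Si ^ N) h (hpow N) ha
    have h4 := OV_rho u hu S Si ih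
    rw [map_sub] at h4
    have h5 := h4.add h3
    rw [h1, h2, pow_succ' S N, pow_succ Si N]
    have e2 : rho u S Si ((rho u S Si ^ N) a) -
        rho (u + act S Si w) (S * S ^ N) (Si ^ N * Si) a =
        rho u S Si ((rho u S Si ^ N) a) - rho u S Si (rho w (S ^ N) (Si ^ N) a) +
        (rho u S Si (rho w (S ^ N) (Si ^ N) a) -
          rho (u + act S Si w) (S * S ^ N) (Si ^ N * Si) a) := by abel
    rw [e2]
    exact h5

/-- on tuples of order `e + 1` the jet acts as its linear part, modulo order `e + 2` -/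
theorem rho_high {e : ℕ} (u : V n) (hu : OV 2 u) (S S' : Mat n) {a : V n}
    (ha : OV (e + 1) a) : OV (e + 2) (rho u S S' a - act S S' a) := by
  rw [rho_apply, add_sub_cancel_left]
  exact OV_br hu (ha.act S S') (by omega)

end Pool.Agent.MOB
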