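import Pool.Agent.MOB.Cnj
import Pool.Agent.MOB.Mat
import Pool.Agent.MOB.Rho

/-!
# MOB/Lft: lifting by two orders

Proof. All `τ k` are units (their own inverses); `P = τ 0 τ 1 τ 2 τ 3`. By `exists_one_add`
`f = (1 + r) P` with `r ∈ OV e`. As `r ∈ Zt v T e`, there are `a k ∈ OV e` with
`r ≡ Psi v T a` modulo order `e + 2`. Put `τ' k = (1 + a_k) τ_k (1 + a_k)⁻¹`: an involution,
`≡ τ_k` modulo order `e`. `τ' k = (1 + a_k) [τ_k (1 + a_k)⁻¹ τ_k⁻¹] τ_k`, by `oneAdd_inv` and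
`conj_jet` the bracket is `≡ 1 - rho (u_k) T_k a_k` modulo order `e + 2`, so
`τ' k ≡ (1 + b_k) τ_k`, `b_k = a_k - rho (u_k) T_k a_k` (`oneAdd_mul_high`, `e ≥ 3`). Then
`τ' 0 τ' 1 τ' 2 τ' 3 ≡ (1 + b_0) [τ_0 (1 + b_1) τ_0⁻¹] [τ_0 τ_1 (1 + b_2) (τ_0 τ_1)⁻¹]
[τ_0 τ_1 τ_2 (1 + b_3) (τ_0 τ_1 τ_2)⁻¹] P ≡ (1 + Psi v T a) P` by `Jet2_SS`, `conj_jet` and
`oneAdd_mul_high`, i.e. `≡ (1 + r) P = f`.
-/

namespace Pool.Agent.MOB

open MvPowerSeries Pool.Agent.RevMaps Pool.Agent.INV5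

variable {n : ℕ}

private theorem lft_eqM_one {e : ℕ} (he : 2 ≤ e) (u : (FMap n)ˣ) (a : V n) (ha1 : OV 1 a)
    (ha : OV e a) (hu : (u : FMap n) = oneAdd a ha1) :
    EqM e (u : FMap n) 1 ∧ EqM e ((u⁻¹ : (FMap n)ˣ) : FMap n) 1 := by
  have h1 : EqM e (u : FMap n) 1 := by
    rw [hu]
    intro i
    have h2 : (oneAdd a ha1).toFun i - (1 : FMap n).toFun i = a i := by
      show X i + a i - X i = a i
      ring
    rw [h2]
    exact ha i
  refine ⟨h1, ?_⟩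
  have h2 := (EqM.refl e ((u⁻¹ : (FMap n)ˣ) : FMap n)).mul h1
  rw [mul_one, Units.inv_mul] at h2
  exact h2.symm

/-- one factor -/
private theorem lft_factor {e : ℕ} (he : 3 ≤ e) (u : V n) (hu : OV 2 u) (S : Mat n)
    (hS : S * S = 1) (t : (FMap n)ˣ) (ht : t * t = 1) (hJ : Jet2 (t : FMap n) u S)
    (α : (FMap n)ˣ) (a : V n) (ha1 : OV 1 a) (ha : OV e a) (hα : (α : FMap n) = oneAdd a ha1)
    (hb1 : OV 1 (a - rho u S S a)) :
    EqM (e + 2) ((α * t * α⁻¹ : (FMap n)ˣ) : FMap n)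
      (oneAdd (a - rho u S S a) hb1 * (t : FMap n)) := by
  have hti : t⁻¹ = t := inv_eq_of_mul_eq_one_right ht
  have hna : OV e (-a) := fun i => (ha i).neg
  have hna1 : OV 1 (-a) := hna.mono (by omega)
  have h1 : (α * t * α⁻¹ : (FMap n)ˣ) = α * (t * α⁻¹ * t⁻¹) * t := by group
  rw [h1]
  push_cast
  refine EqM.mul ?_ (EqM.refl _ _)
  have h2 : EqM (e + 2) ((α⁻¹ : (FMap n)ˣ) : FMap n) (oneAdd (-a) hna1) :=
    oneAdd_inv he α a ha1 ha hα hna1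
  have hr : OV e (rho u S S (-a)) := OV_rho u hu S S hna
  have hr1 : OV 1 (rho u S S (-a)) := hr.mono (by omega)
  have h3 : EqM (e + 2) ((t : FMap n) * ((α⁻¹ : (FMap n)ˣ) : FMap n) * ((t⁻¹ : (FMap n)ˣ) : FMap n))
      (oneAdd (rho u S S (-a)) hr1) :=
    (((EqM.refl _ _).mul h2).mul (EqM.refl _ _)).trans
      (conj_jet (by omega) t u hu S S hS hJ (-a) hna1 hna hr1)
  have h4 : a + rho u S S (-a) = a - rho u S S a := by
    rw [map_neg, sub_eq_add_neg]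
  have h5 : EqM (e + 2) (oneAdd a ha1 * oneAdd (rho u S S (-a)) hr1)
      (oneAdd (a + rho u S S (-a)) (by rw [h4]; exact hb1)) :=
    oneAdd_mul_high he a _ ha1 hr1 ha hr _
  have h6 : oneAdd (a + rho u S S (-a)) (by rw [h4]; exact hb1) =
      oneAdd (a - rho u S S a) hb1 := by
    congr 1
  rw [hα]
  rw [h6] at h5
  exact ((EqM.refl _ _).mul h3).trans h5

theorem lift_two (T : Fin 4 → Mat n) (hT : ∀ k, T k * T k = 1) (v : Fin 4 → V n)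
    (hv : ∀ k, OV 2 (v k)) (f : FMap n) (τ : Fin 4 → FMap n) (hτ : ∀ k, τ k * τ k = 1)
    (hJ : ∀ k, Jet2 (τ k) (uu T v k) (T k)) {e : ℕ} (he : 3 ≤ e)
    (hp : EqM e (τ 0 * τ 1 * τ 2 * τ 3) f) (hZ : ∀ r : V n, OV e r → r ∈ Zt v T e) :
    ∃ τ' : Fin 4 → FMap n, (∀ k, τ' k * τ' k = 1) ∧ (∀ k, EqM e (τ' k) (τ k)) ∧
      EqM (e + 2) (τ' 0 * τ' 1 * τ' 2 * τ' 3) f := by
  set t : Fin 4 → (FMap n)ˣ := fun k => ⟨τ k, τ k, hτ k, hτ k⟩ with ht
  have htv : ∀ k, (t k : FMap n) = τ k := fun k => rfl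
  have htt : ∀ k, t k * t k = 1 := fun k => Units.ext (hτ k)
  obtain ⟨r, hr1, hr, hfr⟩ := exists_one_add (show 2 ≤ e by omega) f (t 0 * t 1 * t 2 * t 3) hp
  obtain ⟨a, ha, har⟩ := hZ r hr
  have ha1 : ∀ k, OV 1 (a k) := fun k => (ha k).mono (by omega)
  have hun : ∀ k, IsUnit (oneAdd (a k) (ha1 k)) := fun k =>
    isUnit_oneAdd (show 2 ≤ e by omega) (a k) (ha1 k) (ha k)
  set α : Fin 4 → (FMap n)ˣ := fun k => (hun k).unit with hα
  have hαv : ∀ k, ((α k : (FMap n)ˣ) : FMap n) = oneAdd (a k) (ha1 k) := fun k => rfl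
  have huu : ∀ k, OV 2 (uu T v k) := fun k => (hv k).act _ _
  set b : Fin 4 → V n := fun k => a k - rho (uu T v k) (T k) (T k) (a k) with hb
  have hbO : ∀ k, OV e (b k) := fun k => (ha k).sub (OV_rho _ (huu k) _ _ (ha k))
  have hb1 : ∀ k, OV 1 (b k) := fun k => (hbO k).mono (by omega)
  refine ⟨fun k => ((α k * t k * (α k)⁻¹ : (FMap n)ˣ) : FMap n), ?_, ?_, ?_⟩
  · intro k
    have h1 : (α k * t k * (α k)⁻¹) * (α k * t k * (α k)⁻¹) = 1 := by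
      have h2 : (α k * t k * (α k)⁻¹) * (α k * t k * (α k)⁻¹) =
          α k * (t k * t k) * (α k)⁻¹ := by group
      rw [h2, htt, mul_one, mul_inv_cancel]
    have h3 := congrArg (fun x : (FMap n)ˣ => (x : FMap n)) h1
    exact h3
  · intro k
    obtain ⟨h1, h2⟩ := lft_eqM_one (show 2 ≤ e by omega) (α k) (a k) (ha1 k) (ha k) (hαv k)
    have h3 := (h1.mul (EqM.refl e (t k : FMap n))).mul h2
    rw [one_mul, mul_one] at h3
    push_cast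
    exact h3
  · have hf : ∀ k, EqM (e + 2) ((α k * t k * (α k)⁻¹ : (FMap n)ˣ) : FMap n)
        (oneAdd (b k) (hb1 k) * (t k : FMap n)) := fun k =>
      lft_factor he _ (huu k) (T k) (hT k) (t k) (htt k) (hJ k) (α k) (a k) (ha1 k) (ha k)
        (hαv k) (hb1 k)
    obtain ⟨j1, j2, j3⟩ := Jet2_SS T hT v hv τ hJ
    have hv01 : OV 2 (v 0 + v 1) := (hv 0).add (hv 1)
    have hv012 : OV 2 (v 0 + v 1 + v 2) := hv01.add (hv 2)
    have hc1 : OV e (rho (v 0) (SS T 1) (SI T 1) (b 1)) := OV_rho _ (hv 0) _ _ (hbO 1)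
    have hc2 : OV e (rho (v 0 + v 1) (SS T 2) (SI T 2) (b 2)) := OV_rho _ hv01 _ _ (hbO 2)
    have hc3 : OV e (rho (v 0 + v 1 + v 2) (SS T 3) (SI T 3) (b 3)) := OV_rho _ hv012 _ _ (hbO 3)
    have hc11 := hc1.mono (show 1 ≤ e by omega)
    have hc21 := hc2.mono (show 1 ≤ e by omega)
    have hc31 := hc3.mono (show 1 ≤ e by omega)
    have k1 : EqM (e + 2) ((t 0 : FMap n) * oneAdd (b 1) (hb1 1) * (((t 0)⁻¹ : (FMap n)ˣ) : FMap n))
        (oneAdd _ hc11) :=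
      conj_jet (by omega) (t 0) (v 0) (hv 0) _ _ (SS_SI T hT 1) j1 (b 1) (hb1 1) (hbO 1) hc11
    have k2 : EqM (e + 2) (((t 0 * t 1 : (FMap n)ˣ) : FMap n) * oneAdd (b 2) (hb1 2) *
        (((t 0 * t 1)⁻¹ : (FMap n)ˣ) : FMap n)) (oneAdd _ hc21) :=
      conj_jet (by omega) (t 0 * t 1) (v 0 + v 1) hv01 _ _ (SS_SI T hT 2) j2 (b 2) (hb1 2)
        (hbO 2) hc21
    have k3 : EqM (e + 2) (((t 0 * t 1 * t 2 : (FMap n)ˣ) : FMap n) * oneAdd (b 3) (hb1 3) *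
        (((t 0 * t 1 * t 2)⁻¹ : (FMap n)ˣ) : FMap n)) (oneAdd _ hc31) :=
      conj_jet (by omega) (t 0 * t 1 * t 2) (v 0 + v 1 + v 2) hv012 _ _ (SS_SI T hT 3) j3 (b 3)
        (hb1 3) (hbO 3) hc31
    -- the product
    have hprod := (((hf 0).mul (hf 1)).mul (hf 2)).mul (hf 3)
    refine hprod.trans ?_
    have hre : oneAdd (b 0) (hb1 0) * (t 0 : FMap n) * (oneAdd (b 1) (hb1 1) * (t 1 : FMap n)) *
        (oneAdd (b 2) (hb1 2) * (t 2 : FMap n)) * (oneAdd (b 3) (hb1 3) * (t 3 : FMap n)) =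
        oneAdd (b 0) (hb1 0) *
          ((t 0 : FMap n) * oneAdd (b 1) (hb1 1) * (((t 0)⁻¹ : (FMap n)ˣ) : FMap n)) *
          (((t 0 * t 1 : (FMap n)ˣ) : FMap n) * oneAdd (b 2) (hb1 2) *
            (((t 0 * t 1)⁻¹ : (FMap n)ˣ) : FMap n)) *
          (((t 0 * t 1 * t 2 : (FMap n)ˣ) : FMap n) * oneAdd (b 3) (hb1 3) *
            (((t 0 * t 1 * t 2)⁻¹ : (FMap n)ˣ) : FMap n)) *
          ((t 0 * t 1 * t 2 * t 3 : (FMap n)ˣ) : FMap n) := by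
      have e1 : (((t 0)⁻¹ : (FMap n)ˣ) : FMap n) * ((t 0 * t 1 : (FMap n)ˣ) : FMap n) =
          (t 1 : FMap n) := by
        rw [← Units.val_mul]; congr 1; group
      have e2 : (((t 0 * t 1)⁻¹ : (FMap n)ˣ) : FMap n) *
          ((t 0 * t 1 * t 2 : (FMap n)ˣ) : FMap n) = (t 2 : FMap n) := by
        rw [← Units.val_mul]; congr 1; group
      have e3 : (((t 0 * t 1 * t 2)⁻¹ : (FMap n)ˣ) : FMap n) *
          ((t 0 * t 1 * t 2 * t 3 : (FMap n)ˣ) : FMap n) = (t 3 : FMap n) := by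
        rw [← Units.val_mul]; congr 1; group
      rw [← e3, ← e2, ← e1]
      simp only [mul_assoc]
    rw [hre]
    have m1 := oneAdd_mul_high he (b 0) _ (hb1 0) hc11 (hbO 0) hc1
      (((hbO 0).add hc1).mono (show 1 ≤ e by omega))
    have o1 := (hbO 0).add hc1
    have m2 := oneAdd_mul_high he _ _ (o1.mono (show 1 ≤ e by omega)) hc21 o1 hc2
      ((o1.add hc2).mono (show 1 ≤ e by omega))
    have o2 := o1.add hc2
    have m3 := oneAdd_mul_high he _ _ (o2.mono (show 1 ≤ e by omega)) hc31 o2 hc3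
      ((o2.add hc3).mono (show 1 ≤ e by omega))
    have o3 := o2.add hc3
    have hall := ((((EqM.refl (e + 2) (oneAdd (b 0) (hb1 0))).mul k1).mul k2).mul k3)
    have hall2 := (((m1.mul (EqM.refl _ _)).mul (EqM.refl _ _)).trans
      ((m2.mul (EqM.refl _ _)))).trans m3
    have hall3 := hall.trans hall2
    have hPsi : b 0 + rho (v 0) (SS T 1) (SI T 1) (b 1) +
        rho (v 0 + v 1) (SS T 2) (SI T 2) (b 2) +
        rho (v 0 + v 1 + v 2) (SS T 3) (SI T 3) (b 3) = Psi v T a := rfl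
    have hcong : OV (e + 2) (b 0 + rho (v 0) (SS T 1) (SI T 1) (b 1) +
        rho (v 0 + v 1) (SS T 2) (SI T 2) (b 2) +
        rho (v 0 + v 1 + v 2) (SS T 3) (SI T 3) (b 3) - r) := by
      rw [hPsi]
      intro i
      exact (har i).symm_sub
    have hlast := hall3.trans (oneAdd_congr (o3.mono (show 1 ≤ e by omega)) hr1 hcong)
    have := hlast.mul (EqM.refl (e + 2) ((t 0 * t 1 * t 2 * t 3 : (FMap n)ˣ) : FMap n))
    rw [← hfr] at this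
    exact this

end Pool.Agent.MOB
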