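import Pool.Agent.MOB.Bas
import Pool.Agent.MOB.Par

/-!
# MOB/Lid: the linearised cubic equation, modulo `ZZ T 3`

Let `~` be congruence modulo `ZZ T 3`. For `r ∈ OV 3` and `R` in the group generated by the `T k`
(in particular `R_k`, `B = T_0 T_1`) one has `R.r ~ r` (`good_T`, `Good.mul`). So, by `act_br`, for
quadratic `x, θ`: `br x (R.θ) ~ br (R⁻¹.x) θ`.

`lid_gen`: let `p_k, θ_k ∈ OV 2` with `R_k p_k = -p_k`, `∑ p_k = 0`, `w_k = θ_k - R_k θ_k`. Then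
`2 crs p w = ∑_k br (Y_k) (w_k)`, `Y_k = 2 P_{<k} + p_k`, `P_{<k} = ∑_{j<k} p_j` (because
`∑_{j<k} (br w_j p_k + br p_j w_k) = ∑_k br (P_{<k} - P_{>k}) w_k` and `P_{>k} = -P_{<k} - p_k`).
If `w_k = θ_k - R_k θ_k` then `br Y_k w_k ~ br (Y_k - R_k Y_k) θ_k` and
`Y_k - R_k Y_k = 2 (P_{<k} - R_k P_{<k} + p_k)`. Hence `crs p w ~ ∑_k br (G_k) θ_k`,
`G_k = P_{<k} + p_k - R_k P_{<k}`.

Application: `p_k = pj (mu k)`, `θ_0 = z`, `θ_1 = R_0 z`, `z - B z = -w_2 - w_3` (`zq_sub`, ε = 0).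
`br G_0 z + br G_1 (R_0 z) ~ br (G_0 + R_0 G_1) z` and
`G_0 + R_0 G_1 = p_0 + R_0 p_0 + R_0 p_1 - R_0 R_1 p_0 = -B⁻¹ (p_0 + p_1)` (`R_0 R_1 = B⁻¹`,
`R_0 p_0 = -p_0`, `p_1 = -R_1 p_1`). By `mu_zero_one` `p_0 + p_1 = pj y - B.pj y`, so this is
`pj y - B⁻¹.pj y`, and `br (pj y - B⁻¹.pj y) z ~ br (pj y) (z - B z) = -br (pj y) (w_2 + w_3)
~ -∑_{k=2,3} br (pj y - R_k.pj y) θ_k`. With `p_2 = B.pj a2 + B.pj y - R_2 B.pj y` and
`P_{<3} = pj y + B.pj a2 - S_3.pj y`, `p_3 = S_3.pj a3 + S_3.pj y - R_3 S_3.pj y`: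
`G_2 - (pj y - R_2.pj y) = B.pj a2 = X2` and
`G_3 - (pj y - R_3.pj y) = S_3.pj a3 + (1 - R_3) B.pj a2 = X3`.
-/

namespace Pool.Agent.MOB

open MvPowerSeries Pool.Agent.RevMaps Pool.Agent.INV5

variable {n : ℕ}

variable {A : Mat n} {T : Fin 4 → Mat n} {N : ℕ} {a2 a3 y : Fin n → ℂ}

private theorem good_SS (T : Fin 4 → Mat n) (hT : ∀ k, T k * T k = 1) (d : ℕ) (k : Fin 4) :
    Good (ZZ T d) d (SS T k) (SI T k) := by
  have g := good_T T hT d
  fin_cases k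
  · exact Good.one (ZZ T d) d
  · exact g 0
  · exact (g 0).mul (g 1)
  · have h := ((g 0).mul (g 1)).mul (g 2)
    have e : T 2 * (T 1 * T 0) = T 2 * T 1 * T 0 := (mul_assoc _ _ _).symm
    rw [e] at h
    exact h

private theorem good_RR (T : Fin 4 → Mat n) (hT : ∀ k, T k * T k = 1) (d : ℕ) (k : Fin 4) :
    Good (ZZ T d) d (RR T k) (RR T k) := by
  have h := ((good_SS T hT d k).mul (good_T T hT d k)).mul (good_SS T hT d k).inv
  have e : SS T k * (T k * SI T k) = SS T k * T k * SI T k := (mul_assoc _ _ _).symm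
  rw [e] at h
  exact h

private theorem br_sw (T : Fin 4 → Mat n) (hT : ∀ k, T k * T k = 1) (k : Fin 4) (x θ : V n)
    (hx : OV 2 x) (hθ : OV 2 θ) :
    br x (act (RR T k) (RR T k) θ) - br (act (RR T k) (RR T k) x) θ ∈ ZZ T 3 := by
  have h1 : br x (act (RR T k) (RR T k) θ) =
      act (RR T k) (RR T k) (br (act (RR T k) (RR T k) x) θ) := by
    rw [act_br _ _ (RR_sq T hT k), act_act, RR_sq T hT k, act_one]
  have h2 := (good_RR T hT 3 k).2.2 (br (act (RR T k) (RR T k) x) θ)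
    (OV_br (hx.act _ _) hθ (by norm_num))
  rw [h1]
  have h3 := (ZZ T 3).neg_mem h2
  rwa [neg_sub] at h3

private theorem br_pow (T : Fin 4 → Mat n) (hT : ∀ k, T k * T k = 1) (k : Fin 4) (P p θ : V n)
    (hP : OV 2 P) (hp : OV 2 p) (hθ : OV 2 θ) (hpR : act (RR T k) (RR T k) p = -p) :
    (1 / 2 : ℂ) • br (P + P + p) (θ - act (RR T k) (RR T k) θ) -
      br (P + p - act (RR T k) (RR T k) P) θ ∈ ZZ T 3 := by
  have h1 := br_sw T hT k (P + P + p) θ ((hP.add hP).add hp) hθ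
  have h2 := (ZZ T 3).smul_mem (-(1 / 2) : ℂ) h1
  have e1 : act (RR T k) (RR T k) (P + P + p) =
      act (RR T k) (RR T k) P + act (RR T k) (RR T k) P - p := by
    rw [act_add, act_add, hpR]; abel
  have e2 : (1 / 2 : ℂ) • br (P + P + p) (θ - act (RR T k) (RR T k) θ) -
      br (P + p - act (RR T k) (RR T k) P) θ =
      (-(1 / 2) : ℂ) • (br (P + P + p) (act (RR T k) (RR T k) θ) -
        br (act (RR T k) (RR T k) (P + P + p)) θ) := by
    rw [e1]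
    simp only [br_sub_right, br_add_left, br_sub_left]
    module
  rw [e2]
  exact h2

theorem lid_gen (T : Fin 4 → Mat n) (hT : ∀ k, T k * T k = 1) (p θ : Fin 4 → V n)
    (hp2 : ∀ k, OV 2 (p k)) (hθ2 : ∀ k, OV 2 (θ k))
    (hp : ∀ k, act (RR T k) (RR T k) (p k) = -p k) (hps : p 0 + p 1 + p 2 + p 3 = 0)
    (w : Fin 4 → V n) (hw : ∀ k, w k = θ k - act (RR T k) (RR T k) (θ k)) :
    crs p w - (br (p 0) (θ 0) + br (p 0 + p 1 - act (RR T 1) (RR T 1) (p 0)) (θ 1) +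
      br (p 0 + p 1 + p 2 - act (RR T 2) (RR T 2) (p 0 + p 1)) (θ 2) +
      br (p 0 + p 1 + p 2 + p 3 - act (RR T 3) (RR T 3) (p 0 + p 1 + p 2)) (θ 3)) ∈ ZZ T 3 := by
  have z2 : OV 2 (0 : V n) := fun i => O_of_zero _
  have h0 := br_pow T hT 0 0 (p 0) (θ 0) z2 (hp2 0) (hθ2 0) (hp 0)
  have h1 := br_pow T hT 1 (p 0) (p 1) (θ 1) (hp2 0) (hp2 1) (hθ2 1) (hp 1)
  have h2 := br_pow T hT 2 (p 0 + p 1) (p 2) (θ 2) ((hp2 0).add (hp2 1)) (hp2 2) (hθ2 2) (hp 2)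
  have h3 := br_pow T hT 3 (p 0 + p 1 + p 2) (p 3) (θ 3) (((hp2 0).add (hp2 1)).add (hp2 2))
    (hp2 3) (hθ2 3) (hp 3)
  have h4 := (ZZ T 3).add_mem ((ZZ T 3).add_mem ((ZZ T 3).add_mem h0 h1) h2) h3
  rw [← hw 0, ← hw 1, ← hw 2, ← hw 3, act_zero] at h4
  convert h4 using 1
  have hp3 : p 3 = -(p 0) - p 1 - p 2 := by
    have h5 : p 3 = (p 0 + p 1 + p 2 + p 3) - (p 0 + p 1 + p 2) := by abel
    rw [h5, hps]; abel
  rw [crs, hp3]
  rw [br_comm (w 0) (p 1), br_comm (w 0) (p 2), br_comm (w 0) (-(p 0) - p 1 - p 2),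
    br_comm (w 1) (p 2), br_comm (w 1) (-(p 0) - p 1 - p 2), br_comm (w 2) (-(p 0) - p 1 - p 2)]
  simp only [br_add_left, br_sub_left, br_neg_left, br_zero_left]
  module

theorem lid (h : IsDat A T N a2 a3 y) (c2 θ2 θ3 : QC n) :
    crs (fun k => pj (mu T a2 a3 y k)) (fun k => qd (wp T N c2 (0, (θ2, θ3)) k)) -
      (br (X2 T a2) (qd θ2) + br (X3 T a2 a3) (qd θ3)) ∈ ZZ T 3 := by
  have hT := h.sq
  set q : QC n := (0 : ℂ) • c2 - (θ2 - gw (RR T 2) θ2) - (θ3 - gw (RR T 3) θ3) with hq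
  set z : V n := qd (zq T N q) with hz
  obtain ⟨hw2, hw3, hw0, hw1⟩ := wp_apply T N c2 0 θ2 θ3
  rw [← hq] at hw0 hw1
  have hqd : ∀ (k : Fin 4) (c : QC n), qd (gw (RR T k) c) = act (RR T k) (RR T k) (qd c) :=
    fun k c => (act_qd _ _ (RR_sq T hT k) c).symm
  set p : Fin 4 → V n := fun k => pj (mu T a2 a3 y k) with hpdef
  set w : Fin 4 → V n := fun k => qd (wp T N c2 (0, (θ2, θ3)) k) with hwdef
  set θ : Fin 4 → V n := ![z, act (RR T 0) (RR T 0) z, qd θ2, qd θ3] with hθdef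
  have hp2 : ∀ k, OV 2 (p k) := fun k => OV_pj _
  have hz2 : OV 2 z := OV_qd _
  have hθ2 : ∀ k, OV 2 (θ k) := by
    intro k
    fin_cases k
    · exact hz2
    · exact hz2.act _ _
    · exact OV_qd _
    · exact OV_qd _
  have hp : ∀ k, act (RR T k) (RR T k) (p k) = -p k := fun k => act_pj_mu h k
  have hps : p 0 + p 1 + p 2 + p 3 = 0 := by
    show pj _ + pj _ + pj _ + pj _ = 0
    rw [← pj_add, ← pj_add, ← pj_add, mu_sum h, pj_zero]
  have hw : ∀ k, w k = θ k - act (RR T k) (RR T k) (θ k) := by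
    intro k
    fin_cases k
    · show qd (wp T N c2 (0, (θ2, θ3)) 0) = z - act (RR T 0) (RR T 0) z
      rw [hw0, map_sub, hqd]
    · show qd (wp T N c2 (0, (θ2, θ3)) 1) = act (RR T 0) (RR T 0) z -
        act (RR T 1) (RR T 1) (act (RR T 0) (RR T 0) z)
      rw [hw1, map_sub, hqd, hqd 1, hqd 0]
    · show qd (wp T N c2 (0, (θ2, θ3)) 2) = qd θ2 - act (RR T 2) (RR T 2) (qd θ2)
      rw [hw2, map_sub, hqd]
    · show qd (wp T N c2 (0, (θ2, θ3)) 3) = qd θ3 - act (RR T 3) (RR T 3) (qd θ3)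
      rw [hw3, map_sub, hqd]
  have hgen := lid_gen T hT p θ hp2 hθ2 hp hps w hw
  have e0 : θ 0 = z := rfl
  have e1 : θ 1 = act (RR T 0) (RR T 0) z := rfl
  have e2 : θ 2 = qd θ2 := rfl
  have e3 : θ 3 = qd θ3 := rfl
  rw [e0, e1, e2, e3] at hgen
  -- the matrices
  have hB : T 0 * T 1 * (T 1 * T 0) = 1 := by
    calc T 0 * T 1 * (T 1 * T 0) = T 0 * (T 1 * T 1) * T 0 := by simp only [mul_assoc]
      _ = 1 := by rw [hT, mul_one, hT]
  have hB' : T 1 * T 0 * (T 0 * T 1) = 1 := by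
    calc T 1 * T 0 * (T 0 * T 1) = T 1 * (T 0 * T 0) * T 1 := by simp only [mul_assoc]
      _ = 1 := by rw [hT, mul_one, hT]
  have hR01 : RR T 0 * RR T 1 = T 1 * T 0 := by
    have h1 : RR T 0 * RR T 1 * (RR T 1 * RR T 0) = 1 := by
      calc RR T 0 * RR T 1 * (RR T 1 * RR T 0) = RR T 0 * (RR T 1 * RR T 1) * RR T 0 := by
            simp only [mul_assoc]
        _ = 1 := by rw [RR_sq T hT, mul_one, RR_sq T hT]
    rw [RR_one_zero T hT] at h1
    calc RR T 0 * RR T 1 = RR T 0 * RR T 1 * (T 0 * T 1 * (T 1 * T 0)) := by rw [hB, mul_one]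
      _ = RR T 0 * RR T 1 * (T 0 * T 1) * (T 1 * T 0) := by simp only [mul_assoc]
      _ = T 1 * T 0 := by rw [h1, one_mul]
  -- abbreviations
  set Y : V n := pj y with hY
  have hY2 : OV 2 Y := OV_pj _
  set b : V n → V n := fun x => act (T 0 * T 1) (T 1 * T 0) x with hb
  set bi : V n → V n := fun x => act (T 1 * T 0) (T 0 * T 1) x with hbi
  have p01 : p 0 + p 1 = Y - b Y := by
    show pj _ + pj _ = pj y - act (T 0 * T 1) (T 1 * T 0) (pj y)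
    rw [← pj_add, mu_zero_one h, pj_sub, act_pj _ _ hB]
  have hbR : ∀ x, act (RR T 0) (RR T 0) (act (RR T 1) (RR T 1) x) = bi x := by
    intro x
    rw [act_act, hR01, RR_one_zero T hT]
  have hG1 : p 0 + act (RR T 0) (RR T 0) (p 0 + p 1 - act (RR T 1) (RR T 1) (p 0)) =
      Y - bi Y := by
    have h1 : act (RR T 0) (RR T 0) (p 1) = -(bi (p 1)) := by
      rw [← hbR, hp 1, act_neg, neg_neg]
    have h2 : bi (p 0) + bi (p 1) = bi Y - Y := by
      have h3 : bi (p 0) + bi (p 1) = bi (p 0 + p 1) := (act_add _ _ _ _).symm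
      rw [h3, p01]
      show act _ _ (Y - act (T 0 * T 1) (T 1 * T 0) Y) = _
      rw [act_sub, act_act, hB', act_one]
    rw [act_sub, act_add, hp 0, hbR, h1]
    have h4 : p 0 + (-p 0 + -bi (p 1) - bi (p 0)) = -(bi (p 0) + bi (p 1)) := by abel
    rw [h4, h2]; abel
  have hGb : Good (ZZ T 3) 3 (T 1 * T 0) (T 0 * T 1) := (good_T T hT 3 1).mul (good_T T hT 3 0)
  -- first two terms
  have hA1 : br (p 0) z + br (p 0 + p 1 - act (RR T 1) (RR T 1) (p 0))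
      (act (RR T 0) (RR T 0) z) - br (Y - bi Y) z ∈ ZZ T 3 := by
    have h1 := br_sw T hT 0 (p 0 + p 1 - act (RR T 1) (RR T 1) (p 0)) z
      (((hp2 0).add (hp2 1)).sub ((hp2 0).act _ _)) hz2
    rw [← hG1, br_add_left]
    convert h1 using 1
    abel
  have hA2 : br (Y - bi Y) z - br Y (qd q) ∈ ZZ T 3 := by
    have hzq : z - b z = qd q := zq_sub T hT N h.pow q
    have h1 : br (bi Y) z = act (T 1 * T 0) (T 0 * T 1) (br Y (b z)) := by
      rw [act_br _ _ hB']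
      show _ = br (bi Y) (act (T 1 * T 0) (T 0 * T 1) (act (T 0 * T 1) (T 1 * T 0) z))
      rw [act_act, hB', act_one]
    have h2 := hGb.2.2 (br Y (b z)) (OV_br hY2 (hz2.act _ _) (by norm_num))
    rw [← h1] at h2
    rw [← hzq, br_sub_right, br_sub_left]
    convert h2 using 1
    abel
  have hqq : qd q = -(qd θ2 - act (RR T 2) (RR T 2) (qd θ2)) -
      (qd θ3 - act (RR T 3) (RR T 3) (qd θ3)) := by
    rw [hq, zero_smul, map_sub, map_sub, map_sub, map_sub, map_zero, hqd, hqd]; abel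
  have hA3 : br Y (qd q) - (-(br (Y - act (RR T 2) (RR T 2) Y) (qd θ2)) -
      br (Y - act (RR T 3) (RR T 3) Y) (qd θ3)) ∈ ZZ T 3 := by
    have h2 := br_sw T hT 2 Y (qd θ2) hY2 (OV_qd _)
    have h3 := br_sw T hT 3 Y (qd θ3) hY2 (OV_qd _)
    have h4 := (ZZ T 3).add_mem h2 h3
    rw [hqq]
    convert h4 using 1
    simp only [br_sub_right, br_neg_right, br_sub_left]
    abel
  -- the fields
  have hS2 : act (SS T 2) (SI T 2) (act (T 2) (T 2) Y) = act (RR T 2) (RR T 2) (b Y) := by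
    show _ = act (RR T 2) (RR T 2) (act (SS T 2) (SI T 2) Y)
    rw [act_act, act_act, RR_SS T hT, SI_RR T hT]
  have hS3 : act (SS T 3) (SI T 3) (act (T 3) (T 3) Y) =
      act (RR T 3) (RR T 3) (act (SS T 3) (SI T 3) Y) := by
    rw [act_act, act_act, RR_SS T hT, SI_RR T hT]
  have hS23 : act (SS T 2) (SI T 2) (act (T 2) (T 2) Y) = act (SS T 3) (SI T 3) Y := by
    rw [act_act]
    have e : T 2 * SI T 2 = SI T 3 := by
      show T 2 * (T 1 * T 0) = T 2 * T 1 * T 0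
      rw [mul_assoc]
    rw [e]; rfl
  have hp2' : p 2 = act (SS T 2) (SI T 2) (pj a2) + b Y -
      act (SS T 2) (SI T 2) (act (T 2) (T 2) Y) := by
    show pj (Matrix.vecMul (a2 + y - Matrix.vecMul y (T 2)) (SI T 2)) = _
    rw [← act_pj _ _ (SS_SI T hT 2), pj_sub, pj_add, act_sub, act_add, ← act_pj _ _ (hT 2)]
    rfl
  have hp3' : p 3 = act (SS T 3) (SI T 3) (pj a3) + act (SS T 3) (SI T 3) Y -
      act (SS T 3) (SI T 3) (act (T 3) (T 3) Y) := by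
    show pj (Matrix.vecMul (a3 + y - Matrix.vecMul y (T 3)) (SI T 3)) = _
    rw [← act_pj _ _ (SS_SI T hT 3), pj_sub, pj_add, act_sub, act_add, ← act_pj _ _ (hT 3)]
  have hG2 : p 0 + p 1 + p 2 - act (RR T 2) (RR T 2) (p 0 + p 1) =
      (Y - act (RR T 2) (RR T 2) Y) + X2 T a2 := by
    rw [p01, hp2', hS2, act_sub, X2]
    abel
  have hP3 : p 0 + p 1 + p 2 = Y + X2 T a2 - act (SS T 3) (SI T 3) Y := by
    rw [p01, hp2', hS23, X2]
    abel
  have hG3 : p 0 + p 1 + p 2 + p 3 - act (RR T 3) (RR T 3) (p 0 + p 1 + p 2) =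
      (Y - act (RR T 3) (RR T 3) Y) + X3 T a2 a3 := by
    rw [hP3, hp3', hS3, act_sub, act_add, X3]
    abel
  rw [hG2, hG3] at hgen
  have hfin := (ZZ T 3).add_mem ((ZZ T 3).add_mem ((ZZ T 3).add_mem hgen hA1) hA2) hA3
  convert hfin using 1
  simp only [br_add_left]
  abel

end Pool.Agent.MOB
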