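import Pool.Agent.MOB.Bdm

/-!
# MOB/Mst: brackets with perturbed projective fields span

Proof. Suppose `r ∈ OV (e + 1)`, `r ∉ Z`. Take a linear functional `lam` vanishing on `Z` with
`lam r ≠ 0` (`Submodule.exists_dual_map_eq_bot_of_notMem` or `Submodule.exists_le_ker_of_notMem`). Let
`M` be the maximum of `|lam (x^m e_i)|` over monomials of degree `e + 1` (finite set). If `M = 0` then
`lam` vanishes on `OV (e + 1)` (`le_of_monomials` and `OV (e + 2) ⊆ Z`), contradiction. So `M > 0`.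
Put `D = (e + 2) n^2 δ M`, `D / (e - 1) ≤ 4 n^2 δ M` as `e ≥ 2`.
(1) `j ≠ i`, `x^m` of degree `e`: `br_pj_tens` with `l = e_j`, `u = e_i`:
`(e - 1) |lam (x_j x^m e_i)| = |lam (br (qd (b j)) (x^m e_i))| ≤ D` (`br_qd_bound`). So
`|lam (x^{m'} e_i)| ≤ 4 n^2 δ M` for every monomial `x^{m'}` of degree `e + 1` containing a variable
other than `x_i`.
(2) `x_i^{e+1} e_i`: take `k ≠ i` (`n ≥ 2`) and subtract the relations for `br (pj e_i) (x_i^e e_i)`
and `br (pj e_k) (x_i^e e_k)`: the terms `x_i^e x` cancel, and `x_k x_i^e e_k` is of type (1). So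
`|lam (x_i^{e+1} e_i)| ≤ 8 n^2 δ M + 4 n^2 δ M`.
Hence `M ≤ 12 n^2 δ M < M`, contradiction (`12 n^2 δ ≤ 28 n^3 δ < 1`).
-/

namespace Pool.Agent.MOB

open MvPowerSeries Pool.Agent.RevMaps Pool.Agent.INV5

variable {n : ℕ}

/-- `p ↦ p ⊗ v` as a linear map -/
noncomputable def tensL (v : Fin n → ℂ) : PS n →ₗ[ℂ] V n where
  toFun p := tens p v
  map_add' p q := tens_add p q v
  map_smul' c p := tens_smul c p v

theorem mst_vanish {e : ℕ} (lam : V n →ₗ[ℂ] ℂ)
    (hZ : ∀ r : V n, OV (e + 2) r → lam r = 0)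
    (h0 : ∀ m : Fin n →₀ ℕ, m.degree = e + 1 → ∀ i,
      lam (tens (monomial m (1 : ℂ)) (Pi.single i 1)) = 0)
    (r : V n) (hr : OV (e + 1) r) : lam r = 0 := by
  classical
  have h1 : ∀ i, ∀ q : PS n, O (e + 1) q → q ∈ LinearMap.ker (lam ∘ₗ tensL (Pi.single i 1)) := by
    intro i
    apply le_of_monomials
    · intro m hm
      rw [LinearMap.mem_ker]
      exact h0 m hm i
    · intro q hq
      rw [LinearMap.mem_ker]
      exact hZ _ (OV_tens hq _)
  have h2 : r = ∑ i, tens (r i) (Pi.single i 1) := by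
    funext j
    rw [Finset.sum_apply, Finset.sum_eq_single j]
    · simp [tens]
    · intro k _ hk
      simp [tens, hk.symm]
    · intro h
      exact absurd (Finset.mem_univ _) h
  rw [h2, map_sum]
  apply Finset.sum_eq_zero
  intro i _
  have := h1 i (r i) (hr i)
  rwa [LinearMap.mem_ker] at this

theorem mst_single_add (j : Fin n) (m : Fin n →₀ ℕ) :
    (X j * monomial m (1 : ℂ) : PS n) = monomial (Finsupp.single j 1 + m) (1 : ℂ) := by
  have h : (X j : PS n) = monomial (Finsupp.single j 1) (1 : ℂ) := rfl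
  rw [h, monomial_mul_monomial, one_mul]

theorem mono_step (hn : 2 ≤ n) {e : ℕ} (he : 2 ≤ e) (Z : Submodule ℂ (V n))
    (hZ : ∀ r : V n, OV (e + 2) r → r ∈ Z) (b : Fin n → QC n) (δ : ℝ) (hb : ∀ j, ‖b j‖ ≤ δ)
    (hδ : 28 * (n : ℝ) ^ 3 * δ < 1)
    (hbr : ∀ j (m : Fin n →₀ ℕ), m.degree = e → ∀ i,
      br (pj (Pi.single j 1) + qd (b j)) (tens (monomial m (1 : ℂ)) (Pi.single i 1)) ∈ Z) :
    ∀ r : V n, OV (e + 1) r → r ∈ Z := by
  classical
  intro r hr
  by_contra hrZ
  obtain ⟨lam, hlam, hker⟩ := Submodule.exists_le_ker_of_notMem hrZ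
  have hk : ∀ x ∈ Z, lam x = 0 := fun x hx => LinearMap.mem_ker.1 (hker hx)
  have hZ' : ∀ r : V n, OV (e + 2) r → lam r = 0 := fun r hr => hk r (hZ r hr)
  set f : ((Fin n →₀ ℕ) × Fin n) → ℝ :=
    fun p => ‖lam (tens (monomial p.1 (1 : ℂ)) (Pi.single p.2 1))‖ with hf
  set S : Finset ((Fin n →₀ ℕ) × Fin n) :=
    ((Finset.univ : Finset (Fin n)).finsuppAntidiag (e + 1)) ×ˢ Finset.univ with hS
  have hmem : ∀ m : Fin n →₀ ℕ, m ∈ (Finset.univ : Finset (Fin n)).finsuppAntidiag (e + 1) ↔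
      m.degree = e + 1 := by
    intro m
    rw [Finset.mem_finsuppAntidiag, Finsupp.degree_eq_sum]
    simp
  have hne : S.Nonempty := by
    refine ⟨(Finsupp.single ⟨0, by omega⟩ (e + 1), ⟨0, by omega⟩), ?_⟩
    rw [hS, Finset.mem_product]
    refine ⟨?_, Finset.mem_univ _⟩
    rw [hmem]
    exact Finsupp.degree_single _ _
  obtain ⟨⟨m0, i0⟩, hp0, hmax⟩ := Finset.exists_max_image S f hne
  rw [hS, Finset.mem_product] at hp0
  have hm0 : m0.degree = e + 1 := (hmem m0).1 hp0.1
  set M : ℝ := f (m0, i0) with hM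
  have hM0 : 0 ≤ M := norm_nonneg _
  have hle : ∀ m : Fin n →₀ ℕ, m.degree = e + 1 → ∀ i,
      ‖lam (tens (monomial m (1 : ℂ)) (Pi.single i 1))‖ ≤ M := by
    intro m hm i
    apply hmax (m, i)
    rw [hS, Finset.mem_product]
    exact ⟨(hmem m).2 hm, Finset.mem_univ _⟩
  have hδ0 : 0 ≤ δ := (norm_nonneg _).trans (hb ⟨0, by omega⟩)
  have hn1 : (2 : ℝ) ≤ (n : ℝ) := by exact_mod_cast hn
  have he1 : (2 : ℝ) ≤ (e : ℝ) := by exact_mod_cast he
  -- bound of the perturbation term
  set D : ℝ := ((e : ℝ) + 2) * (n : ℝ) ^ 2 * δ * M with hD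
  have hD0 : 0 ≤ D := by positivity
  have hqd : ∀ j (m : Fin n →₀ ℕ), m.degree = e → ∀ i,
      ‖lam (br (pj (Pi.single j 1)) (tens (monomial m (1 : ℂ)) (Pi.single i 1)))‖ ≤ D := by
    intro j m hm i
    have h1 := hk _ (hbr j m hm i)
    rw [br_add_left, map_add] at h1
    have h2 : lam (br (pj (Pi.single j 1)) (tens (monomial m (1 : ℂ)) (Pi.single i 1))) =
        -lam (br (qd (b j)) (tens (monomial m (1 : ℂ)) (Pi.single i 1))) := by
      linear_combination h1
    rw [h2, norm_neg]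
    have h3 := br_qd_bound lam M hM0 hle (b j) m hm i
    refine h3.trans ?_
    rw [hD]
    have h4 := hb j
    have h5 : 0 ≤ ((e : ℝ) + 2) * (n : ℝ) ^ 2 := by positivity
    nlinarith [mul_le_mul_of_nonneg_left (mul_le_mul_of_nonneg_right h4 hM0) h5]
  have hbr1 : ∀ j (m : Fin n →₀ ℕ), m.degree = e → ∀ i,
      lam (br (pj (Pi.single j 1)) (tens (monomial m (1 : ℂ)) (Pi.single i 1))) =
      (if j = i then lam (fun i' => (monomial m (1 : ℂ) : PS n) * X i') else 0) -
        ((e : ℂ) - 1) *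
        lam (tens (monomial (Finsupp.single j 1 + m) (1 : ℂ)) (Pi.single i 1)) := by
    intro j m hm i
    rw [br_pj_tens, map_sub, map_smul, map_smul, ell_single, mst_single_add, hm]
    have h1 : (∑ i', (Pi.single j 1 : Fin n → ℂ) i' * (Pi.single i 1 : Fin n → ℂ) i') =
        if j = i then 1 else 0 := by
      rw [Finset.sum_eq_single j]
      · simp only [Pi.single_eq_same, one_mul, Pi.single_apply]
      · intro k _ hk
        simp [hk]
      · intro h
        exact absurd (Finset.mem_univ _) h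
    rw [h1]
    split_ifs with hji
    · rw [smul_eq_mul, smul_eq_mul, one_mul]
    · rw [smul_eq_mul, smul_eq_mul, zero_mul]
  set D' : ℝ := 4 * (n : ℝ) ^ 2 * δ * M with hD'
  have hD'0 : 0 ≤ D' := by positivity
  have hDD : D ≤ ((e : ℝ) - 1) * D' := by
    rw [hD, hD']
    have h5 : 0 ≤ (n : ℝ) ^ 2 * δ * M := by positivity
    nlinarith [mul_le_mul_of_nonneg_right (show (e : ℝ) + 2 ≤ 4 * ((e : ℝ) - 1) by linarith) h5]
  have hnorm : ‖((e : ℂ) - 1)‖ = (e : ℝ) - 1 := by
    have h1 : ((e : ℂ) - 1) = (((e : ℝ) - 1 : ℝ) : ℂ) := by push_cast; ring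
    rw [h1, Complex.norm_real, Real.norm_of_nonneg (by linarith)]
  have hpos : 0 < (e : ℝ) - 1 := by linarith
  -- type (1)
  have ht1 : ∀ j (m : Fin n →₀ ℕ), m.degree = e → ∀ i, j ≠ i →
      ‖lam (tens (monomial (Finsupp.single j 1 + m) (1 : ℂ)) (Pi.single i 1))‖ ≤ D' := by
    intro j m hm i hji
    have h1 := hqd j m hm i
    rw [hbr1 j m hm i, if_neg hji, zero_sub, norm_neg, norm_mul, hnorm] at h1
    have h2 := h1.trans hDD
    exact le_of_mul_le_mul_left h2 hpos
  -- all monomials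
  have hall : ∀ m : Fin n →₀ ℕ, m.degree = e + 1 → ∀ i,
      ‖lam (tens (monomial m (1 : ℂ)) (Pi.single i 1))‖ ≤ 3 * D' := by
    intro m hm i
    by_cases hex : ∃ j, j ≠ i ∧ m j ≠ 0
    · obtain ⟨j, hji, hmj⟩ := hex
      have hle1 : Finsupp.single j 1 ≤ m := by
        rw [Finsupp.single_le_iff]
        exact Nat.one_le_iff_ne_zero.mpr hmj
      obtain ⟨m', rfl⟩ := exists_add_of_le hle1
      rw [map_add, Finsupp.degree_single] at hm
      have := ht1 j m' (by omega) i hji
      linarith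
    · push Not at hex
      have hmi : m = Finsupp.single i (e + 1) := by
        have h1 : m = Finsupp.single i (m i) := by
          ext j
          by_cases hji : j = i
          · subst hji
            rw [Finsupp.single_eq_same]
          · rw [hex j hji, Finsupp.single_apply, if_neg (fun h => hji h.symm)]
        have h2 := hm
        rw [h1, Finsupp.degree_single] at h2
        rw [h1, h2]
      obtain ⟨k, hki⟩ : ∃ k : Fin n, k ≠ i := by
        by_cases h0 : i.val = 0
        · exact ⟨⟨1, by omega⟩, fun h => by rw [← h] at h0; simp at h0⟩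
        · exact ⟨⟨0, by omega⟩, fun h => h0 (by rw [← h])⟩
      set φ : Fin n →₀ ℕ := Finsupp.single i e with hφ
      have hφd : φ.degree = e := Finsupp.degree_single _ _
      have a1 := hbr1 i φ hφd i
      have a2 := hbr1 k φ hφd k
      rw [if_pos rfl] at a1 a2
      have b1 := hqd i φ hφd i
      have b2 := hqd k φ hφd k
      have hs : Finsupp.single i 1 + φ = m := by
        rw [hmi, hφ, ← Finsupp.single_add, add_comm 1 e]
      have hs2 : Finsupp.single k 1 + φ = Finsupp.single i 1 +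
          (Finsupp.single k 1 + Finsupp.single i (e - 1)) := by
        rw [hφ, add_left_comm, ← Finsupp.single_add, show 1 + (e - 1) = e by omega]
      have hc : ‖lam (tens (monomial (Finsupp.single k 1 + φ) (1 : ℂ)) (Pi.single k 1))‖ ≤ D' := by
        rw [hs2]
        apply ht1 i _ _ k hki.symm
        rw [map_add, Finsupp.degree_single, Finsupp.degree_single]
        omega
      rw [hs] at a1
      have hcomb : ((e : ℂ) - 1) * lam (tens (monomial m (1 : ℂ)) (Pi.single i 1)) =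
          lam (br (pj (Pi.single k 1)) (tens (monomial φ (1 : ℂ)) (Pi.single k 1))) -
          lam (br (pj (Pi.single i 1)) (tens (monomial φ (1 : ℂ)) (Pi.single i 1))) +
          ((e : ℂ) - 1) *
            lam (tens (monomial (Finsupp.single k 1 + φ) (1 : ℂ)) (Pi.single k 1)) := by
        rw [a1, a2]
        ring
      have h3 := congrArg norm hcomb
      rw [norm_mul, hnorm] at h3
      have h4 := norm_add_le
        (lam (br (pj (Pi.single k 1)) (tens (monomial φ (1 : ℂ)) (Pi.single k 1))) -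
          lam (br (pj (Pi.single i 1)) (tens (monomial φ (1 : ℂ)) (Pi.single i 1))))
        (((e : ℂ) - 1) *
            lam (tens (monomial (Finsupp.single k 1 + φ) (1 : ℂ)) (Pi.single k 1)))
      have h5 := norm_sub_le
        (lam (br (pj (Pi.single k 1)) (tens (monomial φ (1 : ℂ)) (Pi.single k 1))))
        (lam (br (pj (Pi.single i 1)) (tens (monomial φ (1 : ℂ)) (Pi.single i 1))))
      rw [norm_mul ((e : ℂ) - 1), hnorm] at h4
      have h6 : ((e : ℝ) - 1) *
          ‖lam (tens (monomial (Finsupp.single k 1 + φ) (1 : ℂ)) (Pi.single k 1))‖ ≤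
          ((e : ℝ) - 1) * D' := mul_le_mul_of_nonneg_left hc hpos.le
      have h7 : ((e : ℝ) - 1) * ‖lam (tens (monomial m (1 : ℂ)) (Pi.single i 1))‖ ≤
          ((e : ℝ) - 1) * (3 * D') := by
        rw [h3]
        linarith
      exact le_of_mul_le_mul_left h7 hpos
  have hfin : M ≤ 3 * D' := hall m0 hm0 i0
  have hM1 : M = 0 := by
    by_contra hne0
    have hMpos : 0 < M := lt_of_le_of_ne hM0 (Ne.symm hne0)
    have h1 : 12 * (n : ℝ) ^ 2 * δ < 1 := by
      have h2 : 12 * (n : ℝ) ^ 2 * δ ≤ 28 * (n : ℝ) ^ 3 * δ := by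
        have h3 : (n : ℝ) ^ 2 ≤ (n : ℝ) ^ 3 := pow_le_pow_right₀ (by linarith) (by norm_num)
        nlinarith [mul_le_mul_of_nonneg_right h3 hδ0, mul_nonneg (sq_nonneg (n : ℝ)) hδ0]
      linarith
    have h2 : 3 * D' = (12 * (n : ℝ) ^ 2 * δ) * M := by rw [hD']; ring
    rw [h2] at hfin
    nlinarith
  apply hlam
  apply mst_vanish lam hZ' _ r hr
  intro m hm i
  have h1 := hle m hm i
  rw [hM1] at h1
  exact norm_le_zero_iff.1 h1

end Pool.Agent.MOB
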