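import Pool.Agent.MOB.Defs

/-!
# MOB/Qso: a quadratic system with surjective linear part

Proof. Choose a linear equivalence of `Y1` with `Fin d → ℂ` (finite-dimensional), so assume that all
values lie in the normed space `E = Fin d → ℂ`; `L`, `q` become linear, bilinear maps into `E`,
automatically continuous. Let `F (ε, x) = (ε, L (ε, x) + q (ε, x) (ε, x))` from `ℂ × X` to
`ℂ × E`. It has strict derivative `(ε, x) ↦ (ε, L (ε, x))` at `0`, which is surjective. By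
`HasStrictFDerivAt.map_nhds_eq_of_surj` the image of the ball of radius `η` is a neighbourhood
of `0`, so it contains `(ε, 0)` for some `ε ≠ 0`.
-/

namespace Pool.Agent.MOB

open MvPowerSeries Pool.Agent.RevMaps Pool.Agent.INV5

variable {n : ℕ}

/-- the statement for values in a normed space, all of it reached -/
theorem quad_solve_aux {X E : Type} [NormedAddCommGroup X] [NormedSpace ℂ X]
    [FiniteDimensional ℂ X] [NormedAddCommGroup E] [NormedSpace ℂ E] [FiniteDimensional ℂ E]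
    (L : (ℂ × X) →L[ℂ] E) (q : (ℂ × X) →L[ℂ] (ℂ × X) →L[ℂ] E)
    (hs : ∀ y, ∃ x, L (0, x) = y) :
    ∀ η > (0 : ℝ), ∃ ε : ℂ, ε ≠ 0 ∧ ‖ε‖ < η ∧ ∃ x : X, ‖x‖ < η ∧
      L (ε, x) + q (ε, x) (ε, x) = 0 := by
  intro η hη
  have : CompleteSpace X := FiniteDimensional.complete ℂ X
  have : CompleteSpace E := FiniteDimensional.complete ℂ E
  have h1 : HasStrictFDerivAt (fun p : ℂ × X => q p p)
      ((q 0).comp (ContinuousLinearMap.id ℂ (ℂ × X)) + q.flip 0) 0 :=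
    (q.hasStrictFDerivAt (x := 0)).clm_apply (hasStrictFDerivAt_id (0 : ℂ × X))
  have h2 : HasStrictFDerivAt (fun p : ℂ × X => (p.1, L p + q p p))
      ((ContinuousLinearMap.fst ℂ ℂ X).prod
        (L + ((q 0).comp (ContinuousLinearMap.id ℂ (ℂ × X)) + q.flip 0))) 0 :=
    hasStrictFDerivAt_fst.prodMk ((L.hasStrictFDerivAt (x := 0)).add h1)
  have h3 : (((ContinuousLinearMap.fst ℂ ℂ X).prod
        (L + ((q 0).comp (ContinuousLinearMap.id ℂ (ℂ × X)) + q.flip 0)) :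
        (ℂ × X) →L[ℂ] (ℂ × E)) : (ℂ × X) →ₗ[ℂ] (ℂ × E)).range = ⊤ := by
    rw [LinearMap.range_eq_top]
    rintro ⟨ε, y⟩
    obtain ⟨x, hx⟩ := hs (y - L (ε, 0))
    refine ⟨(ε, x), ?_⟩
    have h4 : L (ε, x) = y := by
      have : (ε, x) = (ε, (0 : X)) + ((0 : ℂ), x) := by simp
      rw [this, map_add, hx]
      abel
    simp [h4]
  have h5 := h2.map_nhds_eq_of_surj h3
  have h6 : (fun p : ℂ × X => (p.1, L p + q p p)) '' Metric.ball 0 η ∈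
      nhds ((fun p : ℂ × X => (p.1, L p + q p p)) 0) := by
    rw [← h5]
    exact Filter.image_mem_map (Metric.ball_mem_nhds _ hη)
  obtain ⟨r, hr, hsub⟩ := Metric.mem_nhds_iff.1 h6
  have h0 : ((fun p : ℂ × X => (p.1, L p + q p p)) 0) = ((0 : ℂ), (0 : E)) := by simp
  rw [h0] at hsub
  have hr2 : ((((r / 2 : ℝ) : ℂ), (0 : E)) : ℂ × E) ∈ Metric.ball ((0 : ℂ), (0 : E)) r := by
    have e0 : ((0 : ℂ), (0 : E)) = (0 : ℂ × E) := rfl
    rw [e0, mem_ball_zero_iff, Prod.norm_def, norm_zero, Complex.norm_real, Real.norm_eq_abs,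
      abs_of_pos (by linarith), max_eq_left (by linarith)]
    linarith
  obtain ⟨p, hp, hpe⟩ := hsub hr2
  rw [mem_ball_zero_iff] at hp
  have e1 : p.1 = ((r / 2 : ℝ) : ℂ) := congrArg Prod.fst hpe
  have e2 : L p + q p p = 0 := congrArg Prod.snd hpe
  refine ⟨p.1, ?_, lt_of_le_of_lt (norm_fst_le p) hp, p.2, lt_of_le_of_lt (norm_snd_le p) hp, e2⟩
  rw [e1]
  exact_mod_cast (by linarith : (r / 2 : ℝ) ≠ 0)

theorem quad_solve {X Y : Type} [NormedAddCommGroup X] [NormedSpace ℂ X]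
    [FiniteDimensional ℂ X] [AddCommGroup Y] [Module ℂ Y] [FiniteDimensional ℂ Y]
    (Y1 : Submodule ℂ Y) (L : (ℂ × X) →ₗ[ℂ] Y) (q : (ℂ × X) →ₗ[ℂ] (ℂ × X) →ₗ[ℂ] Y)
    (hL : ∀ p, L p ∈ Y1) (hq : ∀ p p', q p p' ∈ Y1) (hs : ∀ y ∈ Y1, ∃ x, L (0, x) = y) :
    ∀ η > (0 : ℝ), ∃ ε : ℂ, ε ≠ 0 ∧ ‖ε‖ < η ∧ ∃ x : X, ‖x‖ < η ∧
      L (ε, x) + q (ε, x) (ε, x) = 0 := by
  let e : Y1 ≃ₗ[ℂ] (Fin (Module.finrank ℂ Y1) → ℂ) := (Module.finBasis ℂ Y1).equivFun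
  let L' : (ℂ × X) →ₗ[ℂ] (Fin (Module.finrank ℂ Y1) → ℂ) :=
    e.toLinearMap ∘ₗ (L.codRestrict Y1 hL)
  let q0 : (ℂ × X) →ₗ[ℂ] (ℂ × X) →ₗ[ℂ] Y1 :=
    LinearMap.mk₂ ℂ (fun p p' => (⟨q p p', hq p p'⟩ : Y1))
      (fun a b c => Subtype.ext (by simp)) (fun a b c => Subtype.ext (by simp))
      (fun a b c => Subtype.ext (by simp)) (fun a b c => Subtype.ext (by simp))
  let q' : (ℂ × X) →ₗ[ℂ] (ℂ × X) →ₗ[ℂ] (Fin (Module.finrank ℂ Y1) → ℂ) :=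
    q0.compr₂ e.toLinearMap
  let qc : (ℂ × X) →L[ℂ] (ℂ × X) →L[ℂ] (Fin (Module.finrank ℂ Y1) → ℂ) :=
    LinearMap.toContinuousLinearMap
      ((LinearMap.toContinuousLinearMap : ((ℂ × X) →ₗ[ℂ] (Fin (Module.finrank ℂ Y1) → ℂ)) ≃ₗ[ℂ]
        ((ℂ × X) →L[ℂ] (Fin (Module.finrank ℂ Y1) → ℂ))).toLinearMap ∘ₗ q')
  intro η hη
  obtain ⟨ε, h1, h2, x, h3, h4⟩ := quad_solve_aux (LinearMap.toContinuousLinearMap L') qc
    (by
      intro y
      obtain ⟨x, hx⟩ := hs (e.symm y) (e.symm y).2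
      refine ⟨x, ?_⟩
      change e (⟨L (0, x), hL _⟩ : Y1) = y
      have : (⟨L (0, x), hL _⟩ : Y1) = e.symm y := Subtype.ext hx
      rw [this, LinearEquiv.apply_symm_apply]) η hη
  refine ⟨ε, h1, h2, x, h3, ?_⟩
  have h5 : e ((⟨L (ε, x), hL _⟩ : Y1) + (⟨q (ε, x) (ε, x), hq _ _⟩ : Y1)) = 0 := by
    rw [map_add]
    exact h4
  have h6 := (LinearEquiv.map_eq_zero_iff e).1 h5
  exact congrArg Subtype.val h6

end Pool.Agent.MOB
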