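import Pool.Agent.MOB.Defs

/-!
# MOB/Sos: one step of the factorisation

For a non scalar invertible `A` of size `n + 2` and `δ ≠ 0` there is a basis in which
`A = [[δ, w], [v, D]]` and the Schur complement `S = D - v w / δ` is non scalar if its size `n + 1`
is at least two.

Proof. `A` non scalar: there is `e` which is not an eigenvector (`e, A e` linearly independent; if
every vector is an eigenvector then `A` is scalar). Take `f_0 = e`, `f_1 = A e - δ e`, and complete to
a basis: `P1`. Then the first column of `P1⁻¹ A P1` is `(δ, 1, 0, ..., 0)`, so `v ≠ 0`. If `S` is scalar,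
`S = s`, `s ≠ 0` (as `det A = δ det S`), and the size of `S` is `≥ 2`: choose a row `w' ≠ 0` with
`w' v = 0` and conjugate by `[[1, w'], [0, 1]]`: new blocks are
`δ` (top left, since `w' v = 0`), `v`, and new Schur complement
`S' = S + v (w' D) / δ`, `D = s + v w / δ`, `w' D = s w'`, so `S' = s (1 + v w' / δ)`, which is not
scalar, because `v w' ≠ 0` is nilpotent (of rank one).
Here `v i = M (i.succ) 0`, `w j = M 0 (j.succ)`, `D i j = M i.succ j.succ`. `hdet`: expand, or
`Matrix.det_fromBlocks`, or by the factorisation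
`M = [[1, 0], [v / δ, 1]] [[δ, w], [0, S]]`.
-/

namespace Pool.Agent.MOB

open MvPowerSeries Pool.Agent.RevMaps Pool.Agent.INV5

variable {n : ℕ}

theorem exists_not_eigen (A : Mat n) (hA : ∀ c : ℂ, A ≠ c • (1 : Mat n)) :
    ∃ e : Fin n → ℂ, ∀ c : ℂ, A.mulVec e ≠ c • e := by
  classical
  by_contra hcon
  push Not at hcon
  choose c hc using hcon
  have hentry : ∀ i j, A i j = (c (Pi.single j 1) • (Pi.single j 1 : Fin n → ℂ)) i := by
    intro i j
    rw [← hc (Pi.single j 1), Matrix.mulVec_single_one]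
    rfl
  have hoff : ∀ i j, i ≠ j → A i j = 0 := by
    intro i j hij
    rw [hentry, Pi.smul_apply, Pi.single_eq_of_ne hij, smul_zero]
  have hdiag : ∀ i j, A i i = A j j := by
    intro i j
    by_cases hij : i = j
    · rw [hij]
    · have h1 := hc (Pi.single i 1 + Pi.single j 1)
      rw [Matrix.mulVec_add, Matrix.mulVec_single_one, Matrix.mulVec_single_one] at h1
      have h2 := congrFun h1 i
      have h3 := congrFun h1 j
      simp only [Pi.add_apply, Matrix.col_apply, Pi.smul_apply, Pi.single_eq_same,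
        Pi.single_eq_of_ne hij, Pi.single_eq_of_ne (Ne.symm hij), smul_eq_mul] at h2 h3
      rw [hoff i j hij] at h2
      rw [hoff j i (Ne.symm hij)] at h3
      linear_combination h2 - h3
  rcases Nat.eq_zero_or_pos n with h0 | h0
  · subst h0
    exact hA 0 (by ext i; exact i.elim0)
  · refine hA (A ⟨0, h0⟩ ⟨0, h0⟩) ?_
    ext i j
    rw [Matrix.smul_apply, smul_eq_mul]
    by_cases hij : i = j
    · subst hij
      rw [Matrix.one_apply_eq, mul_one]
      exact hdiag _ _
    · rw [Matrix.one_apply_ne hij, mul_zero]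
      exact hoff i j hij

private theorem sos_conj {m : ℕ} (M : Mat (m + 1)) (w : Fin m → ℂ) :
    ∃ T M' : Mat (m + 1), IsUnit T.det ∧ M * T = T * M' ∧
      M' 0 0 = M 0 0 - ∑ k, w k * M k.succ 0 ∧ (∀ i : Fin m, M' i.succ 0 = M i.succ 0) ∧
      (∀ i j : Fin m, M' i.succ j.succ = M i.succ j.succ + M i.succ 0 * w j) ∧
      (∀ j : Fin m, M' 0 j.succ = M 0 j.succ - ∑ k, w k * M k.succ j.succ +
        (M 0 0 - ∑ k, w k * M k.succ 0) * w j) := by
  classical
  obtain ⟨N, hN⟩ : ∃ N : Mat (m + 1), N = Matrix.of fun i j =>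
    Fin.cases (Fin.cases 0 w j) (fun _ => 0) i := ⟨_, rfl⟩
  have hN00 : N 0 0 = 0 := by rw [hN]; rfl
  have hN0s : ∀ j : Fin m, N 0 j.succ = w j := by intro j; rw [hN]; rfl
  have hNs : ∀ (i : Fin m) (j : Fin (m + 1)), N i.succ j = 0 := by intro i j; rw [hN]; rfl
  have hXN : ∀ (X : Mat (m + 1)) i j, (X * N) i j = X i 0 * N 0 j := by
    intro X i j
    rw [Matrix.mul_apply, Fin.sum_univ_succ]
    simp only [hNs, mul_zero, Finset.sum_const_zero, add_zero]
  have hNX0 : ∀ (X : Mat (m + 1)) j, (N * X) 0 j = ∑ k, w k * X k.succ j := by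
    intro X j
    rw [Matrix.mul_apply, Fin.sum_univ_succ, hN00, zero_mul, zero_add]
    simp only [hN0s]
  have hNXs : ∀ (X : Mat (m + 1)) (i : Fin m) j, (N * X) i.succ j = 0 := by
    intro X i j
    rw [Matrix.mul_apply]
    simp only [hNs, zero_mul, Finset.sum_const_zero]
  have hNN : N * N = 0 := by
    ext i j
    rw [hXN]
    refine Fin.cases ?_ (fun i' => ?_) i
    · rw [hN00, zero_mul]; rfl
    · rw [hNs, zero_mul]; rfl
  have hinv : (1 + N) * (1 - N) = 1 := by
    rw [mul_sub, mul_one, add_mul, one_mul, hNN]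
    abel
  refine ⟨1 + N, (1 - N) * M * (1 + N), ?_, ?_, ?_, ?_, ?_, ?_⟩
  · have h := congrArg Matrix.det hinv
    rw [Matrix.det_mul, Matrix.det_one] at h
    exact IsUnit.of_mul_eq_one _ h
  · rw [← mul_assoc, ← mul_assoc, hinv, one_mul]
  all_goals
    have hexp : (1 - N) * M * (1 + N) = M + M * N - N * M - N * M * N := by
      noncomm_ring
  · rw [hexp]
    simp only [Matrix.sub_apply, Matrix.add_apply, hXN, hNX0, hN00, mul_zero, add_zero, sub_zero]
  · intro i
    rw [hexp]
    simp only [Matrix.sub_apply, Matrix.add_apply, hXN, hNXs, hN00, mul_zero, add_zero, sub_zero]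
  · intro i j
    rw [hexp]
    simp only [Matrix.sub_apply, Matrix.add_apply, hXN, hNXs, hN0s, zero_mul, sub_zero]
  · intro j
    rw [hexp]
    simp only [Matrix.sub_apply, Matrix.add_apply, hXN, hNX0, hN0s]
    ring

private theorem sos_det {m : ℕ} (M : Mat (m + 1)) (hδ : M 0 0 ≠ 0) :
    (Matrix.of fun i j : Fin m => M i.succ j.succ - M i.succ 0 * M 0 j.succ / M 0 0).det =
      M.det / M 0 0 := by
  classical
  obtain ⟨B, hB⟩ : ∃ B : Mat (m + 1), B = Matrix.of fun i j =>
    Fin.cases (M 0 j) (fun i' : Fin m => M i'.succ j - M i'.succ 0 / M 0 0 * M 0 j) i := ⟨_, rfl⟩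
  have hB0 : ∀ j, B 0 j = M 0 j := by intro j; rw [hB]; rfl
  have hBs : ∀ (i : Fin m) j, B i.succ j = M i.succ j - M i.succ 0 / M 0 0 * M 0 j := by
    intro i j; rw [hB]; rfl
  have h1 : M.det = B.det := by
    refine Matrix.det_eq_of_forall_row_eq_smul_add_const
      (fun i : Fin (m + 1) => Fin.cases (0 : ℂ) (fun i' : Fin m => M i'.succ 0 / M 0 0) i) 0 rfl ?_
    intro i j
    refine Fin.cases ?_ (fun i' => ?_) i
    · rw [hB0]
      show M 0 j = M 0 j + 0 * M 0 j
      ring
    · rw [hBs, hB0]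
      show M i'.succ j = M i'.succ j - M i'.succ 0 / M 0 0 * M 0 j + M i'.succ 0 / M 0 0 * M 0 j
      ring
  have hcol : ∀ i : Fin m, B i.succ 0 = 0 := by
    intro i
    rw [hBs]
    field_simp
    ring
  have h2 : B.det = M 0 0 *
      (Matrix.of fun i j : Fin m => M i.succ j.succ - M i.succ 0 * M 0 j.succ / M 0 0).det := by
    rw [Matrix.det_succ_column_zero, Fin.sum_univ_succ]
    simp only [hcol, mul_zero, zero_mul, Finset.sum_const_zero, add_zero]
    rw [hB0, Fin.val_zero, pow_zero, one_mul, Fin.succAbove_zero]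
    congr 2
    ext i j
    rw [Matrix.submatrix_apply, hBs, Matrix.of_apply]
    ring
  rw [h1, h2, mul_div_cancel_left₀ _ hδ]

private theorem sos_col {m : ℕ} (e : Fin (m + 1) → ℂ) (he : e ≠ 0) :
    ∃ P : Mat (m + 1), IsUnit P.det ∧ ∀ i, P i 0 = e i := by
  classical
  obtain ⟨k, hk⟩ : ∃ k, e k ≠ 0 := by
    by_contra h
    push Not at h
    exact he (funext h)
  refine ⟨((1 : Mat (m + 1)).updateCol k e).submatrix id (Equiv.swap 0 k), ?_, ?_⟩
  · have h1 : ((1 : Mat (m + 1)).updateCol k e).det = e k := by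
      rw [← Matrix.cramer_apply, Matrix.cramer_one]
      rfl
    have h2 := Matrix.det_permute' (Equiv.swap 0 k) ((1 : Mat (m + 1)).updateCol k e)
    rw [h2, h1]
    refine IsUnit.mul ?_ (isUnit_iff_ne_zero.2 hk)
    rw [isUnit_iff_ne_zero]
    rcases Int.units_eq_one_or (Equiv.Perm.sign (Equiv.swap 0 k)) with h3 | h3 <;> rw [h3] <;> simp
  · intro i
    rw [Matrix.submatrix_apply, Equiv.swap_apply_left, id_eq, Matrix.updateCol_self]

theorem sou_step (n : ℕ) (A : Mat (n + 2)) (hA : ∀ c : ℂ, A ≠ c • (1 : Mat (n + 2)))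
    (hdet : A.det ≠ 0) (δ : ℂ) (hδ : δ ≠ 0) :
    ∃ P M : Mat (n + 2), IsUnit P.det ∧ A * P = P * M ∧ M 0 0 = δ ∧
      (n = 0 ∨ ∀ c : ℂ, (Matrix.of fun i j : Fin (n + 1) =>
        M i.succ j.succ - M i.succ 0 * M 0 j.succ / δ) ≠ c • (1 : Mat (n + 1))) ∧
      (Matrix.of fun i j : Fin (n + 1) =>
        M i.succ j.succ - M i.succ 0 * M 0 j.succ / δ).det = A.det / δ := by
  classical
  obtain ⟨e, he⟩ := exists_not_eigen A hA
  have he0 : e ≠ 0 := by
    intro h
    refine he 0 ?_
    rw [h, Matrix.mulVec_zero, smul_zero]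
  obtain ⟨P0, hP0, hcol⟩ := sos_col e he0
  have hAP : A * P0 = P0 * (P0⁻¹ * (A * P0)) := by
    rw [← mul_assoc, Matrix.mul_nonsing_inv P0 hP0, one_mul]
  obtain ⟨M0, hM0⟩ : ∃ M0 : Mat (n + 2), M0 = P0⁻¹ * (A * P0) := ⟨_, rfl⟩
  rw [← hM0] at hAP
  -- the first column
  obtain ⟨i0, hi0⟩ : ∃ i0 : Fin (n + 1), M0 i0.succ 0 ≠ 0 := by
    by_contra h
    push Not at h
    refine he (M0 0 0) ?_
    funext i
    have h1 : (A * P0) i 0 = (P0 * M0) i 0 := by rw [hAP]
    rw [Matrix.mul_apply, Matrix.mul_apply, Fin.sum_univ_succ (f := fun k => P0 i k * M0 k 0)] at h1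
    simp only [h, mul_zero, Finset.sum_const_zero, add_zero, hcol] at h1
    rw [Pi.smul_apply, smul_eq_mul, mul_comm, ← h1]
    rfl
  obtain ⟨T1, M1, hT1, hMT1, h00, hs0, hss, h0s⟩ :=
    sos_conj M0 (Pi.single i0 ((M0 0 0 - δ) / M0 i0.succ 0))
  have hsum : ∑ k, (Pi.single i0 ((M0 0 0 - δ) / M0 i0.succ 0) : Fin (n + 1) → ℂ) k *
      M0 k.succ 0 = M0 0 0 - δ := by
    rw [Finset.sum_eq_single i0]
    · rw [Pi.single_eq_same]
      field_simp
    · intro k _ hk
      rw [Pi.single_eq_of_ne hk, zero_mul]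
    · intro h
      exact absurd (Finset.mem_univ _) h
  rw [hsum, sub_sub_cancel] at h00
  have hP1 : IsUnit (P0 * T1).det := by
    rw [Matrix.det_mul]
    exact hP0.mul hT1
  have hAP1 : A * (P0 * T1) = P0 * T1 * M1 := by
    rw [← mul_assoc, hAP, mul_assoc, hMT1, mul_assoc]
  have hsim : ∀ P M : Mat (n + 2), IsUnit P.det → A * P = P * M → M.det = A.det := by
    intro P M hP h
    have h1 := congrArg Matrix.det h
    rw [Matrix.det_mul, Matrix.det_mul, mul_comm] at h1
    exact (hP.mul_left_cancel h1).symm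
  have hd1 := sos_det M1 (by rw [h00]; exact hδ)
  rw [h00, hsim _ _ hP1 hAP1] at hd1
  by_cases hsc : n = 0 ∨ ∀ c : ℂ, (Matrix.of fun i j : Fin (n + 1) =>
      M1 i.succ j.succ - M1 i.succ 0 * M1 0 j.succ / δ) ≠ c • (1 : Mat (n + 1))
  · exact ⟨P0 * T1, M1, hP1, hAP1, h00, hsc, hd1⟩
  · push Not at hsc
    obtain ⟨hn, s, hs⟩ := hsc
    have hs1 : s ≠ 0 := by
      intro h
      rw [hs, h, zero_smul, Matrix.det_zero] at hd1
      exact (div_ne_zero hdet hδ) hd1.symm
    -- another row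
    obtain ⟨j0, hj0⟩ : ∃ j0 : Fin (n + 1), j0 ≠ i0 := by
      have : Nontrivial (Fin (n + 1)) := Fin.nontrivial_iff_two_le.2 (by omega)
      exact exists_ne i0
    obtain ⟨w, hw⟩ : ∃ w : Fin (n + 1) → ℂ, w = Pi.single j0 (M1 i0.succ 0) -
      Pi.single i0 (M1 j0.succ 0) := ⟨_, rfl⟩
    have hwv : ∑ k, w k * M1 k.succ 0 = 0 := by
      rw [hw]
      simp only [Pi.sub_apply, sub_mul]
      rw [Finset.sum_sub_distrib, Finset.sum_eq_single j0, Finset.sum_eq_single i0,
        Pi.single_eq_same, Pi.single_eq_same]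
      · ring
      · intro k _ hk
        rw [Pi.single_eq_of_ne hk, zero_mul]
      · intro h
        exact absurd (Finset.mem_univ _) h
      · intro k _ hk
        rw [Pi.single_eq_of_ne hk, zero_mul]
      · intro h
        exact absurd (Finset.mem_univ _) h
    have hwj : w j0 ≠ 0 := by
      rw [hw, Pi.sub_apply, Pi.single_eq_same, Pi.single_eq_of_ne hj0, sub_zero, hs0]
      exact hi0
    obtain ⟨T2, M2, hT2, hMT2, k00, ks0, kss, k0s⟩ := sos_conj M1 w
    rw [hwv, sub_zero] at k00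
    have hP2 : IsUnit (P0 * T1 * T2).det := by
      rw [Matrix.det_mul]
      exact hP1.mul hT2
    have hAP2 : A * (P0 * T1 * T2) = P0 * T1 * T2 * M2 := by
      rw [← mul_assoc, hAP1, mul_assoc, hMT2, ← mul_assoc]
    have hd2 := sos_det M2 (by rw [k00, h00]; exact hδ)
    rw [k00, h00, hsim _ _ hP2 hAP2] at hd2
    refine ⟨P0 * T1 * T2, M2, hP2, hAP2, k00.trans h00, Or.inr ?_, hd2⟩
    intro c hc
    have hD : ∀ i j : Fin (n + 1), M1 i.succ j.succ =
        s * (1 : Mat (n + 1)) i j + M1 i.succ 0 * M1 0 j.succ / δ := by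
      intro i j
      have h1 := congrFun (congrFun hs i) j
      rw [Matrix.of_apply, Matrix.smul_apply, smul_eq_mul] at h1
      linear_combination h1
    have hwD : ∀ j : Fin (n + 1), ∑ k, w k * M1 k.succ j.succ = s * w j := by
      intro j
      have h1 : ∀ k, w k * M1 k.succ j.succ = s * (w k * (1 : Mat (n + 1)) k j) +
          (w k * M1 k.succ 0) * (M1 0 j.succ / δ) := by
        intro k
        rw [hD]
        ring
      rw [Finset.sum_congr rfl (fun k _ => h1 k), Finset.sum_add_distrib, ← Finset.mul_sum,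
        ← Finset.sum_mul, hwv, zero_mul, add_zero, Finset.sum_eq_single j]
      · rw [Matrix.one_apply_eq, mul_one]
      · intro k _ hk
        rw [Matrix.one_apply_ne hk, mul_zero]
      · intro h
        exact absurd (Finset.mem_univ _) h
    have hkey : ∀ i j : Fin (n + 1), s * (1 : Mat (n + 1)) i j + M1 i.succ 0 * (s * w j) / δ =
        c * (1 : Mat (n + 1)) i j := by
      intro i j
      have h1 := congrFun (congrFun hc i) j
      rw [Matrix.of_apply, Matrix.smul_apply, smul_eq_mul, kss, ks0, k0s, hwD, hwv, sub_zero, h00,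
        hD] at h1
      rw [← h1]
      field_simp
      ring
    have htr : ∑ i : Fin (n + 1), (s * (1 : Mat (n + 1)) i i + M1 i.succ 0 * (s * w i) / δ) =
        ∑ i : Fin (n + 1), c * (1 : Mat (n + 1)) i i :=
      Finset.sum_congr rfl (fun i _ => hkey i i)
    rw [Finset.sum_add_distrib] at htr
    have hz : ∑ i : Fin (n + 1), M1 i.succ 0 * (s * w i) / δ = 0 := by
      have h1 : ∀ i, M1 i.succ 0 * (s * w i) / δ = (w i * M1 i.succ 0) * (s / δ) := by
        intro i
        ring
      rw [Finset.sum_congr rfl (fun i _ => h1 i), ← Finset.sum_mul, hwv, zero_mul]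
    rw [hz, add_zero] at htr
    simp only [Matrix.one_apply_eq, mul_one, Finset.sum_const, Finset.card_univ, Fintype.card_fin,
      nsmul_eq_mul] at htr
    have hsc : s = c := by
      have h1 : ((n + 1 : ℕ) : ℂ) ≠ 0 := Nat.cast_ne_zero.2 (Nat.succ_ne_zero n)
      exact mul_left_cancel₀ h1 htr
    have h2 := hkey i0 j0
    rw [← hsc] at h2
    have h3 : M1 i0.succ 0 * (s * w j0) / δ = 0 := by linear_combination h2
    rw [hs0] at h3
    exact (div_ne_zero (mul_ne_zero hi0 (mul_ne_zero hs1 hwj)) hδ) h3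

end Pool.Agent.MOB
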