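import Pool.Agent.MOB.Sos

/-!
# MOB/Sou: factorisation with prescribed eigenvalues (Sourour)

Proof. Induction on `n`. Size `1`: `P = 1`, `L = (β 0)`, `U = (γ 0)`. Size `n + 1 ≥ 2`: by
`sou_step` (MOB/Sos) with `δ = β 0 * γ 0` there is an invertible `P1` with
`A P1 = P1 [[δ, w], [v, D]]` and the Schur complement `S = D - v w / δ` is non scalar or of size one;
`det S = det A / δ = ∏_{i ≥ 1} β_i γ_i`. By induction `S P2 = P2 L' U'`. Then with
`P = P1 diag (1, P2)`: `P⁻¹ A P = [[δ, w P2], [P2⁻¹ v, P2⁻¹ D P2]] = L U`, where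
`L = [[β 0, 0], [P2⁻¹ v / γ 0, L']]`, `U = [[γ 0, w P2 / β 0], [0, U']]`. Use
`Matrix.fromBlocks`/`Fin.cons` blocks or entrywise with `Fin.cases` (see
`RevMaps/Triang.lean`, `exists_triangular`, for an analogous induction with `Fin (n + 1)`).
-/

namespace Pool.Agent.MOB

open MvPowerSeries Pool.Agent.RevMaps Pool.Agent.INV5

variable {n : ℕ}

private def soubl {m : ℕ} (a : ℂ) (r c : Fin m → ℂ) (D : Mat m) : Mat (m + 1) :=
  Matrix.of fun i j => Fin.cases (Fin.cases a r j) (fun i' => Fin.cases (c i') (fun j' => D i' j') j) i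

private theorem soubl_00 {m : ℕ} (a : ℂ) (r c : Fin m → ℂ) (D : Mat m) :
    soubl a r c D 0 0 = a := rfl

private theorem soubl_0s {m : ℕ} (a : ℂ) (r c : Fin m → ℂ) (D : Mat m) (j : Fin m) :
    soubl a r c D 0 j.succ = r j := rfl

private theorem soubl_s0 {m : ℕ} (a : ℂ) (r c : Fin m → ℂ) (D : Mat m) (i : Fin m) :
    soubl a r c D i.succ 0 = c i := rfl

private theorem soubl_ss {m : ℕ} (a : ℂ) (r c : Fin m → ℂ) (D : Mat m) (i j : Fin m) :
    soubl a r c D i.succ j.succ = D i j := rfl

private theorem soumul {m : ℕ} (X Y : Mat (m + 1)) (i j : Fin (m + 1)) :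
    (X * Y) i j = X i 0 * Y 0 j + ∑ k : Fin m, X i k.succ * Y k.succ j := by
  rw [Matrix.mul_apply, Fin.sum_univ_succ]

theorem sourour : ∀ (n : ℕ) (A : Mat (n + 1)) (β γ : Fin (n + 1) → ℂ),
    (n = 0 ∨ ∀ c : ℂ, A ≠ c • (1 : Mat (n + 1))) → (∀ i, β i ≠ 0) → (∀ i, γ i ≠ 0) →
    A.det = ∏ i, β i * γ i →
    ∃ P L U : Mat (n + 1), IsUnit P.det ∧ A * P = P * (L * U) ∧
      (∀ i j, i < j → L i j = 0) ∧ (∀ i, L i i = β i) ∧
      (∀ i j, j < i → U i j = 0) ∧ (∀ i, U i i = γ i) := by
  intro n
  induction n with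
  | zero =>
    intro A β γ _ _ _ hdet
    have h0 : ∀ i : Fin (0 + 1), i = 0 := fun i => Subsingleton.elim (α := Fin 1) i 0
    refine ⟨1, Matrix.of fun _ _ => β 0, Matrix.of fun _ _ => γ 0, ?_, ?_, ?_, ?_, ?_, ?_⟩
    · rw [Matrix.det_one]
      exact isUnit_one
    · rw [mul_one, one_mul]
      ext i j
      rw [h0 i, h0 j, Matrix.mul_apply, Fin.sum_univ_one]
      have h1 : A.det = A 0 0 := Matrix.det_fin_one A
      rw [← h1, hdet, Fin.prod_univ_one]
      rfl
    · intro i j hij
      rw [h0 i, h0 j] at hij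
      exact absurd hij (lt_irrefl _)
    · intro i
      rw [h0 i]
      rfl
    · intro i j hij
      rw [h0 i, h0 j] at hij
      exact absurd hij (lt_irrefl _)
    · intro i
      rw [h0 i]
      rfl
  | succ n ih =>
    intro A β γ hA hβ hγ hdet
    have hA' : ∀ c : ℂ, A ≠ c • (1 : Mat (n + 2)) := by
      rcases hA with h | h
      · exact absurd h (Nat.succ_ne_zero n)
      · exact h
    have hδ : β 0 * γ 0 ≠ 0 := mul_ne_zero (hβ 0) (hγ 0)
    have hdet0 : A.det ≠ 0 := by
      rw [hdet]
      exact Finset.prod_ne_zero_iff.2 (fun i _ => mul_ne_zero (hβ i) (hγ i))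
    obtain ⟨P1, M, hP1, hAM, h00, hns, hSd⟩ := sou_step n A hA' hdet0 (β 0 * γ 0) hδ
    obtain ⟨S, hS⟩ : ∃ S : Mat (n + 1), S = Matrix.of fun i j : Fin (n + 1) =>
      M i.succ j.succ - M i.succ 0 * M 0 j.succ / (β 0 * γ 0) := ⟨_, rfl⟩
    rw [← hS] at hns hSd
    have hSdet : S.det = ∏ i : Fin (n + 1), β i.succ * γ i.succ := by
      rw [hSd, hdet, Fin.prod_univ_succ, mul_div_cancel_left₀ _ hδ]
    obtain ⟨P2, L', U', hP2, hSP, hL1, hL2, hU1, hU2⟩ :=
      ih S (fun i => β i.succ) (fun i => γ i.succ) hns (fun i => hβ _) (fun i => hγ _) hSdet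
    obtain ⟨x, hx⟩ : ∃ x : Fin (n + 1) → ℂ, ∀ i, ∑ k, P2 i k * x k = M i.succ 0 := by
      refine ⟨P2⁻¹.mulVec (fun i => M i.succ 0), fun i => ?_⟩
      have h1 : P2.mulVec (P2⁻¹.mulVec (fun i => M i.succ 0)) = fun i => M i.succ 0 := by
        rw [Matrix.mulVec_mulVec, Matrix.mul_nonsing_inv P2 hP2, Matrix.one_mulVec]
      exact congrFun h1 i
    obtain ⟨y, hy⟩ : ∃ y : Fin (n + 1) → ℂ, ∀ j, y j = ∑ k, M 0 k.succ * P2 k j :=
      ⟨_, fun j => rfl⟩
    have hDP : ∀ i j : Fin (n + 1), ∑ k, M i.succ k.succ * P2 k j =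
        (P2 * (L' * U')) i j + M i.succ 0 * y j / (β 0 * γ 0) := by
      intro i j
      rw [← hSP, Matrix.mul_apply, hy, Finset.mul_sum, Finset.sum_div, ← Finset.sum_add_distrib]
      refine Finset.sum_congr rfl (fun k _ => ?_)
      rw [hS, Matrix.of_apply]
      ring
    refine ⟨P1 * soubl 1 0 0 P2, soubl (β 0) 0 (fun i => x i / γ 0) L',
      soubl (γ 0) (fun j => y j / β 0) 0 U', ?_, ?_, ?_, ?_, ?_, ?_⟩
    · rw [Matrix.det_mul]
      refine hP1.mul ?_
      rw [Matrix.det_succ_row_zero, Fin.sum_univ_succ]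
      simp only [soubl_0s, Pi.zero_apply, mul_zero, zero_mul, Finset.sum_const_zero, add_zero]
      rw [soubl_00, Fin.val_zero, pow_zero, one_mul, one_mul, Fin.succAbove_zero]
      exact hP2
    · rw [← mul_assoc, hAM, mul_assoc, mul_assoc]
      congr 1
      ext i j
      rw [soumul M, soumul (soubl 1 0 0 P2)]
      induction i using Fin.cases with
      | zero =>
        simp only [soubl_00, soubl_0s, Pi.zero_apply, zero_mul, Finset.sum_const_zero, add_zero,
          one_mul]
        rw [soumul]
        simp only [soubl_00, soubl_0s, Pi.zero_apply, zero_mul, Finset.sum_const_zero, add_zero]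
        induction j using Fin.cases with
        | zero =>
          simp only [soubl_00, soubl_s0, Pi.zero_apply, mul_zero, Finset.sum_const_zero, add_zero,
            mul_one]
          exact h00
        | succ j' =>
          simp only [soubl_0s, soubl_ss, Pi.zero_apply, mul_zero, zero_add]
          rw [← hy, mul_div_cancel₀ _ (hβ 0)]
      | succ i' =>
        simp only [soubl_s0, soubl_ss, Pi.zero_apply, zero_mul, zero_add]
        induction j using Fin.cases with
        | zero =>
          simp only [soubl_00, soubl_s0, Pi.zero_apply, mul_zero, Finset.sum_const_zero, add_zero,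
            mul_one]
          rw [← hx i']
          refine Finset.sum_congr rfl (fun k _ => ?_)
          rw [soumul]
          simp only [soubl_00, soubl_s0, soubl_ss, Pi.zero_apply, mul_zero, Finset.sum_const_zero,
            add_zero]
          rw [div_mul_cancel₀ _ (hγ 0)]
        | succ j' =>
          simp only [soubl_0s, soubl_ss, Pi.zero_apply, mul_zero, zero_add]
          rw [hDP]
          have h1 : ∀ k : Fin (n + 1), P2 i' k *
              (soubl (β 0) 0 (fun i => x i / γ 0) L' * soubl (γ 0) (fun j => y j / β 0) 0 U')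
                k.succ j'.succ =
              P2 i' k * x k * (y j' / (β 0 * γ 0)) + P2 i' k * (L' * U') k j' := by
            intro k
            rw [soumul]
            simp only [soubl_0s, soubl_s0, soubl_ss]
            rw [Matrix.mul_apply]
            have h2 := hβ 0
            have h3 := hγ 0
            field_simp
          rw [Finset.sum_congr rfl (fun k _ => h1 k), Finset.sum_add_distrib, ← Finset.sum_mul, hx,
            ← Matrix.mul_apply]
          ring
    · intro i j
      refine Fin.cases ?_ (fun i' => ?_) i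
      · refine Fin.cases ?_ (fun j' => ?_) j
        · intro h
          exact absurd h (lt_irrefl _)
        · intro _
          rfl
      · refine Fin.cases ?_ (fun j' => ?_) j
        · intro h
          exact absurd h (Fin.not_lt_zero _)
        · intro h
          rw [soubl_ss]
          exact hL1 i' j' (Fin.succ_lt_succ_iff.1 h)
    · intro i
      refine Fin.cases ?_ (fun i' => ?_) i
      · rfl
      · rw [soubl_ss]
        exact hL2 i'
    · intro i j
      refine Fin.cases ?_ (fun j' => ?_) j
      · refine Fin.cases ?_ (fun i' => ?_) i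
        · intro h
          exact absurd h (lt_irrefl _)
        · intro _
          rfl
      · refine Fin.cases ?_ (fun i' => ?_) i
        · intro h
          exact absurd h (Fin.not_lt_zero _)
        · intro h
          rw [soubl_ss]
          exact hU1 i' j' (Fin.succ_lt_succ_iff.1 h)
    · intro i
      refine Fin.cases ?_ (fun i' => ?_) i
      · rfl
      · rw [soubl_ss]
        exact hU2 i'

end Pool.Agent.MOB
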