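import Pool.Agent.MOB.Lid
import Pool.Agent.MOB.Mst

/-!
# MOB/Sur: the linearised cubic equation is solvable

Proof. Let `Z' = ZZ T 3 ⊔ {br X2 (qd θ)} ⊔ {br X3 (qd θ)}` (ranges of linear maps). For
`r ∈ OV 3`: `r - act (T k) (T k) r ∈ ZZ T 3 ⊆ Z'` (`good_T`), so `Z' ∩ OV 3` is stable under
the `T k` (hence under `S_k`, `R_k`). Let `M = {m | ∀ θ, br (pj m) (qd θ) ∈ Z'}`, a submodule of
covectors. It is stable under `m ↦ m T_k`: `br (T_k.pj m) (qd θ) = T_k.(br (pj m) (T_k.qd θ))`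
(`act_br`, `act_pj`, `act_qd`). `X2 = pj (a2 S_2⁻¹)`, so `a2 S_2⁻¹ ∈ M`, hence `a2 ∈ M` (multiply by
`S_2 = T_0 T_1`); then `X2 - R_3.X2` is `pj` of an element of `M`, so `a3 S_3⁻¹ ∈ M` and `a3 ∈ M`. By
`gen`, `M = ⊤`. Every tuple `tens (monomial m 1) (single i 1)` with `deg m = 2` is `qd θ` for some
`θ` modulo `OV 3` (`INV5.pw_surj`), and `br (pj _) (OV 3) ⊆ OV 4 ⊆ ZZ T 3`. Apply `mono_step`
with `e = 2`, `b = 0`, `δ = 0`, `Z = Z'`.
-/

namespace Pool.Agent.MOB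

open MvPowerSeries Pool.Agent.RevMaps Pool.Agent.INV5

variable {n : ℕ}

variable {A : Mat n} {T : Fin 4 → Mat n} {N : ℕ} {a2 a3 y : Fin n → ℂ}

/-- bracket with a fixed field as a linear map of the quadratic coefficients -/
private noncomputable def surL (k : V n) : QC n →ₗ[ℂ] V n where
  toFun θ := br k (qd θ)
  map_add' a b := by rw [map_add, br_add_right]
  map_smul' c a := by rw [map_smul, br_smul_right, RingHom.id_apply]

private noncomputable def surZ (T : Fin 4 → Mat n) (k k' : V n) : Submodule ℂ (V n) :=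
  ZZ T 3 ⊔ (LinearMap.range (surL k) ⊔ LinearMap.range (surL k'))

private theorem surZ_good (T : Fin 4 → Mat n) (hT : ∀ k, T k * T k = 1) (x x' : V n) (k : Fin 4) :
    Good (surZ T x x') 3 (T k) (T k) :=
  ⟨hT k, hT k, fun a ha => (le_sup_left : ZZ T 3 ≤ surZ T x x') ((good_T T hT 3 k).2.2 a ha)⟩

/-- the covectors all of whose brackets are in `Z'` -/
private noncomputable def surM (Z' : Submodule ℂ (V n)) : Submodule ℂ (Fin n → ℂ) where
  carrier := {m | ∀ θ : QC n, br (pj m) (qd θ) ∈ Z'}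
  add_mem' := by
    intro a b ha hb θ
    rw [pj_add, br_add_left]
    exact Z'.add_mem (ha θ) (hb θ)
  zero_mem' := by
    intro θ
    rw [pj_zero, br_zero_left]
    exact Z'.zero_mem
  smul_mem' := by
    intro c a ha θ
    rw [pj_smul, br_smul_left]
    exact Z'.smul_mem c (ha θ)

private theorem surM_iff {Z' : Submodule ℂ (V n)} {m : Fin n → ℂ} :
    m ∈ surM Z' ↔ ∀ θ : QC n, br (pj m) (qd θ) ∈ Z' := Iff.rfl

private theorem surM_stable {Z' : Submodule ℂ (V n)} {S : Mat n} (hS : S * S = 1)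
    (hg : Good Z' 3 S S) {m : Fin n → ℂ} (hm : m ∈ surM Z') :
    Matrix.vecMul m S ∈ surM Z' := by
  rw [surM_iff] at hm ⊢
  intro θ
  rw [← act_pj S S hS m]
  have h1 : qd θ = act S S (qd (gw S θ)) := by
    rw [← act_qd S S hS, act_act, hS, act_one]
  rw [h1, ← act_br S S hS]
  exact hg.stable (OV_br (OV_pj m) (OV_qd _) (by norm_num)) (hm _)

theorem sur (hn : 2 ≤ n) (h : IsDat A T N a2 a3 y) (r : V n) (hr : OV 3 r) :
    ∃ θ2 θ3 : QC n, r - (br (X2 T a2) (qd θ2) + br (X3 T a2 a3) (qd θ3)) ∈ ZZ T 3 := by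
  set Z' := surZ T (X2 T a2) (X3 T a2 a3) with hZ'
  have hle : ZZ T 3 ≤ Z' := le_sup_left
  have hl2 : ∀ θ : QC n, br (X2 T a2) (qd θ) ∈ Z' := fun θ =>
    (le_sup_of_le_right le_sup_left : LinearMap.range (surL (X2 T a2)) ≤ Z') ⟨θ, rfl⟩
  have hl3 : ∀ θ : QC n, br (X3 T a2 a3) (qd θ) ∈ Z' := fun θ =>
    (le_sup_of_le_right le_sup_right : LinearMap.range (surL (X3 T a2 a3)) ≤ Z') ⟨θ, rfl⟩
  have hst : ∀ k, ∀ m ∈ surM Z', Matrix.vecMul m (T k) ∈ surM Z' := fun k m hm =>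
    surM_stable (h.sq k) (surZ_good T h.sq _ _ k) hm
  have hX2 : X2 T a2 = pj (Matrix.vecMul a2 (SI T 2)) :=
    act_pj _ _ (SS_SI T h.sq 2) a2
  have m2 : Matrix.vecMul a2 (SI T 2) ∈ surM Z' := by
    rw [surM_iff]
    intro θ
    rw [← hX2]
    exact hl2 θ
  have hSI2 : SI T 2 = T 1 * T 0 := rfl
  have hSI3 : SI T 3 = T 2 * T 1 * T 0 := rfl
  have hSS3 : SS T 3 = T 0 * T 1 * T 2 := rfl
  have ha2 : a2 ∈ surM Z' := by
    have h1 := hst 1 _ (hst 0 _ m2)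
    rw [Matrix.vecMul_vecMul, Matrix.vecMul_vecMul, hSI2] at h1
    have h2 : T 1 * T 0 * (T 0 * T 1) = 1 := by
      rw [mul_assoc (T 1) (T 0) (T 0 * T 1), ← mul_assoc (T 0) (T 0) (T 1), h.sq 0, one_mul, h.sq 1]
    rwa [h2, Matrix.vecMul_one] at h1
  have m3 : Matrix.vecMul (Matrix.vecMul a2 (SI T 2)) (RR T 3) ∈ surM Z' := by
    have h1 := hst 0 _ (hst 1 _ (hst 2 _ (hst 3 _ (hst 2 _ (hst 1 _ (hst 0 _ m2))))))
    simp only [Matrix.vecMul_vecMul] at h1 ⊢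
    have h2 : SI T 2 * T 0 * T 1 * T 2 * T 3 * T 2 * T 1 * T 0 = SI T 2 * RR T 3 := by
      rw [RR, hSI3, hSS3]
      simp only [mul_assoc]
    rwa [h2] at h1
  have hX3 : X3 T a2 a3 = pj (Matrix.vecMul a3 (SI T 3)) +
      pj (Matrix.vecMul a2 (SI T 2) - Matrix.vecMul (Matrix.vecMul a2 (SI T 2)) (RR T 3)) := by
    rw [X3, hX2, act_pj _ _ (SS_SI T h.sq 3), act_pj _ _ (RR_sq T h.sq 3), pj_sub]
  have m4 : Matrix.vecMul a3 (SI T 3) ∈ surM Z' := by
    rw [surM_iff]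
    intro θ
    have h1 := (surM Z').sub_mem m2 m3
    rw [surM_iff] at h1
    have h2 := Z'.sub_mem (hl3 θ) (h1 θ)
    rw [hX3, br_add_left, add_sub_cancel_right] at h2
    exact h2
  have ha3 : a3 ∈ surM Z' := by
    have h1 := hst 2 _ (hst 1 _ (hst 0 _ m4))
    simp only [Matrix.vecMul_vecMul] at h1
    have h2 : SI T 3 * T 0 * T 1 * T 2 = 1 := by
      rw [hSI3, mul_assoc (T 2 * T 1) (T 0) (T 0), h.sq 0, mul_one, mul_assoc (T 2) (T 1) (T 1),
        h.sq 1, mul_one, h.sq 2]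
    rwa [h2, Matrix.vecMul_one] at h1
  have htop : surM Z' = ⊤ := h.gen _ hst ha2 ha3
  have hall : ∀ r : V n, OV 3 r → r ∈ Z' := by
    refine mono_step hn (e := 2) le_rfl Z' (fun r hr => hle (ZZ_of_OV T 3 hr)) (fun _ => 0) 0
      (fun _ => by rw [norm_zero]) (by norm_num) ?_
    intro j m hm i
    rw [map_zero, add_zero]
    have ho : OV 2 (tens (monomial m (1 : ℂ)) (Pi.single i 1)) := by
      have := OV_tens (O_monomial m) (Pi.single i 1)
      rwa [hm] at this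
    obtain ⟨w, hw⟩ := pw_surj _ _ _ ho
    have h1 : tens (monomial m (1 : ℂ)) (Pi.single i 1) =
        qd w + (tens (monomial m (1 : ℂ)) (Pi.single i 1) - pw n 2 w) := by
      show _ = pw n 2 w + _
      abel
    rw [h1, br_add_right]
    refine Z'.add_mem ?_ (hle (ZZ_of_OV T 3 (OV_br (OV_pj _) hw (by norm_num))))
    have h2 : (Pi.single j 1 : Fin n → ℂ) ∈ surM Z' := by
      rw [htop]
      exact Submodule.mem_top
    exact h2 w
  have hr' := hall r hr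
  obtain ⟨z, hz, x, hx, hzx⟩ := Submodule.mem_sup.1 hr'
  obtain ⟨x2, hx2, x3, hx3, hxx⟩ := Submodule.mem_sup.1 hx
  obtain ⟨θ2, rfl⟩ := hx2
  obtain ⟨θ3, rfl⟩ := hx3
  refine ⟨θ2, θ3, ?_⟩
  have h3 : r - (br (X2 T a2) (qd θ2) + br (X3 T a2 a3) (qd θ3)) = z := by
    rw [← hzx, ← hxx]
    show z + (br (X2 T a2) (qd θ2) + br (X3 T a2 a3) (qd θ3)) - _ = z
    abel
  rw [h3]
  exact hz

end Pool.Agent.MOB
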