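import Pool.Agent.MOB.Feq
import Pool.Agent.MOB.Sur
import Pool.Agent.MOB.Qso

/-!
# MOB/Sto: solving the equation modulo order 4, close to the base

Proof. `jet_data` (with `A' = T_3 T_2 T_1 T_0`, `prod_inv`) gives `c2, φ3`. Put `X = QC n × QC n`,
`w = wp T N c2 p` for `p = (ε, θ2, θ3)`, `v k = pj (mu k) + qd (w k) = bs T a2 a3 y w k`, so
`R_k v_k = -v_k` (`act_pj_mu`, `wp_RR`), `∑ v_k = ε • qd c2` (`mu_sum`, `wp_sum`), and
`cub4 v = crs p w + cub4 (qd w)` since `cub4 (pj mu) = 0` (`br_pj_pj`). In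
`Y = V n ⧸ ZZ T 3` (finite-dimensional: quotient of `V n ⧸ OVs n 4`, `INV5.finite_quot 3`,
because `OVs n 4 ≤ ZZ T 3`) let `Y1` be the image of `OVs n 3`, `L p = -[crs (pj mu) (qd (wp p))]`,
`q p p' = ε ε' [φ3 - (1/2) DD (qd c2) (qd c2)] - [bilinear form of cub4 (qd (wp p), qd (wp p'))]`
with the bilinear form `(v, v') ↦ (1/2) ∑_{j<k} br (v j) (v' k)`. `hs` is `lid` and `sur`
(sign: take `-r`). `quad_solve` with `η'` so small that `‖p‖ < η'` implies `‖wp p k‖ < η` (linear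
map on a finite-dimensional space). Then `from_eq`.
-/

namespace Pool.Agent.MOB

open MvPowerSeries Pool.Agent.RevMaps Pool.Agent.INV5

variable {n : ℕ}

variable {A : Mat n} {T : Fin 4 → Mat n} {N : ℕ} {a2 a3 y : Fin n → ℂ}

theorem cub4_add (p w : Fin 4 → V n) :
    cub4 (fun k => p k + w k) = cub4 p + crs p w + cub4 w := by
  unfold cub4 crs
  simp only [br_add_left, br_add_right]
  rw [← smul_add, ← smul_add]
  congr 1
  abel

theorem finite_ZZ (T : Fin 4 → Mat n) : FiniteDimensional ℂ (V n ⧸ ZZ T 3) := by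
  have h1 : OVs n (3 + 1) ≤ ZZ T 3 := fun a ha => ZZ_of_OV T 3 ha
  haveI := finite_quot (n := n) 3
  exact Module.Finite.of_surjective (Submodule.factor h1) (Submodule.factor_surjective h1)

/-- `crs` is linear in the second argument -/
private noncomputable def stoC (p : Fin 4 → V n) : (Fin 4 → V n) →ₗ[ℂ] V n where
  toFun w := crs p w
  map_add' a b := by
    unfold crs
    simp only [Pi.add_apply, br_add_left, br_add_right]
    rw [← smul_add]
    congr 1
    abel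
  map_smul' c a := by
    unfold crs
    simp only [Pi.smul_apply, br_smul_left, br_smul_right, RingHom.id_apply]
    rw [smul_comm c (1 / 2 : ℂ)]
    congr 1
    simp only [smul_add]

/-- the bilinear form of `cub4` -/
private noncomputable def stoB (v w : Fin 4 → V n) : V n :=
  (1 / 2 : ℂ) • (br (v 0) (w 1) + br (v 0) (w 2) + br (v 0) (w 3) + br (v 1) (w 2) +
    br (v 1) (w 3) + br (v 2) (w 3))

private theorem stoB_add_left (v v' w : Fin 4 → V n) :
    stoB (v + v') w = stoB v w + stoB v' w := by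
  unfold stoB
  simp only [Pi.add_apply, br_add_left]
  rw [← smul_add]
  congr 1
  abel

private theorem stoB_add_right (v w w' : Fin 4 → V n) :
    stoB v (w + w') = stoB v w + stoB v w' := by
  unfold stoB
  simp only [Pi.add_apply, br_add_right]
  rw [← smul_add]
  congr 1
  abel

private theorem stoB_smul_left (c : ℂ) (v w : Fin 4 → V n) :
    stoB (c • v) w = c • stoB v w := by
  unfold stoB
  simp only [Pi.smul_apply, br_smul_left]
  rw [smul_comm c (1 / 2 : ℂ)]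
  congr 1
  simp only [smul_add]

private theorem stoB_smul_right (c : ℂ) (v w : Fin 4 → V n) :
    stoB v (c • w) = c • stoB v w := by
  unfold stoB
  simp only [Pi.smul_apply, br_smul_right]
  rw [smul_comm c (1 / 2 : ℂ)]
  congr 1
  simp only [smul_add]

private theorem stoB_OV {v w : Fin 4 → V n} (hv : ∀ k, OV 2 (v k)) (hw : ∀ k, OV 2 (w k)) :
    OV 3 (stoB v w) := by
  have hb : ∀ j k, OV 3 (br (v j) (w k)) := fun j k => OV_br (hv j) (hw k) (by norm_num)
  exact ((((((hb 0 1).add (hb 0 2)).add (hb 0 3)).add (hb 1 2)).add (hb 1 3)).add (hb 2 3)).smul _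

private theorem crs_OV {v w : Fin 4 → V n} (hv : ∀ k, OV 2 (v k)) (hw : ∀ k, OV 2 (w k)) :
    OV 3 (crs v w) := by
  have hb : ∀ j k, OV 3 (br (v j) (w k)) := fun j k => OV_br (hv j) (hw k) (by norm_num)
  have hb' : ∀ j k, OV 3 (br (w j) (v k)) := fun j k => OV_br (hw j) (hv k) (by norm_num)
  exact (((((((hb 0 1).add (hb' 0 1)).add ((hb 0 2).add (hb' 0 2))).add
    ((hb 0 3).add (hb' 0 3))).add ((hb 1 2).add (hb' 1 2))).add
    ((hb 1 3).add (hb' 1 3))).add ((hb 2 3).add (hb' 2 3))).smul _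

/-- `qd` on tuples -/
private noncomputable def stoQ : (Fin 4 → QC n) →ₗ[ℂ] (Fin 4 → V n) :=
  LinearMap.pi fun k => qd ∘ₗ LinearMap.proj k

/-- the quadratic form -/
private noncomputable def stoq (c : V n) (W : (ℂ × (QC n × QC n)) →ₗ[ℂ] (Fin 4 → V n)) :
    (ℂ × (QC n × QC n)) →ₗ[ℂ] (ℂ × (QC n × QC n)) →ₗ[ℂ] V n :=
  LinearMap.mk₂ ℂ (fun p p' => (p.1 * p'.1) • c - stoB (W p) (W p'))
    (fun p p' q => by
      rw [map_add, stoB_add_left, Prod.fst_add, add_mul, add_smul]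
      abel)
    (fun a p q => by
      rw [map_smul, stoB_smul_left, Prod.smul_fst, smul_eq_mul, mul_assoc, mul_smul, smul_sub])
    (fun p q q' => by
      rw [map_add, stoB_add_right, Prod.fst_add, mul_add, add_smul]
      abel)
    (fun a p q => by
      rw [map_smul, stoB_smul_right, Prod.smul_fst, smul_eq_mul, mul_left_comm, mul_smul,
        smul_sub])

theorem stage_one (hn : 2 ≤ n) (h : IsDat A T N a2 a3 y) (f : FMap n) (hf : lin f = A) :
    ∀ η > (0 : ℝ), ∃ ε : ℂ, ε ≠ 0 ∧ ∃ w : Fin 4 → QC n, (∀ k, ‖w k‖ < η) ∧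
      ∃ τ : Fin 4 → FMap n, (∀ k, τ k * τ k = 1) ∧
        (∀ k, Jet2 (τ k) (uu T (bs T a2 a3 y w) k) (T k)) ∧
        EqM 4 (τ 0 * τ 1 * τ 2 * τ 3) (dil ε f) := by
  intro η hη
  obtain ⟨c2, φ3, hφ, hjet⟩ := jet_data f (T 3 * T 2 * T 1 * T 0) (by
    rw [hf, ← h.prod]
    exact (prod_inv T h.sq).1)
  haveI := finite_ZZ T
  -- the linear map of perturbations
  set W : (ℂ × (QC n × QC n)) →ₗ[ℂ] (Fin 4 → V n) := stoQ ∘ₗ wp T N c2 with hW
  have hWk : ∀ p k, W p k = qd (wp T N c2 p k) := fun p k => rfl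
  have hWO : ∀ p k, OV 2 (W p k) := fun p k => by rw [hWk]; exact OV_qd _
  set P : Fin 4 → V n := fun k => pj (mu T a2 a3 y k) with hP
  have hPO : ∀ k, OV 2 (P k) := fun k => OV_pj _
  set D : V n := φ3 - (1 / 2 : ℂ) • DD (qd c2) (qd c2) with hD
  have hDO : OV 3 D := hφ.sub ((OV_DD (OV_qd c2) (OV_qd c2) (by norm_num)).smul _)
  set Y1 : Submodule ℂ (V n ⧸ ZZ T 3) := (OVs n 3).map (ZZ T 3).mkQ with hY1
  set L : (ℂ × (QC n × QC n)) →ₗ[ℂ] (V n ⧸ ZZ T 3) := -((ZZ T 3).mkQ ∘ₗ stoC P ∘ₗ W) with hL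
  set q : (ℂ × (QC n × QC n)) →ₗ[ℂ] (ℂ × (QC n × QC n)) →ₗ[ℂ] (V n ⧸ ZZ T 3) :=
    (stoq D W).compr₂ (ZZ T 3).mkQ with hq
  have hLp : ∀ p, L p = (ZZ T 3).mkQ (-crs P (W p)) := by
    intro p
    rw [map_neg]
    rfl
  have hqp : ∀ p p', q p p' = (ZZ T 3).mkQ ((p.1 * p'.1) • D - stoB (W p) (W p')) := by
    intro p p'
    rfl
  have h1 : ∀ p, L p ∈ Y1 := by
    intro p
    rw [hLp]
    refine ⟨_, ?_, rfl⟩
    exact fun i => (crs_OV hPO (hWO p) i).neg
  have h2 : ∀ p p', q p p' ∈ Y1 := by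
    intro p p'
    rw [hqp]
    exact ⟨_, (hDO.smul _).sub (stoB_OV (hWO p) (hWO p')), rfl⟩
  have h3 : ∀ z ∈ Y1, ∃ x, L (0, x) = z := by
    rintro z ⟨r, hr, rfl⟩
    obtain ⟨θ2, θ3, hθ⟩ := sur hn h (-r) (fun i => (hr i).neg)
    refine ⟨(θ2, θ3), ?_⟩
    rw [hLp]
    have h4 := lid h c2 θ2 θ3
    have h5 : (-crs P (W (0, (θ2, θ3)))) - r ∈ ZZ T 3 := by
      have h6 := (ZZ T 3).sub_mem hθ h4
      have h7 : -r - (br (X2 T a2) (qd θ2) + br (X3 T a2 a3) (qd θ3)) -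
          (crs (fun k => pj (mu T a2 a3 y k)) (fun k => qd (wp T N c2 (0, (θ2, θ3)) k)) -
            (br (X2 T a2) (qd θ2) + br (X3 T a2 a3) (qd θ3))) =
          (-crs P (W (0, (θ2, θ3)))) - r := by
        show _ - _ - (crs P (W (0, (θ2, θ3))) - _) = _
        abel
      rwa [h7] at h6
    exact (Submodule.Quotient.eq _).2 h5
  -- continuity of `wp`
  set wc : (ℂ × (QC n × QC n)) →L[ℂ] (Fin 4 → QC n) := (wp T N c2).toContinuousLinearMap with hwc
  have hwcv : ∀ p, wc p = wp T N c2 p := fun p => rfl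
  obtain ⟨ε, hε, hεn, x, hx, heq⟩ := quad_solve Y1 L q h1 h2 h3 (η / (‖wc‖ + 1))
    (div_pos hη (by positivity))
  refine ⟨ε, hε, wp T N c2 (ε, x), ?_, ?_⟩
  · intro k
    have h4 : ‖(ε, x)‖ < η / (‖wc‖ + 1) := by
      rw [Prod.norm_def]
      exact max_lt hεn hx
    have h5 : ‖wc (ε, x)‖ ≤ ‖wc‖ * ‖(ε, x)‖ := wc.le_opNorm _
    have h6 : ‖wp T N c2 (ε, x) k‖ ≤ ‖wc (ε, x)‖ := by
      rw [hwcv]
      exact norm_le_pi_norm _ k
    have h7 : 0 < ‖wc‖ + 1 := by positivity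
    rw [lt_div_iff₀ h7] at h4
    nlinarith [norm_nonneg (ε, x), norm_nonneg wc]
  · set w := wp T N c2 (ε, x) with hw
    have hbs : ∀ k, bs T a2 a3 y w k = P k + W (ε, x) k := fun k => rfl
    refine from_eq T h.sq f (by rw [hf, h.prod]) hε c2 φ3 hφ (hjet ε hε) (bs T a2 a3 y w) ?_ ?_ ?_ ?_
    · intro k
      rw [hbs]
      exact (hPO k).add (hWO _ k)
    · intro k
      rw [hbs, act_add, hWk, wp_RR T h.sq, act_pj_mu h k, neg_add]
    · have h4 := wp_sum T h.sq N h.pow c2 (ε, x)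
      have h5 := mu_sum h
      have h6 : P 0 + P 1 + P 2 + P 3 = 0 := by
        show pj _ + pj _ + pj _ + pj _ = 0
        rw [← pj_add, ← pj_add, ← pj_add, h5, pj_zero]
      rw [hbs, hbs, hbs, hbs]
      calc P 0 + W (ε, x) 0 + (P 1 + W (ε, x) 1) + (P 2 + W (ε, x) 2) + (P 3 + W (ε, x) 3) =
          (P 0 + P 1 + P 2 + P 3) +
            (W (ε, x) 0 + W (ε, x) 1 + W (ε, x) 2 + W (ε, x) 3) := by abel
        _ = ε • qd c2 := by rw [h6, zero_add]; exact h4
    · have hc : cub4 (bs T a2 a3 y w) = crs P (W (ε, x)) + stoB (W (ε, x)) (W (ε, x)) := by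
        have h4 := cub4_add P (W (ε, x))
        have h5 : cub4 P = 0 := by
          unfold cub4
          simp only [hP, br_pj_pj, add_zero, smul_zero]
        rw [h5, zero_add] at h4
        exact h4
      rw [hLp, hqp, ← map_add] at heq
      have h6 := (Submodule.Quotient.mk_eq_zero (ZZ T 3)).1 heq
      have h7 : -crs P (W (ε, x)) + ((ε * ε) • D - stoB (W (ε, x)) (W (ε, x))) =
          ε ^ 2 • D - cub4 (bs T a2 a3 y w) := by
        rw [hc, pow_two]
        abel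
      rw [← h7]
      exact h6

end Pool.Agent.MOB
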