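import Pool.Agent.MOB.Rho

/-!
# MOB/Zba: first properties of `Zt v T e`

Proofs. `Zt_of_OV`: take `a = 0`. `Zt_rho`: write `Z = Zt v T e`, `h_k = rho (u_k) T_k`,
`u_k = uu T v k` (so `S_k.u_k = v_k`, `act_SS_uu`). Take `Pi.single k a` in the definition of `Z`:
`k = 0`: `a - h_0 a ∈ Z`. `k = 1`: `rho (v_0) (S_1) b ∈ Z`, `b = a - h_1 a`; here `v_0 = u_0`,
`S_1 = T_0`, so `h_0 b ∈ Z` and `b - h_0 b ∈ Z`, hence `b ∈ Z`. `k = 2`: `rho (v_0 + v_1) S_2 b ∈ Z`,
`b = a - h_2 a`, and `rho (v_0 + v_1) S_2 b ≡ h_0 (h_1 b)` modulo order `e + 2` (`rho_rho`,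
`v_1 = T_0.u_1`); with `c = h_1 b`: `h_0 c ∈ Z`, `c - h_0 c ∈ Z`, so `c ∈ Z`, and
`b - h_1 b ∈ Z`, so `b ∈ Z`. `k = 3`: the same with three factors.
`Zt_act`: for `r ∈ OV (e + 1)`, `r - act (T k) (T k) r ∈ Z` (`Zt_rho` and `rho_high`).
-/

namespace Pool.Agent.MOB

open MvPowerSeries Pool.Agent.RevMaps Pool.Agent.INV5

variable {n : ℕ}

private theorem OV_zero (k : ℕ) : OV k (0 : V n) := fun _ => O_of_zero k

theorem Zt_of_OV (v : Fin 4 → V n) (T : Fin 4 → Mat n) (e : ℕ) {r : V n} (hr : OV (e + 2) r) :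
    r ∈ Zt v T e :=
  ⟨0, fun _ => OV_zero e, by rw [map_zero, sub_zero]; exact hr⟩

private theorem Zt_Psi (v : Fin 4 → V n) (T : Fin 4 → Mat n) (e : ℕ) {a : Fin 4 → V n}
    (ha : ∀ k, OV e (a k)) : Psi v T a ∈ Zt v T e :=
  ⟨a, ha, by rw [sub_self]; exact OV_zero _⟩

private theorem OV_single {e : ℕ} (k : Fin 4) {a : V n} (ha : OV e a) (j : Fin 4) :
    OV e ((Pi.single k a : Fin 4 → V n) j) := by
  by_cases h : j = k
  · subst h; simpa using ha
  · rw [Pi.single_eq_of_ne h]; exact OV_zero _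

private theorem SS0 (T : Fin 4 → Mat n) : SS T 0 = 1 := rfl
private theorem SI0 (T : Fin 4 → Mat n) : SI T 0 = 1 := rfl
private theorem SS1 (T : Fin 4 → Mat n) : SS T 1 = T 0 := rfl
private theorem SI1 (T : Fin 4 → Mat n) : SI T 1 = T 0 := rfl
private theorem SS2 (T : Fin 4 → Mat n) : SS T 2 = T 0 * T 1 := rfl
private theorem SI2 (T : Fin 4 → Mat n) : SI T 2 = T 1 * T 0 := rfl
private theorem SS3 (T : Fin 4 → Mat n) : SS T 3 = T 0 * T 1 * T 2 := rfl
private theorem SI3 (T : Fin 4 → Mat n) : SI T 3 = T 2 * T 1 * T 0 := rfl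

theorem Zt_rho (T : Fin 4 → Mat n) (hT : ∀ k, T k * T k = 1) (v : Fin 4 → V n)
    (hv : ∀ k, OV 2 (v k)) {e : ℕ} (k : Fin 4) {a : V n} (ha : OV e a) :
    a - rho (uu T v k) (T k) (T k) a ∈ Zt v T e := by
  have hu : ∀ k, OV 2 (uu T v k) := fun k => (hv k).act _ _
  -- the action of the `k`-th jet keeps the order
  have hO : ∀ k : Fin 4, ∀ b : V n, OV e b → OV e (rho (uu T v k) (T k) (T k) b) :=
    fun k b hb => OV_rho _ (hu k) _ _ hb
  have hv0 : v 0 = uu T v 0 := by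
    have := act_SS_uu T hT v 0
    rw [SS0, SI0, act_one] at this
    exact this.symm
  have hv1 : v 1 = act (T 0) (T 0) (uu T v 1) := by
    have := act_SS_uu T hT v 1
    rw [SS1, SI1] at this
    exact this.symm
  have hv2 : v 2 = act (T 0 * T 1) (T 1 * T 0) (uu T v 2) := by
    have := act_SS_uu T hT v 2
    rw [SS2, SI2] at this
    exact this.symm
  have h01 : T 0 * T 1 * (T 1 * T 0) = 1 := by
    rw [mul_assoc, ← mul_assoc (T 1), hT, one_mul, hT]
  -- case 0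
  have c0 : ∀ b : V n, OV e b → b - rho (uu T v 0) (T 0) (T 0) b ∈ Zt v T e := by
    intro b hb
    have h := Zt_Psi v T e (OV_single 0 hb)
    have h2 : Psi v T (Pi.single 0 b) = b - rho (uu T v 0) (T 0) (T 0) b := by
      simp [Psi]
    rwa [h2] at h
  -- case 1
  have c1 : ∀ b : V n, OV e b → b - rho (uu T v 1) (T 1) (T 1) b ∈ Zt v T e := by
    intro b hb
    have h := Zt_Psi v T e (OV_single 1 hb)
    have h2 : Psi v T (Pi.single 1 b) = rho (v 0) (SS T 1) (SI T 1)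
        (b - rho (uu T v 1) (T 1) (T 1) b) := by
      simp [Psi]
    rw [h2, SS1, SI1, hv0] at h
    set c := b - rho (uu T v 1) (T 1) (T 1) b with hc
    have hcO : OV e c := hb.sub (hO 1 b hb)
    have h3 := (Zt v T e).add_mem (c0 c hcO) h
    rwa [sub_add_cancel] at h3
  -- from `h_0 (h_1 b) ∈ Z` to `b ∈ Z`
  have d1 : ∀ b : V n, OV e b → rho (uu T v 0) (T 0) (T 0) (rho (uu T v 1) (T 1) (T 1) b) ∈
      Zt v T e → b ∈ Zt v T e := by
    intro b hb h
    have h3 := (Zt v T e).add_mem (c0 _ (hO 1 b hb)) h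
    rw [sub_add_cancel] at h3
    have h4 := (Zt v T e).add_mem (c1 b hb) h3
    rwa [sub_add_cancel] at h4
  have e1 : ∀ b : V n, OV e b → OV (e + 2) (rho (uu T v 0) (T 0) (T 0)
      (rho (uu T v 1) (T 1) (T 1) b) - rho (v 0 + v 1) (T 0 * T 1) (T 1 * T 0) b) := by
    intro b hb
    have := rho_rho (uu T v 0) (uu T v 1) (hu 0) (hu 1) (T 0) (T 0) (T 1) (T 1) (hT 0) (hT 1) hb
    rw [← hv1, ← hv0] at this
    rw [← hv0]
    exact this
  -- case 2
  have c2 : ∀ b : V n, OV e b → b - rho (uu T v 2) (T 2) (T 2) b ∈ Zt v T e := by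
    intro b hb
    have h := Zt_Psi v T e (OV_single 2 hb)
    have h2 : Psi v T (Pi.single 2 b) = rho (v 0 + v 1) (SS T 2) (SI T 2)
        (b - rho (uu T v 2) (T 2) (T 2) b) := by
      simp [Psi]
    rw [h2, SS2, SI2] at h
    set c := b - rho (uu T v 2) (T 2) (T 2) b with hc
    have hcO : OV e c := hb.sub (hO 2 b hb)
    have h5 := (Zt v T e).add_mem (Zt_of_OV v T e (e1 c hcO)) h
    rw [sub_add_cancel] at h5
    exact d1 c hcO h5
  -- case 3
  have c3 : ∀ b : V n, OV e b → b - rho (uu T v 3) (T 3) (T 3) b ∈ Zt v T e := by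
    intro b hb
    have h := Zt_Psi v T e (OV_single 3 hb)
    have h2 : Psi v T (Pi.single 3 b) = rho (v 0 + v 1 + v 2) (SS T 3) (SI T 3)
        (b - rho (uu T v 3) (T 3) (T 3) b) := by
      simp [Psi]
    rw [h2, SS3, SI3] at h
    set c := b - rho (uu T v 3) (T 3) (T 3) b with hc
    have hcO : OV e c := hb.sub (hO 3 b hb)
    have hv01 : OV 2 (v 0 + v 1) := (hv 0).add (hv 1)
    have h6 := rho_rho (v 0 + v 1) (uu T v 2) hv01 (hu 2) (T 0 * T 1) (T 1 * T 0) (T 2) (T 2)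
      h01 (hT 2) hcO
    rw [← hv2, ← mul_assoc (T 2)] at h6
    have h7 := (Zt v T e).add_mem (Zt_of_OV v T e h6) h
    rw [sub_add_cancel] at h7
    have hdO : OV e (rho (uu T v 2) (T 2) (T 2) c) := hO 2 c hcO
    have h8 := (Zt v T e).add_mem (Zt_of_OV v T e (e1 _ hdO)) h7
    rw [sub_add_cancel] at h8
    have h9 := d1 _ hdO h8
    have h10 := (Zt v T e).add_mem (c2 c hcO) h9
    rwa [sub_add_cancel] at h10
  fin_cases k
  · exact c0 a ha
  · exact c1 a ha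
  · exact c2 a ha
  · exact c3 a ha

theorem Zt_act (T : Fin 4 → Mat n) (hT : ∀ k, T k * T k = 1) (v : Fin 4 → V n)
    (hv : ∀ k, OV 2 (v k)) {e : ℕ} (k : Fin 4) {r : V n} (hr : OV (e + 1) r) :
    r - act (T k) (T k) r ∈ Zt v T e := by
  have hu : OV 2 (uu T v k) := (hv k).act _ _
  have h1 := Zt_rho T hT v hv k (hr.mono (Nat.le_succ e))
  have h2 := Zt_of_OV v T e (rho_high (uu T v k) hu (T k) (T k) hr)
  have h3 := (Zt v T e).add_mem h1 h2
  rwa [sub_add_sub_cancel] at h3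

end Pool.Agent.MOB
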