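import Pool.Agent.MOB.Zba

/-!
# MOB/Zbb: the central element

Let `Z = Zt v T e`, `h = rho (v_0 + v_1) (T_0 T_1)`; modulo order `e + 2` it is
`rho (u_0) T_0 ∘ rho (u_1) T_1` (`rho_rho`, `v_1 = T_0.u_1`), so `a - h a ∈ Z` for `a ∈ OV e`
(`Zt_rho` twice), hence `a - h^N a ∈ Z` (telescoping, `OV_rho`). By `rho_pow`
`h^N a ≡ rho (gg T N v) (B^N) a` modulo order `e + 2` and `B^N = -1` (also `(T_1 T_0)^N = -1`, the
inverse), so for `act (-1) (-1) a = -a`: `h^N a ≡ -a - br (gg T N v) a`. Hence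
`2 a + br g a ∈ Z`, `g = gg T N v`.

`br_mem`: put `u = u_k`, and `x = 2 u - g + T_k.g`. Given `a` with `act (-1) (-1) a = -a`, let
`b = T_k.a` (same symmetry). `2 b + br g b ∈ Z`, `2 a + br g a ∈ Z`, and by `Zt_rho`
`b - a - br u a ∈ Z` (as `T_k.b = a`). So, modulo `Z`: `2 br u a ≡ 2 b - 2 a ≡ -br g b + br g a`,
and `br g b ∈ OV (e + 1)`, `br g b ≡ T_k.(br g b) = br (T_k.g) a` (`Zt_act`, `act_br`). So
`br (2 u - g + T_k.g) a ∈ Z`.
-/

namespace Pool.Agent.MOB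

open MvPowerSeries Pool.Agent.RevMaps Pool.Agent.INV5

variable {n : ℕ}

theorem OV_gg (T : Fin 4 → Mat n) (N : ℕ) (v : Fin 4 → V n) (hv : ∀ k, OV 2 (v k)) :
    OV 2 (gg T N v) := by
  have h : gg T N v ∈ OVs n 2 := by
    refine (OVs n 2).sum_mem fun j _ => ?_
    exact ((hv 0).add (hv 1)).act _ _
  exact h

private theorem rho_appZ (u : V n) (S S' : Mat n) (a : V n) :
    rho u S S' a = act S S' a + br u (act S S' a) := rfl

private theorem sub_h_mem (T : Fin 4 → Mat n) (hT : ∀ k, T k * T k = 1) (v : Fin 4 → V n)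
    (hv : ∀ k, OV 2 (v k)) {e : ℕ} {a : V n} (ha : OV e a) :
    a - rho (v 0 + v 1) (T 0 * T 1) (T 1 * T 0) a ∈ Zt v T e := by
  have hu : ∀ k, OV 2 (uu T v k) := fun k => (hv k).act _ _
  have h1 := Zt_rho T hT v hv 1 ha
  have h0 := Zt_rho T hT v hv 0 (OV_rho (uu T v 1) (hu 1) (T 1) (T 1) ha)
  have h2 := rho_rho (uu T v 0) (uu T v 1) (hu 0) (hu 1) (T 0) (T 0) (T 1) (T 1) (hT 0) (hT 1) ha
  have e0 : uu T v 0 = v 0 := act_one (v 0)
  have e1 : act (T 0) (T 0) (uu T v 1) = v 1 := act_SS_uu T hT v 1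
  rw [e1] at h2
  have h3 := (Zt v T e).add_mem ((Zt v T e).add_mem h1 h0) (Zt_of_OV v T e h2)
  rw [← e0]
  convert h3 using 1
  abel

private theorem sub_pow_mem (T : Fin 4 → Mat n) (hT : ∀ k, T k * T k = 1) (v : Fin 4 → V n)
    (hv : ∀ k, OV 2 (v k)) {e : ℕ} {a : V n} (ha : OV e a) (j : ℕ) :
    OV e ((rho (v 0 + v 1) (T 0 * T 1) (T 1 * T 0) ^ j) a) ∧
      a - (rho (v 0 + v 1) (T 0 * T 1) (T 1 * T 0) ^ j) a ∈ Zt v T e := by
  induction j with
  | zero =>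
    rw [pow_zero, Module.End.one_apply, sub_self]
    exact ⟨ha, (Zt v T e).zero_mem⟩
  | succ j ih =>
    rw [pow_succ', Module.End.mul_apply]
    refine ⟨OV_rho _ ((hv 0).add (hv 1)) _ _ ih.1, ?_⟩
    have h1 := (Zt v T e).add_mem ih.2 (sub_h_mem T hT v hv ih.1)
    rwa [sub_add_sub_cancel] at h1

private theorem inv_pow (T : Fin 4 → Mat n) (hT : ∀ k, T k * T k = 1) {N : ℕ}
    (hN : (T 0 * T 1) ^ N = -1) : (T 1 * T 0) ^ N = -1 := by
  have h := (pow_pow_inv T hT N).1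
  rw [hN, neg_mul, one_mul] at h
  rw [← h, neg_neg]

theorem two_mem (T : Fin 4 → Mat n) (hT : ∀ k, T k * T k = 1) (v : Fin 4 → V n)
    (hv : ∀ k, OV 2 (v k)) {N : ℕ} (hN : (T 0 * T 1) ^ N = -1) {e : ℕ} {a : V n} (ha : OV e a)
    (hodd : act (-1) (-1) a = -a) :
    (2 : ℂ) • a + br (gg T N v) a ∈ Zt v T e := by
  have h1 := (sub_pow_mem T hT v hv ha N).2
  have hS : T 0 * T 1 * (T 1 * T 0) = 1 := by
    have := (pow_pow_inv T hT 1).1
    rwa [pow_one, pow_one] at this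
  have h2 := rho_pow N (v 0 + v 1) ((hv 0).add (hv 1)) (T 0 * T 1) (T 1 * T 0) hS ha
  have h3 := Zt_of_OV v T e h2
  have h4 : rho (∑ j ∈ Finset.range N, act ((T 0 * T 1) ^ j) ((T 1 * T 0) ^ j) (v 0 + v 1))
      ((T 0 * T 1) ^ N) ((T 1 * T 0) ^ N) a = -a - br (gg T N v) a := by
    rw [hN, inv_pow T hT hN, rho_appZ, hodd, br_neg_right]
    rw [sub_eq_add_neg]
    rfl
  rw [h4] at h3
  have h5 := (Zt v T e).add_mem h1 h3
  convert h5 using 1
  rw [two_smul]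
  abel

theorem br_mem (T : Fin 4 → Mat n) (hT : ∀ k, T k * T k = 1) (v : Fin 4 → V n)
    (hv : ∀ k, OV 2 (v k)) {N : ℕ} (hN : (T 0 * T 1) ^ N = -1) {e : ℕ} {a : V n} (ha : OV e a)
    (hodd : act (-1) (-1) a = -a) (k : Fin 4) :
    br ((2 : ℂ) • uu T v k - gg T N v + act (T k) (T k) (gg T N v)) a ∈ Zt v T e := by
  set g := gg T N v with hg
  set b := act (T k) (T k) a with hb
  have hbO : OV e b := ha.act _ _
  have hbodd : act (-1) (-1) b = -b := by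
    rw [hb, act_act, neg_one_mul, mul_neg_one]
    have h1 : act (-T k) (-T k) a = act (T k) (T k) (act (-1) (-1) a) := by
      rw [act_act, neg_one_mul, mul_neg_one]
    rw [h1, hodd, act_neg]
  have hTb : act (T k) (T k) b = a := by rw [hb, act_act, hT, act_one]
  have m1 := two_mem T hT v hv hN ha hodd
  have m2 := two_mem T hT v hv hN hbO hbodd
  have m3 := Zt_rho T hT v hv k hbO
  rw [rho_appZ, hTb] at m3
  have hgb : OV (e + 1) (br g b) := OV_br (OV_gg T N v hv) hbO (by omega)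
  have m4 := Zt_act T hT v hv k hgb
  rw [act_br (T k) (T k) (hT k), hTb] at m4
  have h5 := (Zt v T e).sub_mem ((Zt v T e).sub_mem ((Zt v T e).sub_mem m2 m1)
    ((Zt v T e).smul_mem (2 : ℂ) m3)) m4
  have h6 : br ((2 : ℂ) • uu T v k - g + act (T k) (T k) g) a =
      (2 : ℂ) • b + br g b - ((2 : ℂ) • a + br g a) -
        (2 : ℂ) • (b - (a + br (uu T v k) a)) - (br g b - br (act (T k) (T k) g) a) := by
    rw [br_add_left, br_sub_left, br_smul_left]
    module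
  rw [h6]
  exact h5

end Pool.Agent.MOB
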